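import Pool.Agent.Q67.AXI.Defs3

/-!
The inequality `∫ V g² ≤ ε ∫ |∇g|² + C (∫ V ^ p) ^ (2 / (2 p - 3)) ∫ g²`, `p > 3 / 2`.
-/

set_option autoImplicit false

open MeasureTheory Set Metric Filter Topology
open scoped ContDiff ENNReal
open H459R3.NS Pool.Agent.W268.NS Pool.Agent.Q67.VD

namespace Pool.Agent.V8H53.AX

open Pool.Agent.Q85.CC Pool.Agent.Q85.CL Pool.Agent.TH305.AX Pool.Agent.Q67.AXI

lemma fd_norm (g : V → ℝ) (x : V) : ‖fderiv ℝ g x‖ ≤ ∑ j, |pd j g x| := by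
  refine ContinuousLinearMap.opNorm_le_bound _ (Finset.sum_nonneg fun j _ => abs_nonneg _) fun y => ?_
  rw [pd_vec, Finset.sum_mul]
  refine (norm_sum_le _ _).trans (Finset.sum_le_sum fun j _ => ?_)
  rw [norm_mul, mul_comm, Real.norm_eq_abs (pd j g x)]
  exact mul_le_mul_of_nonneg_left (norm_le_pi_norm y j) (abs_nonneg _)

lemma fd_sq (g : V → ℝ) (x : V) : ‖fderiv ℝ g x‖ ^ 2 ≤ 3 * gr2 g x := by
  have h1 := fd_norm g x
  have h2 : ‖fderiv ℝ g x‖ ^ 2 ≤ (∑ j, |pd j g x|) ^ 2 := pow_le_pow_left₀ (norm_nonneg _) h1 2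
  refine h2.trans ?_
  unfold gr2
  simp only [Fin.sum_univ_three]
  have e : ∀ j, pd j g x ^ 2 = |pd j g x| ^ 2 := fun j => (sq_abs _).symm
  rw [e, e, e]
  nlinarith [sq_nonneg (|pd 0 g x| - |pd 1 g x|), sq_nonneg (|pd 0 g x| - |pd 2 g x|),
    sq_nonneg (|pd 1 g x| - |pd 2 g x|)]

lemma gr2_integrable {g : V → ℝ} (hg : ContDiff ℝ 1 g) (hc : HasCompactSupport g) :
    Integrable (gr2 g) := by
  have h0 : ∀ j, Continuous (pd j g) := fun j =>
    (hg.continuous_fderiv one_ne_zero).clm_apply continuous_const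
  have h1 : Continuous (gr2 g) := by
    unfold gr2
    fun_prop
  refine h1.integrable_of_hasCompactSupport ?_
  refine HasCompactSupport.intro hc.isCompact fun x hx => ?_
  have h2 : fderiv ℝ g x = 0 := by
    have : g =ᶠ[𝓝 x] fun _ => (0 : ℝ) := by
      filter_upwards [(isClosed_tsupport g).isOpen_compl.mem_nhds hx] with y hy
      exact image_eq_zero_of_notMem_tsupport hy
    rw [this.fderiv_eq]
    simp
  unfold gr2 pd
  rw [h2]
  simp

/-- Sobolev inequality -/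
theorem sob6 : ∃ C : ℝ, 0 < C ∧ ∀ g : V → ℝ, ContDiff ℝ 1 g → HasCompactSupport g →
    ∫ x, g x ^ 6 ≤ C * (GD g) ^ 3 := by
  obtain ⟨K, hK⟩ : ∃ K : ℝ, K = (SNormLESNormFDerivOfEqConst ℝ (volume : Measure V)
    ((2 : NNReal) : ℝ) : ℝ) := ⟨_, rfl⟩
  refine ⟨27 * K ^ 6 + 1, by positivity, fun u hu hc => ?_⟩
  have hm6 : MemLp u 6 := hu.continuous.memLp_of_hasCompactSupport hc
  have hcf : HasCompactSupport (fderiv ℝ u) := hc.fderiv (𝕜 := ℝ)
  have hm2 : MemLp (fderiv ℝ u) 2 :=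
    (hu.continuous_fderiv (by norm_num)).memLp_of_hasCompactSupport hcf
  have key := eLpNorm_le_eLpNorm_fderiv_of_eq (μ := (volume : Measure V)) hu hc (p := 2) (p' := 6)
    (by norm_num) (by simp) (by simp; norm_num)
  simp only [ENNReal.coe_ofNat] at key
  rw [hm6.eLpNorm_eq_integral_rpow_norm (by norm_num) (by norm_num),
    hm2.eLpNorm_eq_integral_rpow_norm (by norm_num) (by norm_num)] at key
  have e6 : (6 : ℝ≥0∞).toReal = 6 := by norm_num
  have e2 : (2 : ℝ≥0∞).toReal = 2 := by norm_num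
  rw [e6, e2] at key
  obtain ⟨A, hA⟩ : ∃ A : ℝ, A = ∫ x, ‖u x‖ ^ (6 : ℝ) := ⟨_, rfl⟩
  obtain ⟨D, hD⟩ : ∃ D : ℝ, D = ∫ x, ‖fderiv ℝ u x‖ ^ (2 : ℝ) := ⟨_, rfl⟩
  rw [← hA, ← hD] at key
  have hA0 : 0 ≤ A := by rw [hA]; exact integral_nonneg fun _ => by positivity
  have hD0 : 0 ≤ D := by rw [hD]; exact integral_nonneg fun _ => by positivity
  have hK0 : 0 ≤ K := by rw [hK]; exact NNReal.coe_nonneg _
  have key2 : A ^ (6 : ℝ)⁻¹ ≤ K * D ^ (2 : ℝ)⁻¹ := by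
    have h1 : ((SNormLESNormFDerivOfEqConst ℝ (volume : Measure V) ((2 : NNReal) : ℝ) : NNReal) :
        ℝ≥0∞) = ENNReal.ofReal K := by
      rw [hK, ENNReal.ofReal_coe_nnreal]
    rw [h1, ← ENNReal.ofReal_mul hK0] at key
    exact (ENNReal.ofReal_le_ofReal_iff (by positivity)).mp key
  have hG0 : 0 ≤ GD u := integral_nonneg fun x => Finset.sum_nonneg fun i _ => sq_nonneg _
  have hDG : D ≤ 3 * GD u := by
    rw [hD]
    unfold GD
    rw [← integral_const_mul]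
    refine integral_mono_of_nonneg (Filter.Eventually.of_forall fun x => by positivity)
      ((gr2_integrable hu hc).const_mul 3) (Filter.Eventually.of_forall fun x => ?_)
    beta_reduce
    rw [show (2 : ℝ) = ((2 : ℕ) : ℝ) by norm_num, Real.rpow_natCast]
    exact fd_sq u x
  have h3 : A ≤ K ^ 6 * D ^ 3 := by
    have h1 : (A ^ (6 : ℝ)⁻¹) ^ 6 ≤ (K * D ^ (2 : ℝ)⁻¹) ^ 6 :=
      pow_le_pow_left₀ (by positivity) key2 6
    have h2 : (A ^ (6 : ℝ)⁻¹) ^ 6 = A := by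
      rw [← Real.rpow_natCast, ← Real.rpow_mul hA0]
      norm_num
    have h4 : (K * D ^ (2 : ℝ)⁻¹) ^ 6 = K ^ 6 * D ^ 3 := by
      rw [mul_pow, ← Real.rpow_natCast (D ^ (2 : ℝ)⁻¹) 6, ← Real.rpow_mul hD0]
      norm_num
    rw [h2, h4] at h1
    exact h1
  have e5 : ∫ x, u x ^ 6 = A := by
    rw [hA]
    refine integral_congr_ae (Eventually.of_forall fun x => ?_)
    beta_reduce
    rw [show (6 : ℝ) = ((6 : ℕ) : ℝ) by norm_num, Real.rpow_natCast, Real.norm_eq_abs]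
    rw [show |u x| ^ 6 = (|u x| ^ 2) ^ 3 by ring, sq_abs]
    ring
  rw [e5]
  calc A ≤ K ^ 6 * D ^ 3 := h3
    _ ≤ K ^ 6 * (3 * GD u) ^ 3 := by gcongr
    _ ≤ (27 * K ^ 6 + 1) * GD u ^ 3 := by
        have : 0 ≤ GD u ^ 3 := by positivity
        nlinarith

/-- Hölder inequality with three factors -/
lemma hol3 {p : ℝ} (hp : 3 / 2 < p) {Q g : V → ℝ} (hQm : AEMeasurable Q) (hQ : ∀ x, 0 ≤ Q x)
    (hg : Continuous g) (hc : HasCompactSupport g) {N : ℝ} (hN : 0 ≤ N)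
    (h : ∫⁻ x, ENNReal.ofReal (Q x ^ p) ≤ ENNReal.ofReal N) :
    Integrable (fun x => Q x * g x ^ 2) ∧ ∫ x, Q x * g x ^ 2 ≤
      N ^ (1 / p) * (∫ x, g x ^ 2) ^ (1 - 3 / (2 * p)) * (∫ x, g x ^ 6) ^ (1 / (2 * p)) := by
  have hp0 : 0 < p := by linarith
  have ha : 0 < 1 - 3 / (2 * p) := by
    rw [sub_pos, div_lt_one (by positivity)]
    linarith
  have hg2 : Integrable (fun x => g x ^ 2) := by
    refine (hg.pow 2).integrable_of_hasCompactSupport ?_
    refine HasCompactSupport.intro hc.isCompact fun x hx => ?_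
    show g x ^ 2 = 0
    rw [image_eq_zero_of_notMem_tsupport hx]
    norm_num
  have hg6 : Integrable (fun x => g x ^ 6) := by
    refine (hg.pow 6).integrable_of_hasCompactSupport ?_
    refine HasCompactSupport.intro hc.isCompact fun x hx => ?_
    show g x ^ 6 = 0
    rw [image_eq_zero_of_notMem_tsupport hx]
    norm_num
  have n6 : ∀ x, 0 ≤ g x ^ 6 := fun x => by
    rw [show g x ^ 6 = (g x ^ 2) ^ 3 by ring]
    positivity
  have I2 : 0 ≤ ∫ x, g x ^ 2 := integral_nonneg fun x => by positivity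
  have I6 : 0 ≤ ∫ x, g x ^ 6 := integral_nonneg n6
  have key := ENNReal.lintegral_prod_norm_pow_le (μ := (volume : Measure V)) Finset.univ
    (f := ![fun x => ENNReal.ofReal (Q x ^ p), fun x => ENNReal.ofReal (g x ^ 2),
      fun x => ENNReal.ofReal (g x ^ 6)]) (p := ![1 / p, 1 - 3 / (2 * p), 1 / (2 * p)])
    (by
      intro i _
      fin_cases i
      · exact (hQm.pow_const p).ennreal_ofReal
      · exact (hg.pow 2).measurable.ennreal_ofReal.aemeasurable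
      · exact (hg.pow 6).measurable.ennreal_ofReal.aemeasurable)
    (by
      rw [Fin.sum_univ_three]
      show 1 / p + (1 - 3 / (2 * p)) + 1 / (2 * p) = 1
      field_simp
      ring)
    (by
      intro i _
      fin_cases i
      · show 0 ≤ 1 / p
        positivity
      · exact ha.le
      · show 0 ≤ 1 / (2 * p)
        positivity)
  simp only [Fin.prod_univ_three] at key
  have e1 : ∀ x : V, ENNReal.ofReal (Q x ^ p) ^ (1 / p) * ENNReal.ofReal (g x ^ 2)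
      ^ (1 - 3 / (2 * p)) * ENNReal.ofReal (g x ^ 6) ^ (1 / (2 * p)) =
      ENNReal.ofReal (Q x * g x ^ 2) := by
    intro x
    have q1 : 0 ≤ Q x ^ p := Real.rpow_nonneg (hQ x) _
    rw [ENNReal.ofReal_rpow_of_nonneg q1 (by positivity),
      ENNReal.ofReal_rpow_of_nonneg (by positivity) ha.le,
      ENNReal.ofReal_rpow_of_nonneg (n6 x) (by positivity),
      ← ENNReal.ofReal_mul (by positivity), ← ENNReal.ofReal_mul (by positivity)]
    congr 1
    rw [← Real.rpow_mul (hQ x), mul_one_div_cancel hp0.ne', Real.rpow_one, mul_assoc]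
    congr 1
    rcases eq_or_ne (g x) 0 with h0 | h0
    · rw [h0]
      norm_num
      left
      exact Real.zero_rpow ha.ne'
    · have h2 : 0 < g x ^ 2 := by positivity
      rw [show g x ^ 6 = (g x ^ 2) ^ 3 by ring, ← Real.rpow_natCast (g x ^ 2) 3,
        ← Real.rpow_mul h2.le, ← Real.rpow_add h2]
      have : 1 - 3 / (2 * p) + ((3 : ℕ) : ℝ) * (1 / (2 * p)) = 1 := by
        push_cast
        ring
      rw [this, Real.rpow_one]
  have e2 : ∫⁻ x, ENNReal.ofReal (g x ^ 2) = ENNReal.ofReal (∫ x, g x ^ 2) :=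
    (ofReal_integral_eq_lintegral_ofReal hg2 (Eventually.of_forall fun x => by positivity)).symm
  have e3 : ∫⁻ x, ENNReal.ofReal (g x ^ 6) = ENNReal.ofReal (∫ x, g x ^ 6) :=
    (ofReal_integral_eq_lintegral_ofReal hg6 (Eventually.of_forall n6)).symm
  have key2 : ∫⁻ x, ENNReal.ofReal (Q x * g x ^ 2) ≤
      (∫⁻ x, ENNReal.ofReal (Q x ^ p)) ^ (1 / p) * (∫⁻ x, ENNReal.ofReal (g x ^ 2))
        ^ (1 - 3 / (2 * p)) * (∫⁻ x, ENNReal.ofReal (g x ^ 6)) ^ (1 / (2 * p)) := by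
    refine le_trans (le_of_eq ?_) key
    exact lintegral_congr fun x => (e1 x).symm
  rw [e2, e3] at key2
  have key3 : ∫⁻ x, ENNReal.ofReal (Q x * g x ^ 2) ≤ ENNReal.ofReal
      (N ^ (1 / p) * (∫ x, g x ^ 2) ^ (1 - 3 / (2 * p)) * (∫ x, g x ^ 6) ^ (1 / (2 * p))) := by
    refine key2.trans ?_
    rw [ENNReal.ofReal_mul (by positivity), ENNReal.ofReal_mul (by positivity),
      ← ENNReal.ofReal_rpow_of_nonneg hN (by positivity),
      ← ENNReal.ofReal_rpow_of_nonneg I2 ha.le,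
      ← ENNReal.ofReal_rpow_of_nonneg I6 (by positivity)]
    gcongr
  have hm : AEStronglyMeasurable (fun x => Q x * g x ^ 2) :=
    (hQm.mul (hg.pow 2).measurable.aemeasurable).aestronglyMeasurable
  have hnn : ∀ x, 0 ≤ Q x * g x ^ 2 := fun x => mul_nonneg (hQ x) (sq_nonneg _)
  have hint : Integrable (fun x => Q x * g x ^ 2) := by
    refine ⟨hm, ?_⟩
    rw [hasFiniteIntegral_iff_ofReal (Eventually.of_forall hnn)]
    exact key3.trans_lt ENNReal.ofReal_lt_top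
  refine ⟨hint, ?_⟩
  rw [← ofReal_integral_eq_lintegral_ofReal hint (Eventually.of_forall hnn)] at key3
  exact (ENNReal.ofReal_le_ofReal_iff (by positivity)).1 key3

/-- potentials of subcritical order -/
theorem pot_le {p : ℝ} (hp : 3 / 2 < p) {ε : ℝ} (hε : 0 < ε) : ∃ C : ℝ, 0 ≤ C ∧
    ∀ (Q g : V → ℝ) (N : ℝ), AEMeasurable Q → (∀ x, 0 ≤ Q x) → ContDiff ℝ 1 g →
      HasCompactSupport g → 0 ≤ N → ∫⁻ x, ENNReal.ofReal (Q x ^ p) ≤ ENNReal.ofReal N →
      Integrable (fun x => Q x * g x ^ 2) ∧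
      ∫ x, Q x * g x ^ 2 ≤ ε * GD g + C * N ^ (2 / (2 * p - 3)) * ∫ x, g x ^ 2 := by
  obtain ⟨S, hS, hsob⟩ := sob6
  have hp0 : 0 < p := by linarith
  obtain ⟨θ, hθ⟩ : ∃ θ : ℝ, θ = 3 / (2 * p) := ⟨_, rfl⟩
  have hθ0 : 0 < θ := by rw [hθ]; positivity
  have hθ1 : θ < 1 := by
    rw [hθ, div_lt_one (by positivity)]
    linarith
  have h1θ : 0 < 1 - θ := by linarith
  obtain ⟨k, hk⟩ : ∃ k : ℝ, k = S ^ (1 / (2 * p)) * ε ^ (-θ) := ⟨_, rfl⟩
  have hk0 : 0 ≤ k := by rw [hk]; positivity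
  refine ⟨k ^ (1 / (1 - θ)), by positivity, fun Q g N hQm hQ hg hc hN h => ?_⟩
  obtain ⟨h1, h2⟩ := hol3 hp hQm hQ hg.continuous hc hN h
  refine ⟨h1, h2.trans ?_⟩
  obtain ⟨A, hA⟩ : ∃ A : ℝ, A = ∫ x, g x ^ 2 := ⟨_, rfl⟩
  obtain ⟨D, hD⟩ : ∃ D : ℝ, D = GD g := ⟨_, rfl⟩
  have hA0 : 0 ≤ A := by rw [hA]; exact integral_nonneg fun x => by positivity
  have hD0 : 0 ≤ D := by
    rw [hD]
    exact integral_nonneg fun x => Finset.sum_nonneg fun i _ => sq_nonneg _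
  have h3 := hsob g hg hc
  have I6 : 0 ≤ ∫ x, g x ^ 6 := integral_nonneg fun x => by
    show 0 ≤ g x ^ 6
    rw [show g x ^ 6 = (g x ^ 2) ^ 3 by ring]
    positivity
  rw [← hA, ← hθ]
  rw [← hD] at h3 ⊢
  have h4 : (∫ x, g x ^ 6) ^ (1 / (2 * p)) ≤ S ^ (1 / (2 * p)) * D ^ θ := by
    have h5 := Real.rpow_le_rpow I6 h3 (show 0 ≤ 1 / (2 * p) by positivity)
    refine h5.trans (le_of_eq ?_)
    rw [Real.mul_rpow hS.le (by positivity), ← Real.rpow_natCast D 3, ← Real.rpow_mul hD0]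
    congr 2
    rw [hθ]
    push_cast
    ring
  have h6 : N ^ (1 / p) * A ^ (1 - θ) * (∫ x, g x ^ 6) ^ (1 / (2 * p)) ≤
      N ^ (1 / p) * A ^ (1 - θ) * (S ^ (1 / (2 * p)) * D ^ θ) := by
    have : 0 ≤ N ^ (1 / p) * A ^ (1 - θ) := by positivity
    exact mul_le_mul_of_nonneg_left h4 this
  refine h6.trans ?_
  have hY : 0 ≤ k ^ (1 / (1 - θ)) * N ^ (2 / (2 * p - 3)) * A := by positivity
  have h7 := Real.geom_mean_le_arith_mean2_weighted hθ0.le h1θ.le
    (show 0 ≤ ε * D by positivity) hY (by ring)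
  have e1 : N ^ (1 / p) * A ^ (1 - θ) * (S ^ (1 / (2 * p)) * D ^ θ) =
      (ε * D) ^ θ * (k ^ (1 / (1 - θ)) * N ^ (2 / (2 * p - 3)) * A) ^ (1 - θ) := by
    rw [Real.mul_rpow hε.le hD0, Real.mul_rpow (by positivity) hA0,
      Real.mul_rpow (by positivity) (by positivity), ← Real.rpow_mul hk0,
      one_div_mul_cancel h1θ.ne', Real.rpow_one, ← Real.rpow_mul hN]
    have e2 : 2 / (2 * p - 3) * (1 - θ) = 1 / p := by
      rw [hθ]
      have : 2 * p - 3 ≠ 0 := by linarith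
      field_simp
    rw [e2, hk]
    have e3 : ε ^ θ * ε ^ (-θ) = 1 := by
      rw [← Real.rpow_add hε]
      simp
    calc N ^ (1 / p) * A ^ (1 - θ) * (S ^ (1 / (2 * p)) * D ^ θ)
        = (ε ^ θ * ε ^ (-θ)) * (N ^ (1 / p) * A ^ (1 - θ) * (S ^ (1 / (2 * p)) * D ^ θ)) := by
          rw [e3, one_mul]
      _ = _ := by ring
  rw [e1]
  refine h7.trans ?_
  have a1 : θ * (ε * D) ≤ ε * D := mul_le_of_le_one_left (by positivity) hθ1.le
  have a2 : (1 - θ) * (k ^ (1 / (1 - θ)) * N ^ (2 / (2 * p - 3)) * A) ≤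
      k ^ (1 / (1 - θ)) * N ^ (2 / (2 * p - 3)) * A := mul_le_of_le_one_left hY (by linarith)
  linarith

end Pool.Agent.V8H53.AX
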