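import Pool.Agent.Q150.AXI.EqO
import Pool.Agent.Q67.AXI.Defs3
import Pool.Agent.Q111.AXI.Cac

/-!
Powers of the circulation with a weight: `w = ρ ^ (2 m) W ^ k = ρ ^ (-2 b) Γ ^ k`, where
`m = k - b`. The equation of `w`.
-/

set_option autoImplicit false

open MeasureTheory Set Metric Filter Topology
open scoped ContDiff
open H459R3.NS Pool.Agent.W268.NS Pool.Agent.Q67.VD

namespace Pool.Agent.V8H53.AX

open Pool.Agent.Q85.CC Pool.Agent.Q85.CL Pool.Agent.TH305.AX Pool.Agent.Q67.AXI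
open Pool.Agent.W583.MD (sm_pd pd_mul')
open Pool.Agent.Q150.AXI (sm_sg sd sm_sd pd_sg pd_sgf lap_sgf RR_sgf adv_sgf)
open Pool.Agent.Q2.CL (pd_add_s)

variable {W g : V → ℝ} {v : V → V} {U : V → ℝ}

lemma pd_powf (hW : ContDiff ℝ ∞ W) (m : ℕ) (i : Fin 3) :
    pd i (fun y => W y ^ (m + 1)) = fun x => ((m : ℝ) + 1) * W x ^ m * pd i W x := by
  funext x
  unfold pd
  have h1 : DifferentiableAt ℝ W x := (hW.differentiable (by norm_cast)) x
  have h2 := h1.hasFDerivAt.pow (m + 1)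
  rw [h2.fderiv]
  simp

lemma pd_pow2 (hW : ContDiff ℝ ∞ W) (m : ℕ) (i : Fin 3) (x : V) :
    pd i (pd i (fun y => W y ^ (m + 2))) x = ((m : ℝ) + 2) * W x ^ (m + 1) * pd i (pd i W) x
      + ((m : ℝ) + 2) * ((m : ℝ) + 1) * W x ^ m * pd i W x ^ 2 := by
  have e1 : pd i (fun y => W y ^ (m + 2)) = fun x => (((m : ℝ) + 2) * W x ^ (m + 1)) * pd i W x := by
    have := pd_powf hW (m + 1) i
    push_cast at this
    rw [show (m : ℝ) + 1 + 1 = (m : ℝ) + 2 by ring] at this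
    exact this
  have s1 : ContDiff ℝ ∞ (fun y => W y ^ (m + 1)) := hW.pow _
  rw [e1, pd_mulf (contDiff_const.mul s1) (sm_pd hW i), pd_mulf contDiff_const s1, pd_powf hW m]
  have h0 : pd i (fun _ : V => (m : ℝ) + 2) x = 0 := by
    unfold pd
    simp
  beta_reduce
  rw [h0]
  ring

lemma lap_pow (hW : ContDiff ℝ ∞ W) (m : ℕ) (x : V) :
    lap (fun y => W y ^ (m + 2)) x = ((m : ℝ) + 2) * W x ^ (m + 1) * lap W x
      + ((m : ℝ) + 2) * ((m : ℝ) + 1) * W x ^ m * gr2 W x := by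
  unfold lap gr2
  simp only [pd_pow2 hW, Fin.sum_univ_three]
  ring

lemma RR_pow (hW : ContDiff ℝ ∞ W) (m : ℕ) (x : V) :
    RR (fun y => W y ^ (m + 1)) x = ((m : ℝ) + 1) * W x ^ m * RR W x := by
  unfold RR
  rw [pd_powf hW, pd_powf hW]
  ring

lemma adv_pow (hW : ContDiff ℝ ∞ W) (m : ℕ) (x : V) :
    W221.NS.adv v (fun y => W y ^ (m + 1)) x = ((m : ℝ) + 1) * W x ^ m * W221.NS.adv v W x := by
  unfold W221.NS.adv
  simp only [pd_powf hW, Fin.sum_univ_three]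
  ring

lemma gr2_pow (hW : ContDiff ℝ ∞ W) (m : ℕ) (x : V) :
    gr2 (fun y => W y ^ (m + 1)) x = ((m : ℝ) + 1) ^ 2 * W x ^ (2 * m) * gr2 W x := by
  unfold gr2
  simp only [pd_powf hW, Fin.sum_univ_three]
  ring

lemma LL_pow (hW : ContDiff ℝ ∞ W) (m : ℕ) (x : V) :
    LL (fun y => W y ^ (m + 2)) x = ((m : ℝ) + 2) * W x ^ (m + 1) * LL W x
      + ((m : ℝ) + 2) * ((m : ℝ) + 1) * W x ^ m * gr2 W x := by
  unfold LL
  have h := RR_pow hW (m + 1) x
  push_cast at h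
  rw [lap_pow hW, h]
  ring

/-- multiplication by `sg` -/
lemma LL_sgf (hg : ContDiff ℝ ∞ g) {x : V} (hx : sg x ≠ 0) :
    LL (fun y => sg y * g y) x = sg x * LL g x + 4 * RR g x + 8 * g x := by
  unfold LL
  rw [lap_sgf hg, RR_sgf hg]
  field_simp
  ring

lemma gr2_sgf (hg : ContDiff ℝ ∞ g) (x : V) :
    gr2 (fun y => sg y * g y) x = sg x ^ 2 * gr2 g x + 4 * sg x * g x * RR g x
      + 4 * sg x * g x ^ 2 := by
  unfold gr2
  simp only [pd_sgf hg, Fin.sum_univ_three]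
  unfold sd RR sg
  have e1 : ((0 : Fin 3) = 1) = False := by simp
  have e2 : ((0 : Fin 3) = 2) = False := by simp
  have e3 : ((1 : Fin 3) = 0) = False := by simp
  have e4 : ((1 : Fin 3) = 2) = False := by simp
  simp only [e1, e2, e3, e4, if_true, if_false]
  ring

lemma sgp_succ (m : ℕ) : (fun y : V => sg y ^ (m + 1) * g y) = fun y => sg y * (sg y ^ m * g y) := by
  funext y
  ring

lemma sm_sgp (hg : ContDiff ℝ ∞ g) (m : ℕ) : ContDiff ℝ ∞ (fun y : V => sg y ^ m * g y) :=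
  (sm_sg.pow m).mul hg

lemma RR_sgp (hg : ContDiff ℝ ∞ g) (m : ℕ) (x : V) :
    RR (fun y => sg y ^ m * g y) x = sg x ^ m * (RR g x + 2 * m * g x) := by
  induction m with
  | zero => simp
  | succ m ih =>
    rw [sgp_succ, RR_sgf (sm_sgp hg m), ih]
    push_cast
    ring

lemma adv_sgp (hg : ContDiff ℝ ∞ g) {x : V} (hU : rad v x = sg x * U x) (m : ℕ) :
    W221.NS.adv v (fun y => sg y ^ m * g y) x = sg x ^ m * (W221.NS.adv v g x
      + 2 * m * U x * g x) := by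
  induction m with
  | zero => simp
  | succ m ih =>
    rw [sgp_succ, adv_sgf (sm_sgp hg m), ih, hU]
    push_cast
    ring

lemma LL_sgp (hg : ContDiff ℝ ∞ g) {x : V} (hx : sg x ≠ 0) (m : ℕ) :
    LL (fun y => sg y ^ (m + 1) * g y) x = sg x ^ m * (sg x * LL g x + 4 * (m + 1) * RR g x
      + 4 * (m + 1) * (m + 2) * g x) := by
  induction m with
  | zero =>
    have e : (fun y : V => sg y ^ (0 + 1) * g y) = fun y => sg y * g y := by
      funext y
      ring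
    rw [e, LL_sgf hg hx]
    push_cast
    ring
  | succ m ih =>
    rw [sgp_succ, LL_sgf (sm_sgp hg (m + 1)) hx, ih, RR_sgp hg]
    push_cast
    ring

lemma gr2_sgp (hg : ContDiff ℝ ∞ g) (m : ℕ) (x : V) :
    sg x * gr2 (fun y => sg y ^ m * g y) x = sg x ^ (2 * m) * (sg x * gr2 g x
      + 4 * m * g x * RR g x + 4 * m ^ 2 * g x ^ 2) := by
  induction m with
  | zero => simp
  | succ m ih =>
    have e : sg x * gr2 (fun y => sg y ^ (m + 1) * g y) x =
        sg x ^ 2 * (sg x * gr2 (fun y => sg y ^ m * g y) x) + 4 * sg x ^ 2 * (sg x ^ m * g x)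
          * RR (fun y => sg y ^ m * g y) x + 4 * sg x ^ 2 * (sg x ^ m * g x) ^ 2 := by
      rw [sgp_succ, gr2_sgf (sm_sgp hg m)]
      ring
    rw [e, ih, RR_sgp hg]
    push_cast
    ring

/-- `w = ρ ^ (-2 b) Γ ^ k`, where `b = l + 1` and `k = j + l + 2` -/
noncomputable def ww (j l : ℕ) (W : V → ℝ) (x : V) : ℝ := sg x ^ (j + 1) * W x ^ (j + l + 2)

/-- `w ^ 2 / ρ ^ 2` -/
noncomputable def w0 (j l : ℕ) (W : V → ℝ) (x : V) : ℝ :=
  sg x ^ (2 * j + 1) * W x ^ (2 * (j + l + 2))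

/-- the term with a sign in the equation of `w` -/
noncomputable def DD (j l : ℕ) (W : V → ℝ) (x : V) : ℝ :=
  sg x ^ j * W x ^ (j + l) * (((j : ℝ) + l + 2) * (j + l + 1) * (sg x * gr2 W x)
    + 4 * (j + 1) * (j + 2) * W x ^ 2 + 4 * (j + 1) * (j + l + 2) * (W x * RR W x))

lemma ww_sm (hW : ContDiff ℝ ∞ W) (j l : ℕ) : ContDiff ℝ ∞ (ww j l W) :=
  (sm_sg.pow _).mul (hW.pow _)

lemma w0_sm (hW : ContDiff ℝ ∞ W) (j l : ℕ) : ContDiff ℝ ∞ (w0 j l W) :=
  (sm_sg.pow _).mul (hW.pow _)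

lemma ww_sq (j l : ℕ) (x : V) : ww j l W x ^ 2 = sg x * w0 j l W x := by
  unfold ww w0
  ring

lemma w0_nonneg (j l : ℕ) (x : V) : 0 ≤ w0 j l W x := by
  unfold w0
  have h1 := sg_nonneg x
  have h2 : 0 ≤ W x ^ (2 * (j + l + 2)) := by
    rw [pow_mul]
    positivity
  positivity

/-- the equation of `w` -/
lemma ww_eq (hW : ContDiff ℝ ∞ W) (j l : ℕ) {x : V} (hx : sg x ≠ 0) (hU : rad v x = sg x * U x)
    {W' : ℝ} (h : W' = LL W x - W221.NS.adv v W x - 2 * U x * W x) :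
    ((j : ℝ) + l + 2) * sg x ^ (j + 1) * W x ^ (j + l + 1) * W' =
      LL (ww j l W) x - W221.NS.adv v (ww j l W) x + (-2 * (l + 1) * U x * ww j l W x
        - DD j l W x) := by
  have s1 : ContDiff ℝ ∞ (fun y => W y ^ (j + l + 2)) := hW.pow _
  have e1 : LL (ww j l W) x = _ := LL_sgp (g := fun y => W y ^ (j + l + 2)) s1 hx j
  have e2 : W221.NS.adv v (ww j l W) x = _ :=
    adv_sgp (g := fun y => W y ^ (j + l + 2)) s1 hU (j + 1)
  have e3 := LL_pow hW (j + l) x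
  have e4 := adv_pow (v := v) hW (j + l + 1) x
  have e5 := RR_pow hW (j + l + 1) x
  rw [show j + l + 1 + 1 = j + l + 2 by ring] at e4 e5
  rw [e1, e2, e3, e4, e5, h]
  unfold DD ww
  push_cast
  ring

/-- the identity for the term with a sign -/
lemma DD_eq (hW : ContDiff ℝ ∞ W) (j l : ℕ) {x : V} (hx : sg x ≠ 0) :
    ((j : ℝ) + l + 2) * (ww j l W x * DD j l W x) = (j + l + 1) * gr2 (ww j l W) x
      + 2 * (j + 1) * RR (w0 j l W) x + 4 * (j + 1) * (l + 2) * w0 j l W x := by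
  have s1 : ContDiff ℝ ∞ (fun y => W y ^ (j + l + 2)) := hW.pow _
  have s2 : ContDiff ℝ ∞ (fun y => W y ^ (2 * (j + l + 2))) := hW.pow _
  have e1 : sg x * gr2 (ww j l W) x = _ := gr2_sgp (g := fun y => W y ^ (j + l + 2)) s1 (j + 1) x
  have e2 : RR (w0 j l W) x = _ := RR_sgp (g := fun y => W y ^ (2 * (j + l + 2))) s2 (2 * j + 1) x
  have e3 := gr2_pow hW (j + l + 1) x
  have e5 := RR_pow hW (j + l + 1) x
  have e6 := RR_pow hW (2 * (j + l + 1) + 1) x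
  rw [show j + l + 1 + 1 = j + l + 2 by ring] at e3 e5
  rw [show 2 * (j + l + 1) + 1 + 1 = 2 * (j + l + 2) by ring] at e6
  rw [e3, e5] at e1
  rw [e6] at e2
  refine mul_left_cancel₀ hx ?_
  have e7 : sg x * ((j + l + 1) * gr2 (ww j l W) x
      + 2 * (j + 1) * RR (w0 j l W) x + 4 * (j + 1) * (l + 2) * w0 j l W x) =
      (j + l + 1) * (sg x * gr2 (ww j l W) x) + sg x * (2 * (j + 1) * RR (w0 j l W) x
        + 4 * (j + 1) * (l + 2) * w0 j l W x) := by ring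
  rw [e7, e1, e2]
  unfold DD ww w0
  push_cast
  ring

/-- the gradient of the velocity controls the two functions -/
lemma UW_gsq (hAlg : StmAlg) (hv : ContDiff ℝ ∞ v) (ha : Axi v) {x : V} (hx : sg x ≠ 0) :
    UU v x ^ 2 + WW v x ^ 2 ≤ W221.NS.gsq v x := by
  obtain ⟨h0, h1⟩ := axi_inf hv ha x
  obtain ⟨-, -, -, h⟩ := hAlg v hv ha
  obtain ⟨g0, g1, -⟩ := h x
  have hs : 0 < sg x := lt_of_le_of_ne (sg_nonneg x) (Ne.symm hx)
  have e1 : sg x * (UU v x ^ 2 + WW v x ^ 2) = v x 0 ^ 2 + v x 1 ^ 2 := by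
    rw [g0, g1]
    unfold sg
    ring
  have e2 : v x 0 ^ 2 + v x 1 ^ 2 ≤ sg x * W221.NS.gsq v x := by
    have a1 : v x 1 ^ 2 ≤ sg x * (pd 1 (fun y => v y 0) x ^ 2 + pd 0 (fun y => v y 0) x ^ 2) := by
      have : v x 1 = -(x 0 * pd 1 (fun y => v y 0) x - x 1 * pd 0 (fun y => v y 0) x) := by
        linarith
      rw [this]
      unfold sg
      nlinarith [sq_nonneg (x 1 * pd 1 (fun y => v y 0) x + x 0 * pd 0 (fun y => v y 0) x)]
    have a2 : v x 0 ^ 2 ≤ sg x * (pd 1 (fun y => v y 1) x ^ 2 + pd 0 (fun y => v y 1) x ^ 2) := by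
      rw [← h1]
      unfold sg
      nlinarith [sq_nonneg (x 1 * pd 1 (fun y => v y 1) x + x 0 * pd 0 (fun y => v y 1) x)]
    have a3 : (pd 1 (fun y => v y 0) x ^ 2 + pd 0 (fun y => v y 0) x ^ 2)
        + (pd 1 (fun y => v y 1) x ^ 2 + pd 0 (fun y => v y 1) x ^ 2) ≤ W221.NS.gsq v x := by
      unfold W221.NS.gsq
      simp only [Fin.sum_univ_three]
      nlinarith [sq_nonneg (pd 2 (fun y => v y 0) x), sq_nonneg (pd 2 (fun y => v y 1) x),
        sq_nonneg (pd 0 (fun y => v y 2) x), sq_nonneg (pd 1 (fun y => v y 2) x),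
        sq_nonneg (pd 2 (fun y => v y 2) x)]
    have a4 := mul_le_mul_of_nonneg_left a3 hs.le
    linarith
  exact le_of_mul_le_mul_left (e1.trans_le e2) hs

end Pool.Agent.V8H53.AX
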