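import Pool.Agent.V8H53.AX.T12
import Pool.Agent.V8Lead.BtP
import Pool.Agent.Q95.AXP.Yd

/-!
The energy of `JJ` and `OO` and the bound of `WW`, when `∫ ρ ^ (-4 b) Γ ^ (2 k)` does not grow
too fast.
-/

set_option autoImplicit false

open MeasureTheory Set Metric Filter Topology
open scoped ContDiff
open H459R3.NS Pool.Agent.W268.NS Pool.Agent.Q67.VD

namespace Pool.Agent.V8H53.AX

open Pool.Agent.Q85.CC Pool.Agent.Q85.CL Pool.Agent.TH305.AX Pool.Agent.Q67.AXI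
open Pool.Agent.W583.MD (sm_pd pd_mul')
open Pool.Agent.Q95.AXP (en_gen rem_le SS_sm)
open Pool.Agent.Q285.AXI (slice co_mono)
open Pool.Agent.V8Lead (GD_nn gronE windowE)

/-- The differential inequality. -/
theorem ydS (hAlg : StmAlg) (hEqJ : StmEqJ) (hEqO : StmEqO) (hJnt : StmJnt) (hDt : StmDt)
    (hEn : Pool.Agent.Q67.AXI.StmEn) (hHar : StmHar) (hU : StmU) (j l : ℕ)
    {κ : ℝ} (hκ : 1 < κ * (l + 1)) (hκ2 : κ < 4 / 3)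
    {T E c R H K r h r1 h1 T₁ C₀ : ℝ} {u : ℝ → V → V} {p : ℝ → V → ℝ} {φ : V → ℝ}
    (hsol : AxL T E c R H u p) (hK : 0 ≤ K) (hr1 : 0 < r1) (hr1r : r1 < r) (hrR : r < R)
    (hr2 : r ^ 2 ≤ Real.exp (-2)) (hh1 : 0 < h1) (hh1h : h1 < h) (hhH : h < H) (hh : h ≤ 1)
    (hT₁ : 0 < T₁) (hC₀ : 0 ≤ C₀) (hcut : Cut c r h r1 h1 K φ)
    (hout : ∀ t ∈ Ico T₁ T, ∀ x ∈ Out c r h r1 h1, BdA K (u t) x)
    (hcirc : ∀ t ∈ Ico T₁ T, ∀ x ∈ Co c r h, |circ (u t) x| ≤ C₀) :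
    ∃ C : ℝ, 0 ≤ C ∧ ∀ t ∈ Ico T₁ T, ∀ N : ℝ, 0 ≤ N →
      ∫ x in Co c r h, ww j l (WW (u t)) x ^ 2 ≤ N → ∃ D' : ℝ,
      HasDerivAt (fun s => (∫ x, φ x ^ 2 * JJ (u s) x ^ 2)
        + ∫ x, φ x ^ 2 * OO (u s) x ^ 2) D' t ∧
      D' ≤ -(GD (fun x => φ x * JJ (u t) x) + GD (fun x => φ x * OO (u t) x))
        + C * (1 + N ^ (2 * κ / (4 - 3 * κ)))
          * (1 + ((∫ x, φ x ^ 2 * JJ (u t) x ^ 2) + ∫ x, φ x ^ 2 * OO (u t) x ^ 2)) := by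
  have hr : 0 < r := hr1.trans hr1r
  obtain ⟨C₁, hC₁, hT1⟩ := T1S hAlg hHar hU j l (K := K) (c := c) (r := r) (h := h) (r1 := r1)
    (h1 := h1) (C₀ := C₀) (ε := 1 / 4) hκ hκ2 hK hr1 hr1r hr2 hh1 hh1h hh hC₀ (by norm_num)
  obtain ⟨C₂, hC₂, hT2⟩ := T2S hAlg hHar j l (K := K) (c := c) (r := r) (h := h) (r1 := r1)
    (h1 := h1) (ε := 1 / 4) hκ hκ2 hr1 hr1r hr2 (by norm_num)
  obtain ⟨Rm, hRm⟩ : ∃ Rm : ℝ, Rm = volume.real (Cy c r h) * (K ^ 2 * (12 * K ^ 2 + 4 * K)) :=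
    ⟨_, rfl⟩
  have hRm0 : 0 ≤ Rm := by rw [hRm]; positivity
  have hsub : Co c r h ⊆ Co c R H := co_mono hr hrR hhH
  refine ⟨C₁ + C₂ + 2 * Rm, by positivity, fun t ht N hN hw => ?_⟩
  have ht0 : t ∈ Ioo 0 T := ⟨hT₁.trans_le ht.1, ht.2⟩
  have hu := slice hsol.smooth_u ht0
  have hax := hsol.axi t ht0
  obtain ⟨⟨hUs, hWs, hJs, hOs⟩, -⟩ := hAlg (u t) hu hax
  obtain ⟨-, -, hJJ, hJO⟩ := hJnt T u hsol.smooth_u
  obtain ⟨-, hDJ⟩ := hDt T (fun t => JJ (u t)) φ hJJ hcut.sm hcut.cs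
  obtain ⟨-, hDO⟩ := hDt T (fun t => OO (u t)) φ hJO hcut.sm hcut.cs
  refine ⟨_, (hDJ t ht0).add (hDO t ht0), ?_⟩
  have hsupp : tsupport φ ⊆ Co c R H := hcut.supp.trans hsub
  have hcl : DFO (Co c r h) (u t) := fun x hx => hsol.divfree t ht0 x (hsub hx)
  have x1 := hT1 N (u t) φ hN hu hax hcl hcut (hout t ht) (hcirc t ht) hw
  have x2 := hT2 N (u t) φ hN hu hax hcut hw
  have d1 := en_gen hEn hsol.openO hcut.sm hcut.cs hsupp (f := fun s => JJ (u s)) (τ := t)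
    (v := u t) (S := SS (u t)) hu (hsol.divfree t ht0) hJs (SS_sm hUs hWs)
    (fun x hx hx0 => (hEqJ T E c R H u p hsol t ht0 x hx hx0).deriv)
  have hSO : ContDiff ℝ ∞ (fun x => -2 * WW (u t) x * JJ (u t) x) :=
    (contDiff_const.mul hWs).mul hJs
  have d2 := en_gen hEn hsol.openO hcut.sm hcut.cs hsupp (f := fun s => OO (u s)) (τ := t)
    (v := u t) (S := fun x => -2 * WW (u t) x * JJ (u t) x) hu (hsol.divfree t ht0) hOs hSO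
    (fun x hx hx0 => by
      rw [(hEqO T E c R H u p hsol t ht0 x hx hx0).deriv]
      ring)
  have r1' := rem_le (v := u t) (f := JJ (u t)) hcut hK hr
    (fun x hx => ⟨(hout t ht x hx).2.2.2.1, (hout t ht x hx).1⟩)
  have r2' := rem_le (v := u t) (f := OO (u t)) hcut hK hr
    (fun x hx => ⟨(hout t ht x hx).2.2.2.2.1, (hout t ht x hx).1⟩)
  rw [← hRm] at r1' r2'
  have hint : ∀ x, φ x ^ 2 * OO (u t) x * (-2 * WW (u t) x * JJ (u t) x) =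
      -2 * (φ x ^ 2 * OO (u t) x * (WW (u t) x * JJ (u t) x)) := fun x => by ring
  simp only [hint, integral_const_mul] at d2
  obtain ⟨A, hA⟩ : ∃ A : ℝ, A = GD (fun x => φ x * JJ (u t) x) := ⟨_, rfl⟩
  obtain ⟨B, hB⟩ : ∃ B : ℝ, B = GD (fun x => φ x * OO (u t) x) := ⟨_, rfl⟩
  obtain ⟨J2, hJ2⟩ : ∃ J2 : ℝ, J2 = ∫ x, φ x ^ 2 * JJ (u t) x ^ 2 := ⟨_, rfl⟩
  obtain ⟨O2, hO2⟩ : ∃ O2 : ℝ, O2 = ∫ x, φ x ^ 2 * OO (u t) x ^ 2 := ⟨_, rfl⟩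
  have hA0 : 0 ≤ A := by rw [hA]; exact GD_nn _
  have hB0 : 0 ≤ B := by rw [hB]; exact GD_nn _
  have hJ20 : 0 ≤ J2 := by rw [hJ2]; exact integral_nonneg fun x => by positivity
  have hO20 : 0 ≤ O2 := by rw [hO2]; exact integral_nonneg fun x => by positivity
  have y1 := le_abs_self (∫ x, φ x ^ 2 * JJ (u t) x * SS (u t) x)
  have y2 := neg_abs_le (∫ x, φ x ^ 2 * OO (u t) x * (WW (u t) x * JJ (u t) x))
  rw [← hA] at d1 x1 x2 ⊢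
  rw [← hB] at d2 x1 x2 ⊢
  rw [← hO2] at x1
  rw [← hJ2, ← hO2] at x2 ⊢
  obtain ⟨Z, hZ⟩ : ∃ Z : ℝ, Z = 1 + N ^ (2 * κ / (4 - 3 * κ)) := ⟨_, rfl⟩
  have hZ1 : 1 ≤ Z := by
    rw [hZ]
    have : 0 ≤ N ^ (2 * κ / (4 - 3 * κ)) := by positivity
    linarith
  have hZ0 : 0 ≤ Z := by linarith
  rw [← hZ] at x1 x2 ⊢
  have e1 : (C₁ + C₂ + 2 * Rm) * Z * (1 + (J2 + O2)) = C₁ * Z * (1 + O2) + C₂ * Z * (J2 + O2)
      + 2 * Rm * Z + (C₁ * Z * J2 + C₂ * Z + 2 * Rm * Z * (J2 + O2)) := by ring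
  have e2 : 0 ≤ C₁ * Z * J2 + C₂ * Z + 2 * Rm * Z * (J2 + O2) := by positivity
  have e3 : 2 * Rm ≤ 2 * Rm * Z := le_mul_of_one_le_right (by positivity) hZ1
  rw [e1]
  linarith

/-- The bounds. -/
theorem btS (hAlg : StmAlg) (hEqJ : StmEqJ) (hEqO : StmEqO) (hJnt : StmJnt) (hDt : StmDt)
    (hEn : Pool.Agent.Q67.AXI.StmEn) (hHar : StmHar) (hU : StmU) (hSm : StmSm) (j l : ℕ)
    {κ : ℝ} (hκ0 : 0 ≤ κ) (hκ : 1 < κ * (l + 1)) (hκ2 : κ < 4 / 3)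
    {T E c R H K r h r1 h1 T₁ C₀ K₂ d : ℝ} {u : ℝ → V → V} {p : ℝ → V → ℝ} {φ : V → ℝ}
    (hsol : AxL T E c R H u p) (hK : 0 ≤ K) (hr1 : 0 < r1) (hr1r : r1 < r) (hrR : r < R)
    (hr2 : r ^ 2 ≤ Real.exp (-2)) (hh1 : 0 < h1) (hh1h : h1 < h) (hhH : h < H) (hh : h ≤ 1)
    (hT₁ : 0 < T₁) (hT₁T : T₁ < T) (hC₀ : 0 ≤ C₀) (hK₂ : 0 ≤ K₂) (hd0 : 0 ≤ d)
    (hd : d * (2 * κ / (4 - 3 * κ)) < 1) (hcut : Cut c r h r1 h1 K φ)
    (hout : ∀ t ∈ Ico T₁ T, ∀ x ∈ Out c r h r1 h1, BdA K (u t) x)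
    (hcirc : ∀ t ∈ Ico T₁ T, ∀ x ∈ Co c r h, |circ (u t) x| ≤ C₀)
    (hw : ∀ t ∈ Ico T₁ T, ∫ x in Co c r h, ww j l (WW (u t)) x ^ 2 ≤ K₂ * (T - t) ^ (-d)) :
    ∃ K' : ℝ, 0 ≤ K' ∧ ∀ t ∈ Ico T₁ T, (∀ x ∈ Co c r h, |WW (u t) x| ≤ K') ∧
      (∫ x, φ x ^ 2 * OO (u t) x ^ 2) ≤ K' ∧
      GD (fun x => φ x * UU (u t) x) ≤ K' ∧ ∫ x, (φ x * UU (u t) x) ^ 2 ≤ K' := by
  have hr0 : 0 < r := hr1.trans hr1r
  have hT0 : 0 < T := hT₁.trans hT₁T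
  have hsub : Co c r h ⊆ Co c R H := co_mono hr0 hrR hhH
  have hsub1 : Cy c r1 h1 ⊆ Co c r h := fun x hx =>
    ⟨hx.1.trans_lt (by nlinarith), hx.2.trans_lt hh1h⟩
  have hI : ∀ t ∈ Ico T₁ T, t ∈ Ioo 0 T := fun t ht => ⟨hT₁.trans_le ht.1, ht.2⟩
  have hr1' : r ≤ 1 := by
    by_contra hcon
    push Not at hcon
    have : Real.exp (-2) < 1 := by
      rw [Real.exp_lt_one_iff]
      norm_num
    nlinarith
  obtain ⟨Cyd, hCyd, hyd⟩ := ydS hAlg hEqJ hEqO hJnt hDt hEn hHar hU j l hκ hκ2 hsol hK hr1 hr1r hrR hr2 hh1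
    hh1h hhH hh hT₁ hC₀ hcut hout hcirc
  obtain ⟨e, he⟩ : ∃ e : ℝ, e = 2 * κ / (4 - 3 * κ) := ⟨_, rfl⟩
  have he0 : 0 ≤ e := by
    rw [he]
    have : 0 < 4 - 3 * κ := by linarith
    positivity
  rw [← he] at hd hyd
  obtain ⟨θ, hθ⟩ : ∃ θ : ℝ, θ = d * e := ⟨_, rfl⟩
  have hθ0 : 0 ≤ θ := by rw [hθ]; positivity
  have hθ1 : θ < 1 := by rw [hθ]; exact hd
  obtain ⟨C, hCd⟩ : ∃ C : ℝ, C = Cyd * (T ^ θ + K₂ ^ e) := ⟨_, rfl⟩
  have hC : 0 ≤ C := by rw [hCd]; positivity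
  obtain ⟨-, jW, jJ, jO⟩ := hJnt T u hsol.smooth_u
  obtain ⟨GO, hGO⟩ : ∃ GO : ℝ → ℝ, GO = fun t => GD (fun x => φ x * OO (u t) x) := ⟨_, rfl⟩
  have hGOc : ContinuousOn GO (Ico T₁ T) := by
    rw [hGO]
    exact (hDt T (fun t => OO (u t)) φ jO hcut.sm hcut.cs).1.mono hI
  have hGO0 : ∀ t, 0 ≤ GO t := by
    intro t
    rw [hGO]
    exact GD_nn _
  have hYJ : ∀ t, 0 ≤ ∫ x, φ x ^ 2 * JJ (u t) x ^ 2 := fun t =>
    integral_nonneg fun x => mul_nonneg (sq_nonneg _) (sq_nonneg _)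
  have hYO : ∀ t, 0 ≤ ∫ x, φ x ^ 2 * OO (u t) x ^ 2 := fun t =>
    integral_nonneg fun x => mul_nonneg (sq_nonneg _) (sq_nonneg _)
  obtain ⟨Y, hY⟩ : ∃ Y : ℝ → ℝ, Y = fun s => (∫ x, φ x ^ 2 * JJ (u s) x ^ 2)
      + ∫ x, φ x ^ 2 * OO (u s) x ^ 2 := ⟨_, rfl⟩
  have hYnn : ∀ t, 0 ≤ Y t := by
    intro t
    rw [hY]
    exact add_nonneg (hYJ t) (hYO t)
  -- the bound of `UU`
  obtain ⟨C₁, hC₁, hU'⟩ := hU K c r h r1 h1 hK hr1 hr1r hr1' hh1 hh1h hh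
  have hUt : ∀ t ∈ Ico T₁ T, ∀ x ∈ Cy c r1 h1, |UU (u t) x| ≤ √(C₁ * (1 + GO t)) := by
    intro t ht x hx
    obtain ⟨-, -, u3, -⟩ := hU' (u t) φ (slice hsol.smooth_u (hI t ht)) (hsol.axi t (hI t ht))
      (fun x hx => hsol.divfree t (hI t ht) x (hsub hx)) hcut (hout t ht)
    have h3 := u3 x
    rw [hcut.one x hx, one_mul] at h3
    apply Real.abs_le_sqrt at h3
    rw [hGO]
    exact h3
  -- smoothing
  obtain ⟨C₃, hC₃, hsm⟩ := hSm T E c R H r1 h1 T₁ K C₀ u p hsol hr1 (hr1r.trans hrR) hh1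
    (hh1h.trans hhH) hT₁ hT₁T (by
      intro t ht x hx
      refine ⟨hcirc t ht x (hsub1 hx), fun hbd => ?_⟩
      have hxo : x ∈ Out c r h r1 h1 := by
        refine ⟨⟨(hsub1 hx).1.le, (hsub1 hx).2.le⟩, ?_⟩
        rcases hbd with hbd | hbd
        · exact Or.inl hbd.ge
        · exact Or.inr hbd.ge
      exact (hout t ht x hxo).2.2.1)
  -- the constants
  obtain ⟨L, hL⟩ : ∃ L : ℝ, L = Real.exp (C / (1 - θ) * (T - T₁) ^ (1 - θ)) := ⟨_, rfl⟩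
  have hL0 : 0 < L := by rw [hL]; exact Real.exp_pos _
  obtain ⟨A₁, hA₁⟩ : ∃ A₁ : ℝ, A₁ = L * (Y T₁ + 1) := ⟨_, rfl⟩
  have hA₁0 : 0 ≤ A₁ := by
    rw [hA₁]
    have := hYnn T₁
    positivity
  have hder : ∀ t ∈ Ico T₁ T, ∃ D' : ℝ, HasDerivAt Y D' t ∧
      D' ≤ -(GO t) + C * (T - t) ^ (-θ) * (Y t + 1) + 0 := by
    intro t ht
    have htp : 0 < T - t := by linarith [ht.2]
    obtain ⟨D', hD1, hD2⟩ := hyd t ht (K₂ * (T - t) ^ (-d)) (by positivity) (hw t ht)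
    refine ⟨D', by rw [hY]; exact hD1, hD2.trans ?_⟩
    have g2 := GD_nn (fun x => φ x * JJ (u t) x)
    have g3 : 1 + (K₂ * (T - t) ^ (-d)) ^ e ≤ (T ^ θ + K₂ ^ e) * (T - t) ^ (-θ) := by
      have g4 : (K₂ * (T - t) ^ (-d)) ^ e = K₂ ^ e * (T - t) ^ (-θ) := by
        rw [Real.mul_rpow hK₂ (by positivity), ← Real.rpow_mul htp.le, hθ]
        congr 2
        ring
      have g5 : T ^ (-θ) ≤ (T - t) ^ (-θ) :=
        Real.rpow_le_rpow_of_nonpos htp (by linarith [(hI t ht).1]) (by linarith)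
      have g6 : T ^ θ * T ^ (-θ) = 1 := by
        rw [← Real.rpow_add hT0]
        simp
      have g7 := mul_le_mul_of_nonneg_left g5 (show 0 ≤ T ^ θ by positivity)
      rw [g4, add_mul]
      linarith
    have g8 : Cyd * (1 + (K₂ * (T - t) ^ (-d)) ^ e) * (1 + Y t) ≤
        C * (T - t) ^ (-θ) * (Y t + 1) := by
      have g9 := mul_le_mul_of_nonneg_left g3 hCyd
      have g10 := mul_le_mul_of_nonneg_right g9 (show 0 ≤ 1 + Y t by linarith [hYnn t])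
      rw [hCd]
      linarith
    rw [hY] at g8 ⊢
    rw [hGO]
    simp only at g8 ⊢
    linarith
  choose! D' hD1 hD2 using hder
  have hmain : ∀ t' ∈ Ico T₁ T, Y t' + 1 + ∫ s in T₁..t', GO s ≤ A₁ := by
    intro t' ht'
    have hIc : ∀ t ∈ Icc T₁ t', t ∈ Ico T₁ T := fun t ht => ⟨ht.1, ht.2.trans_lt ht'.2⟩
    have hGOi : IntegrableOn GO (Icc T₁ t') :=
      (hGOc.mono hIc).integrableOn_compact isCompact_Icc
    have := gronE (T := T) (T₁ := T₁) (t' := t') (θ := θ) (C := C) (Y := fun t => Y t + 1)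
      (D' := D') (G := GO) (k := fun _ => 0)
      hθ1 hC ht'.2 (fun t _ => by linarith [hYnn t]) ht'.1
      (fun t ht => (hD1 t (hIc t ht)).add_const 1) (fun t ht => hD2 t (hIc t ht))
      (fun t _ => hGO0 t) (fun t _ => le_rfl) hGOi (by simp)
    rw [← hL, intervalIntegral.integral_zero, add_zero, ← hA₁] at this
    exact this
  have hGOb : ∀ t' ∈ Ico T₁ T, ∫ s in T₁..t', GO s ≤ A₁ := fun t' ht' => by
    have := hmain t' ht'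
    have := hYnn t'
    linarith
  have hYb : ∀ t' ∈ Ico T₁ T, Y t' ≤ A₁ := fun t' ht' => by
    have := hmain t' ht'
    have h5 : 0 ≤ ∫ s in T₁..t', GO s := intervalIntegral.integral_nonneg ht'.1 fun s _ => hGO0 s
    linarith
  -- the bound of `WW`
  obtain ⟨g, hg⟩ : ∃ g : ℝ → ℝ, g = fun t => √(C₁ * (1 + GO t)) := ⟨_, rfl⟩
  have hgc : ContinuousOn g (Ico T₁ T) := by
    rw [hg]
    exact (continuousOn_const.mul (continuousOn_const.add hGOc)).sqrt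
  have hg2 : ∀ t, g t ^ 2 = C₁ * (1 + GO t) := by
    intro t
    rw [hg]
    exact Real.sq_sqrt (mul_nonneg hC₁ (by linarith [hGO0 t]))
  obtain ⟨N, hN⟩ : ∃ N : ℝ, N = C₁ * (T + A₁) := ⟨_, rfl⟩
  have hN0 : 0 ≤ N := by rw [hN]; positivity
  have hN1 : 0 < N + 1 := by linarith
  have hWb : ∀ t' ∈ Ico T₁ T, ∀ x ∈ Cy c r1 h1, |WW (u t') x| ≤ C₃ * (N + 1) := by
    intro t' ht' x hx
    have hIc : ∀ t ∈ Icc T₁ t', t ∈ Ico T₁ T := fun t ht => ⟨ht.1, ht.2.trans_lt ht'.2⟩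
    have hGOi : IntegrableOn GO (Icc T₁ t') :=
      (hGOc.mono hIc).integrableOn_compact isCompact_Icc
    have hGOii : IntervalIntegrable GO volume T₁ t' :=
      (intervalIntegrable_iff_integrableOn_Icc_of_le ht'.1).2 hGOi
    have hgN : ∫ s in T₁..t', g s ^ 2 ≤ N := by
      simp only [hg2]
      rw [intervalIntegral.integral_const_mul, intervalIntegral.integral_add (by simp) hGOii,
        intervalIntegral.integral_const, smul_eq_mul, mul_one, hN]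
      apply mul_le_mul_of_nonneg_left _ hC₁
      have := hGOb t' ht'
      linarith [ht'.2]
    have hwin := windowE hN0 ht'.1 (hgc.mono hIc) hgN
    have h2 := hsm (1 / (N + 1)) ⟨by positivity, by
      rw [div_le_one hN1]
      linarith⟩ t' ht' g (hgc.mono hIc) (fun s hs y hy => by
        rw [hg]
        exact hUt s (hIc s hs) y hy) hwin x hx
    rwa [div_div_eq_mul_div, div_one] at h2
  refine ⟨C₃ * (N + 1) + K + A₁ + C₁ * (1 + A₁), by positivity, fun t ht => ?_⟩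
  obtain ⟨-, u2, -, u4⟩ := hU' (u t) φ (slice hsol.smooth_u (hI t ht)) (hsol.axi t (hI t ht))
    (fun x hx => hsol.divfree t (hI t ht) x (hsub hx)) hcut (hout t ht)
  have hO : ∫ x, φ x ^ 2 * OO (u t) x ^ 2 ≤ A₁ := by
    have h4 := hYb t ht
    rw [hY] at h4
    simp only at h4
    have := hYJ t
    linarith
  have h7 : C₁ * (1 + ∫ x, φ x ^ 2 * OO (u t) x ^ 2) ≤ C₁ * (1 + A₁) :=
    mul_le_mul_of_nonneg_left (by linarith) hC₁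
  have h8 : 0 ≤ C₁ * (1 + A₁) := by positivity
  have h9 : 0 ≤ C₃ * (N + 1) := by positivity
  refine ⟨fun x hx => ?_, by linarith, by linarith, by linarith⟩
  by_cases hxi : x ∈ Cy c r1 h1
  · have := hWb t ht x hxi
    linarith
  · have hxo : x ∈ Out c r h r1 h1 := by
      refine ⟨⟨hx.1.le, hx.2.le⟩, ?_⟩
      by_contra hcon
      push Not at hcon
      exact hxi ⟨hcon.1.le, hcon.2.le⟩
    have := (hout t ht x hxo).2.2.1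
    linarith

end Pool.Agent.V8H53.AX
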