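import Pool.Agent.V8H53.AX.MainS
import Pool.Agent.V8Lead.AxWhole

/-!
All viscosities, the whole space.
-/

set_option autoImplicit false

open MeasureTheory Set Metric Filter Topology
open scoped ContDiff ENNReal
open H459R3.NS Pool.Agent.W268.NS Pool.Agent.Q67.VD

namespace Pool.Agent.V8H53.AX

open Pool.Agent.Q85.CC Pool.Agent.Q85.CL Pool.Agent.TH305.AX Pool.Agent.Q67.AXI
open Pool.Agent.V8Lead

/-- The statement of `mainS`. -/
def StmMainS : Prop := ∀ (l : ℕ) (T E c R H T₀ δ c₁ β M : ℝ) (u : ℝ → V → V) (p : ℝ → V → ℝ)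
  (A : ℝ → ℝ), 0 < R → 0 < H → AxL T E c R H u p → 0 ≤ T₀ → T₀ < T → 0 < δ →
  0 ≤ c₁ → 8 * (l + 1) * c₁ < 4 * l + 1 → 0 < β → 0 ≤ M → IntegrableOn A (Ioo T₀ T) →
  (∀ᵐ t : ℝ, t ∈ Ioo T₀ T → Form 1 l δ β M (c₁ / (T - t) + A t) (Co c R H) (u t)) →
    Rg T u ![0, 0, c]

theorem p_MainS : StmMainS := fun l _ _ _ _ _ _ _ _ _ _ _ _ _ hR hH hsol hT₀0 hT₀ hδ hc₁ hlc
    hβ hM hA hcond =>
  mainS p_Gd p_Bar p_Cut p_Alg p_EqW p_EqJ p_EqO p_Jnt p_Dt p_En p_Har p_U p_Sm p_Fin p_Mo p_Reg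
    l hR hH hsol hT₀0 hT₀ hδ hc₁ hlc hβ hM hA hcond

lemma ae_scale {ν : ℝ} (hν : 0 < ν) {P : ℝ → Prop} (h : ∀ᵐ t : ℝ, P t) :
    ∀ᵐ s : ℝ, P (s / ν) := by
  rw [ae_iff] at h ⊢
  have e : {s : ℝ | ¬P (s / ν)} = (fun s => ν⁻¹ * s) ⁻¹' {t | ¬P t} := by
    ext s
    simp only [Set.mem_ofPred_eq, mem_preimage]
    rw [div_eq_inv_mul]
  rw [e, Real.volume_preimage_mul_left (inv_ne_zero hν.ne'), h, mul_zero]

/-- the form inequality for the scaled field -/
lemma form_scale {ν δ β M A : ℝ} {l : ℕ} {O O' : Set V} {v w : V → V} (hν : 0 < ν) (hβ : 0 < β)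
    (hv : Continuous v) (hw : Continuous w) (hO : O' ⊆ O) (hvw : ∀ x ∈ O', w x = ν⁻¹ • v x)
    (h : Form ν l δ β M A O v) : Form 1 l δ β (ν⁻¹ * M) (ν⁻¹ * A) O' w := by
  intro g sg' cg ag tg zg
  have h1 := h g sg' cg ag (tg.trans hO) zg
  have hνi : 0 < ν⁻¹ := inv_pos.2 hν
  have e1 : ∫ x in Rgs β (ν⁻¹ * M) w, rad w x / sg x * g x ^ 2 =
      ν⁻¹ * ∫ x in Rgs β M v, rad v x / sg x * g x ^ 2 := by
    rw [← integral_indicator (rgs_meas hβ hw), ← integral_indicator (rgs_meas hβ hv),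
      ← integral_const_mul]
    refine integral_congr_ae (Eventually.of_forall fun x => ?_)
    beta_reduce
    by_cases hx : x ∈ tsupport g
    · have hxO := tg hx
      have h2 := hvw x hxO
      have hiff : x ∈ Rgs β (ν⁻¹ * M) w ↔ x ∈ Rgs β M v := by
        refine or_congr ?_ ?_
        · show 0 < rad w x ↔ 0 < rad v x
          rw [rad_cm h2]
          exact mul_pos_iff_of_pos_left hνi
        · show ν⁻¹ * M * sg x ^ (β / 2) < |circ w x| ↔ M * sg x ^ (β / 2) < |circ v x|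
          rw [circ_cm h2, abs_mul, abs_of_pos hνi, mul_assoc]
          exact mul_lt_mul_iff_right₀ hνi
      by_cases hR : x ∈ Rgs β M v
      · rw [indicator_of_mem (hiff.2 hR), indicator_of_mem hR, rad_cm h2]
        ring
      · rw [indicator_of_notMem fun hh => hR (hiff.1 hh), indicator_of_notMem hR, mul_zero]
    · have g0 : g x = 0 := image_eq_zero_of_notMem_tsupport hx
      have a1 : ∀ (S : Set V) (F : V → ℝ), S.indicator (fun x => F x * g x ^ 2) x = 0 := by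
        intro S F
        by_cases hS : x ∈ S
        · rw [indicator_of_mem hS, g0]
          ring
        · rw [indicator_of_notMem hS]
      rw [a1, a1, mul_zero]
  rw [e1]
  have h3 := mul_le_mul_of_nonneg_left h1 hνi.le
  have e2 : ν⁻¹ * ((1 - δ) * ν * (∫ x, (gr2 g x / ((l : ℝ) + 1) + 2 * g x ^ 2 / sg x))
      + A * ∫ x, g x ^ 2) = (1 - δ) * 1 * (∫ x, (gr2 g x / ((l : ℝ) + 1) + 2 * g x ^ 2 / sg x))
      + ν⁻¹ * A * ∫ x, g x ^ 2 := by
    field_simp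
  rw [e2] at h3
  linarith

/-- The condition at a singular point. -/
def InflS (ν T : ℝ) (u : ℝ → V → V) (a : V) : Prop :=
  ∀ (l : ℕ) (A : ℝ → ℝ) (δ c₁ β M T₀ R : ℝ), 0 < δ → 0 ≤ c₁ → 8 * (l + 1) * c₁ < 4 * l + 1 →
    0 < β → 0 ≤ M → 0 ≤ T₀ → T₀ < T → 0 < R → IntegrableOn A (Ioo T₀ T) →
      0 < volume {t : ℝ | t ∈ Ioo T₀ T ∧
        ¬Form ν l δ β M (c₁ / (T - t) + A t) (closedBall a R) (u t)}

/-- The local theorem, all viscosities. -/
theorem infl_DS (hMain : StmMainS) (hTr : StmTra) {ν T E : ℝ} {Ω : Set V} {u : ℝ → V → V}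
    {p : ℝ → V → ℝ} (hν : 0 < ν) (h : DSl ν T E Ω u p) (hcu : ∀ t ∈ Ioo 0 T, Continuous (u t))
    (hax : ∀ t ∈ Ioo 0 T, ∀ (θ : ℝ), ∀ x ∈ Ω, rot θ x ∈ Ω → u t (rot θ x) = rot θ (u t x))
    {a : V} (ha : a ∈ Ω) (ha0 : a 0 = 0) (ha1 : a 1 = 0) (hs : Sing T u a) : InflS ν T u a := by
  have hT := hs.pos
  have hae : a = ![0, 0, a 2] := by
    funext i
    fin_cases i
    · exact ha0
    · exact ha1
    · rfl
  intro l A δ c₁ β M T₀ R hδ hc₁ hlc hβ hM hT₀0 hT₀ hR hA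
  by_contra hcon
  have hv0 := nonpos_iff_eq_zero.1 (not_lt.1 hcon)
  have hz2 : ∀ᵐ t : ℝ, ¬(t ∈ Ioo T₀ T ∧
        ¬Form ν l δ β M (c₁ / (T - t) + A t) (closedBall a R) (u t)) := by
    rw [ae_iff]
    simp only [not_not]
    exact hv0
  obtain ⟨R', hR', hRR, hsub⟩ := small_ball h.openO ha hR
  rw [hae] at hsub
  obtain ⟨E', v, pr, hL, hv⟩ := hTr ν T E Ω u p hν hT h hax (a 2) R' hR' hsub
  have hR2 : 0 < R' / 2 := by positivity
  have hνi : 0 < ν⁻¹ := inv_pos.2 hν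
  have hmt2 : ∀ s : ℝ, s ∈ Ioo (ν * T₀) (ν * T) ↔ s / ν ∈ Ioo T₀ T := fun s => by
    rw [mem_Ioo, mem_Ioo, lt_div_iff₀ hν, div_lt_iff₀ hν, mul_comm ν T₀, mul_comm ν T]
  have hBi' : IntegrableOn (fun s => ν⁻¹ * A (s / ν)) (Ioo (ν * T₀) (ν * T)) := by
    have h1 : Integrable ((Ioo T₀ T).indicator A) :=
      (integrable_indicator_iff measurableSet_Ioo).2 hA
    have h2 := (h1.comp_div hν.ne').const_mul ν⁻¹
    rw [← integrable_indicator_iff measurableSet_Ioo]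
    refine h2.congr (Eventually.of_forall fun s => ?_)
    by_cases hs : s ∈ Ioo (ν * T₀) (ν * T)
    · simp only [indicator_of_mem hs, indicator_of_mem ((hmt2 s).1 hs)]
    · simp only [indicator_of_notMem hs, indicator_of_notMem fun h => hs ((hmt2 s).2 h), mul_zero]
  have hCoB : Co (a 2) (R' / 2) (R' / 2) ⊆ closedBall a R := by
    intro x hx
    rw [mem_closedBall, dist_eq_norm, hae]
    refine (norm_Co hR2.le hx).trans ?_
    rw [max_self]
    linarith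
  have hreg := hMain l (ν * T) E' (a 2) (R' / 2) (R' / 2) (ν * T₀) δ c₁ β (ν⁻¹ * M) v pr
    (fun s => ν⁻¹ * A (s / ν)) hR2 hR2 hL (by positivity)
    (mul_lt_mul_of_pos_left hT₀ hν) hδ hc₁ hlc hβ (by positivity) hBi' (by
      filter_upwards [ae_scale hν hz2] with s hs hsI
      have htI := (hmt2 s).1 hsI
      have ht : s / ν ∈ Ioo 0 T := ⟨hT₀0.trans_lt htI.1, htI.2⟩
      have htν : ν * (s / ν) = s := by field_simp
      have hsI0 : s ∈ Ioo 0 (ν * T) :=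
        ⟨lt_of_le_of_lt (by positivity) hsI.1, hsI.2⟩
      have hf : Form ν l δ β M (c₁ / (T - s / ν) + A (s / ν)) (closedBall a R) (u (s / ν)) := by
        by_contra hn
        exact hs ⟨htI, hn⟩
      have h2 := form_scale hν hβ (hcu _ ht)
        (Pool.Agent.Q285.AXI.slice hL.smooth_u hsI0).continuous hCoB (fun x hx => by
          have := hv _ ht x hx
          rwa [htν] at this) hf
      have hTt : ν * T - s = ν * (T - s / ν) := by
        rw [mul_sub, htν]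
      have hTt0 : 0 < T - s / ν := sub_pos.2 ht.2
      have e5 : ν⁻¹ * (c₁ / (T - s / ν) + A (s / ν)) =
          c₁ / (ν * T - s) + ν⁻¹ * A (s / ν) := by
        rw [hTt]
        field_simp
      rw [e5] at h2
      exact h2)
  have hb := backA hν hv (mem_Co_self hR2 hR2) hreg
  rw [← hae] at hb
  exact hs.not_bdd hb

end Pool.Agent.V8H53.AX
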