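import Pool.Agent.V8H53.AX.Pot
import Pool.Agent.V8H53.AX.Tra

/-!
From the form inequality to weighted Lebesgue norms.
-/

set_option autoImplicit false

open MeasureTheory Set Metric Filter Topology
open scoped ContDiff ENNReal
open H459R3.NS Pool.Agent.W268.NS Pool.Agent.Q67.VD

namespace Pool.Agent.V8H53.AX

open Pool.Agent.Q85.CC Pool.Agent.Q85.CL Pool.Agent.TH305.AX Pool.Agent.Q67.AXI
open Pool.Agent.Q149.AXI (gr2_nonneg sg_cont)
open Pool.Agent.V8Lead (p_Alg)

/-- a function vanishing on the axis -/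
lemma ax_lip {g : V → ℝ} (hg : ContDiff ℝ ∞ g) (hc : HasCompactSupport g)
    (h0 : ∀ x, sg x = 0 → g x = 0) : ∃ L : ℝ, 0 ≤ L ∧ ∀ x, g x ^ 2 ≤ L * sg x := by
  obtain ⟨C, hC⟩ := hg.lipschitzWith_of_hasCompactSupport hc (by simp)
  refine ⟨(C : ℝ) ^ 2, by positivity, fun x => ?_⟩
  have h1 := hC.dist_le_mul x ![0, 0, x 2]
  have h2 : g ![0, 0, x 2] = 0 := h0 _ (by simp [sg])
  rw [h2, Real.dist_eq, sub_zero] at h1
  have h3 : dist x ![0, 0, x 2] ≤ √(sg x) := by
    rw [dist_pi_le_iff (Real.sqrt_nonneg _)]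
    intro i
    fin_cases i
    · show dist (x 0) 0 ≤ _
      rw [Real.dist_eq, sub_zero]
      apply Real.abs_le_sqrt
      unfold sg
      nlinarith [sq_nonneg (x 1)]
    · show dist (x 1) 0 ≤ _
      rw [Real.dist_eq, sub_zero]
      apply Real.abs_le_sqrt
      unfold sg
      nlinarith [sq_nonneg (x 0)]
    · show dist (x 2) (x 2) ≤ _
      rw [dist_self]
      exact Real.sqrt_nonneg _
  have h4 : |g x| ≤ C * √(sg x) := h1.trans (mul_le_mul_of_nonneg_left h3 C.2)
  have h5 := pow_le_pow_left₀ (abs_nonneg _) h4 2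
  rw [sq_abs, mul_pow, Real.sq_sqrt (sg_nonneg x)] at h5
  exact h5

lemma int_div {g : V → ℝ} (hg : ContDiff ℝ ∞ g) (hc : HasCompactSupport g)
    (h0 : ∀ x, sg x = 0 → g x = 0) : Integrable (fun x => g x ^ 2 / sg x) := by
  obtain ⟨L, hL, h⟩ := ax_lip hg hc h0
  have h1 : Integrable ((tsupport g).indicator (fun _ : V => L)) :=
    (integrableOn_const hc.measure_lt_top.ne).integrable_indicator (isClosed_tsupport g).measurableSet
  refine h1.mono ((hg.continuous.measurable.pow_const 2).div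
    sg_cont.measurable).aestronglyMeasurable (Eventually.of_forall fun x => ?_)
  by_cases hx : x ∈ tsupport g
  · rw [indicator_of_mem hx, Real.norm_of_nonneg hL, Real.norm_of_nonneg
      (div_nonneg (sq_nonneg _) (sg_nonneg x))]
    rcases eq_or_lt_of_le (sg_nonneg x) with h2 | h2
    · rw [← h2]
      simpa using hL
    · rw [div_le_iff₀ h2]
      exact h x
  · rw [image_eq_zero_of_notMem_tsupport hx]
    simp

/-- from the excess of the inflow to the form inequality -/
theorem form_of {ν δ β M b A₂ : ℝ} {l : ℕ} {O : Set V} {v : V → V} {F : V → ℝ} (hν : 0 < ν)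
    (hβ : 0 < β) (hb : 0 ≤ b) (hA₂ : 0 ≤ A₂) (hδ : δ ≤ 1) (hv : ContDiff ℝ ∞ v) (hax : Axi v)
    (hF0 : ∀ x, 0 ≤ F x) (hFm : Measurable F)
    (hF : ∀ x ∈ O ∩ Rgn β M v, sg x ≠ 0 → -(rad v x) / sg x ≤ 2 * (1 - δ) * ν / sg x + b + F x)
    (hFi : ∀ g : V → ℝ, ContDiff ℝ ∞ g → HasCompactSupport g →
      ∫⁻ x, ENNReal.ofReal (F x * g x ^ 2) ≤
        ENNReal.ofReal ((1 - δ) * ν / (l + 1) * GD g + A₂ * ∫ x, g x ^ 2)) :
    Form ν l δ β M (b + A₂) O v := by
  intro g sg' cg ag tg zg
  obtain ⟨⟨sU, -, -, -⟩, -, -, halg⟩ := p_Alg v hv hax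
  have hrad : ∀ x, rad v x = sg x * UU v x := fun x => (halg x).2.2.2.2.2.2.2.2.2.1
  have hRm : MeasurableSet (Rgs β M v) := rgs_meas hβ hv.continuous
  have h1δ : 0 ≤ (1 - δ) * ν := mul_nonneg (by linarith) hν.le
  have iU : Integrable (fun x => UU v x * g x ^ 2) := by
    refine (sU.continuous.mul (sg'.continuous.pow 2)).integrable_of_hasCompactSupport ?_
    refine HasCompactSupport.intro cg.isCompact fun x hx => ?_
    show UU v x * g x ^ 2 = 0
    rw [image_eq_zero_of_notMem_tsupport hx]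
    ring
  have iR : Integrable ((Rgs β M v).indicator (fun x => UU v x * g x ^ 2)) := iU.indicator hRm
  have e1 : -(∫ x in Rgs β M v, rad v x / sg x * g x ^ 2) =
      ∫ x, -((Rgs β M v).indicator (fun x => UU v x * g x ^ 2) x) := by
    rw [integral_neg, ← integral_indicator hRm]
    congr 1
    refine integral_congr_ae ?_
    filter_upwards [Pool.Agent.Q111.AXI.ae_sg] with x hx
    by_cases hxR : x ∈ Rgs β M v
    · rw [indicator_of_mem hxR, indicator_of_mem hxR, hrad]
      field_simp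
    · rw [indicator_of_notMem hxR, indicator_of_notMem hxR]
  have iA : Integrable (fun x => g x ^ 2) := by
    refine (sg'.continuous.pow 2).integrable_of_hasCompactSupport ?_
    refine HasCompactSupport.intro cg.isCompact fun x hx => ?_
    show g x ^ 2 = 0
    rw [image_eq_zero_of_notMem_tsupport hx]
    norm_num
  have iD := int_div sg' cg zg
  have iG : Integrable (gr2 g) :=
    (gr2_smooth sg').continuous.integrable_of_hasCompactSupport
      (Pool.Agent.Q149.AXI.cs_gr2 cg)
  have hFg := hFi g sg' cg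
  have nF : ∀ x, 0 ≤ F x * g x ^ 2 := fun x => mul_nonneg (hF0 x) (sq_nonneg _)
  have iF : Integrable (fun x => F x * g x ^ 2) := by
    refine ⟨(hFm.mul (sg'.continuous.measurable.pow_const 2)).aestronglyMeasurable, ?_⟩
    rw [hasFiniteIntegral_iff_ofReal (Eventually.of_forall nF)]
    exact hFg.trans_lt ENNReal.ofReal_lt_top
  rw [← ofReal_integral_eq_lintegral_ofReal iF (Eventually.of_forall nF)] at hFg
  obtain ⟨Gd, hGd⟩ : ∃ Gd : ℝ, Gd = GD g := ⟨_, rfl⟩
  have hGd0 : 0 ≤ Gd := by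
    rw [hGd]
    exact integral_nonneg fun x => gr2_nonneg _ x
  have hA0 : 0 ≤ ∫ x, g x ^ 2 := integral_nonneg fun x => sq_nonneg _
  have hI0 : 0 ≤ ∫ x, F x * g x ^ 2 := integral_nonneg nF
  rw [← hGd] at hFg
  -- the right side may be taken non-negative
  have hle : -(∫ x in Rgs β M v, rad v x / sg x * g x ^ 2) ≤
      2 * (1 - δ) * ν * (∫ x, g x ^ 2 / sg x) + b * (∫ x, g x ^ 2) + ∫ x, F x * g x ^ 2 := by
    rw [e1, ← integral_const_mul, ← integral_const_mul]
    have j1 := (iD.const_mul (2 * (1 - δ) * ν)).add (iA.const_mul b)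
    have s1 := integral_add (iD.const_mul (2 * (1 - δ) * ν)) (iA.const_mul b)
    have s2 := integral_add j1 iF
    simp only [Pi.add_apply] at s2
    rw [← s1, ← s2]
    refine integral_mono_ae iR.neg (j1.add iF) ?_
    filter_upwards [Pool.Agent.Q111.AXI.ae_sg] with x hx
    have hs : 0 < sg x := lt_of_le_of_ne (sg_nonneg x) (Ne.symm hx)
    have n1 : 0 ≤ 2 * (1 - δ) * ν * (g x ^ 2 / sg x) := by
      have : 0 ≤ g x ^ 2 / sg x := by positivity
      nlinarith
    have n2 : 0 ≤ b * g x ^ 2 := by positivity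
    have n3 := nF x
    by_cases hxR : x ∈ Rgs β M v
    · rw [indicator_of_mem hxR]
      by_cases hxg : x ∈ tsupport g
      · have h2 : -(rad v x) / sg x ≤ 2 * (1 - δ) * ν / sg x + b + F x := by
          rcases hxR with hxR | hxR
          · have p1 : -(rad v x) / sg x ≤ 0 := by
              have : 0 ≤ rad v x / sg x := div_nonneg (le_of_lt hxR) hs.le
              rw [neg_div]
              linarith
            have p2 : 0 ≤ 2 * (1 - δ) * ν / sg x := div_nonneg (by linarith) hs.le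
            have p3 := hF0 x
            linarith
          · exact hF x ⟨tg hxg, hxR⟩ hx
        have h3 : -(rad v x) / sg x = -(UU v x) := by
          rw [hrad]
          field_simp
        rw [h3] at h2
        have h4 := mul_le_mul_of_nonneg_right h2 (sq_nonneg (g x))
        have h5 : (2 * (1 - δ) * ν / sg x + b + F x) * g x ^ 2 =
            2 * (1 - δ) * ν * (g x ^ 2 / sg x) + b * g x ^ 2 + F x * g x ^ 2 := by ring
        rw [h5] at h4
        linarith
      · rw [image_eq_zero_of_notMem_tsupport hxg]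
        simp
    · rw [indicator_of_notMem hxR]
      linarith
  refine hle.trans ?_
  have e2 : ∫ x, (gr2 g x / ((l : ℝ) + 1) + 2 * g x ^ 2 / sg x) =
      Gd / (l + 1) + 2 * ∫ x, g x ^ 2 / sg x := by
    have e3 : ∫ x, (gr2 g x / ((l : ℝ) + 1) + 2 * g x ^ 2 / sg x) =
        ∫ x, (gr2 g x / ((l : ℝ) + 1) + 2 * (g x ^ 2 / sg x)) :=
      integral_congr_ae (Eventually.of_forall fun x => by beta_reduce; ring)
    rw [e3, integral_add (iG.div_const _) (iD.const_mul 2), integral_const_mul,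
      integral_div, hGd]
    rfl
  rw [e2]
  have hfin : ∫ x, F x * g x ^ 2 ≤ (1 - δ) * ν / (l + 1) * Gd + A₂ * ∫ x, g x ^ 2 := by
    exact (ENNReal.ofReal_le_ofReal_iff (by positivity)).1 hFg
  have e4 : (1 - δ) * ν * (Gd / (l + 1) + 2 * ∫ x, g x ^ 2 / sg x)
      + (b + A₂) * ∫ x, g x ^ 2 = 2 * (1 - δ) * ν * (∫ x, g x ^ 2 / sg x)
      + b * (∫ x, g x ^ 2) + ((1 - δ) * ν / (l + 1) * Gd + A₂ * ∫ x, g x ^ 2) := by ring
  rw [e4]
  linarith

end Pool.Agent.V8H53.AX
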