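import Pool.Agent.V8H53.AX.Star
import Pool.Agent.Q95.AXP.Yd
import Pool.Agent.Q285.AXI.Yi
import Pool.Agent.Q151.AXI.Main

/-!
The energy inequality for `w = ρ ^ (2 m) W ^ k`.
-/

set_option autoImplicit false

open MeasureTheory Set Metric Filter Topology
open scoped ContDiff
open H459R3.NS Pool.Agent.W268.NS Pool.Agent.Q67.VD

namespace Pool.Agent.V8H53.AX

open Pool.Agent.Q85.CC Pool.Agent.Q85.CL Pool.Agent.TH305.AX Pool.Agent.Q67.AXI
open Pool.Agent.W583.MD (sm_pd pd_mul')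
open Pool.Agent.Q95.AXP (en_gen rem_le SS_sm RR_sm cy_compact)
open Pool.Agent.Q285.AXI (slice co_mono gsq_nn)
open Pool.Agent.Q151.AXI (cut_mono)
open Pool.Agent.Q149.AXI (pd_off gr2_nonneg)

lemma gr2_smooth {f : V → ℝ} (hf : ContDiff ℝ ∞ f) : ContDiff ℝ ∞ (gr2 f) := by
  have h := fun i => sm_pd hf i
  unfold gr2
  exact ContDiff.sum fun i _ => (h i).pow 2

lemma DD_sm {W : V → ℝ} (hW : ContDiff ℝ ∞ W) (j l : ℕ) : ContDiff ℝ ∞ (DD j l W) := by
  have h1 := gr2_smooth hW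
  have h2 := RR_sm hW
  have h3 : ContDiff ℝ ∞ sg := Pool.Agent.Q150.AXI.sm_sg
  unfold DD
  exact ((h3.pow _).mul (hW.pow _)).mul (((contDiff_const.mul (h3.mul h1)).add
    (contDiff_const.mul (hW.pow 2))).add (contDiff_const.mul (hW.mul h2)))

/-- the Dirichlet integral of a product with a cut-off function -/
lemma GD_cut {c r h r1 h1 K K' η : ℝ} {φ f : V → ℝ} (hcut : Cut c r h r1 h1 K φ)
    (hr : 0 < r) (hη : 0 < η) (hf : ContDiff ℝ ∞ f)
    (hb : ∀ x ∈ Out c r h r1 h1, |f x| ≤ K') :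
    GD (fun x => φ x * f x) ≤ (1 + η) * (∫ x, φ x ^ 2 * gr2 f x)
      + (1 + 1 / η) * (volume.real (Cy c r h) * (3 * K ^ 2 * K' ^ 2)) := by
  have hc := cy_compact c (r := r) (h := h) hr
  have hm : MeasurableSet (Cy c r h) := hc.isClosed.measurableSet
  have hfin : volume (Cy c r h) ≠ ⊤ := hc.measure_lt_top.ne
  have i1 : Integrable (fun x => φ x ^ 2 * gr2 f x) := by
    refine ((hcut.sm.continuous.pow 2).mul
      (gr2_smooth hf).continuous).integrable_of_hasCompactSupport ?_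
    refine HasCompactSupport.intro hcut.cs.isCompact fun x hx => ?_
    show φ x ^ 2 * gr2 f x = 0
    rw [image_eq_zero_of_notMem_tsupport hx]
    norm_num
  have i2 : Integrable ((Cy c r h).indicator (fun _ : V => 3 * K ^ 2 * K' ^ 2)) :=
    (integrableOn_const hfin).integrable_indicator hm
  have e2 : ∫ x, (Cy c r h).indicator (fun _ : V => 3 * K ^ 2 * K' ^ 2) x =
      volume.real (Cy c r h) * (3 * K ^ 2 * K' ^ 2) := by
    rw [integral_indicator hm, setIntegral_const, smul_eq_mul]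
  rw [← e2, ← integral_const_mul, ← integral_const_mul,
    ← integral_add (i1.const_mul _) (i2.const_mul _)]
  have sp : ContDiff ℝ ∞ (fun x => φ x * f x) := hcut.sm.mul hf
  have cp : HasCompactSupport (fun x => φ x * f x) := hcut.cs.mul_right
  refine integral_mono ((gr2_smooth sp).continuous.integrable_of_hasCompactSupport
    (Pool.Agent.Q149.AXI.cs_gr2 cp)) ((i1.const_mul _).add (i2.const_mul _)) fun x => ?_
  beta_reduce
  have hpt : ∀ i, pd i (fun x => φ x * f x) x ^ 2 ≤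
      (1 + η) * (φ x ^ 2 * pd i f x ^ 2) + (1 + 1 / η) * (pd i φ x ^ 2 * f x ^ 2) := by
    intro i
    rw [pd_mul' hcut.sm hf]
    have h1 : 0 ≤ (1 / η) * (η * (φ x * pd i f x) - pd i φ x * f x) ^ 2 := by positivity
    have h2 : (1 / η) * (η * (φ x * pd i f x) - pd i φ x * f x) ^ 2 =
        η * (φ x * pd i f x) ^ 2 - 2 * (φ x * pd i f x) * (pd i φ x * f x)
          + 1 / η * (pd i φ x * f x) ^ 2 := by
      field_simp
      ring
    nlinarith
  have h3 : gr2 (fun x => φ x * f x) x ≤ (1 + η) * (φ x ^ 2 * gr2 f x)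
      + (1 + 1 / η) * (gr2 φ x * f x ^ 2) := by
    have a0 := hpt 0
    have a1 := hpt 1
    have a2 := hpt 2
    simp only [gr2, Fin.sum_univ_three]
    linarith
  have h4 : gr2 φ x * f x ^ 2 ≤ (Cy c r h).indicator (fun _ => 3 * K ^ 2 * K' ^ 2) x := by
    by_cases hx : x ∈ Out c r h r1 h1
    · rw [indicator_of_mem hx.1]
      obtain ⟨b1, -, -⟩ := hcut.bd x
      have c1 : ∀ i, pd i φ x ^ 2 ≤ K ^ 2 := fun i => by
        rw [← sq_abs]
        exact pow_le_pow_left₀ (abs_nonneg _) (b1 i) 2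
      have c2 : f x ^ 2 ≤ K' ^ 2 := by
        rw [← sq_abs]
        exact pow_le_pow_left₀ (abs_nonneg _) (hb x hx) 2
      have c3 : gr2 φ x ≤ 3 * K ^ 2 := by
        simp only [gr2, Fin.sum_univ_three]
        have := c1 0
        have := c1 1
        have := c1 2
        linarith
      exact mul_le_mul c3 c2 (sq_nonneg _) (by positivity)
    · have e3 : gr2 φ x = 0 := by
        unfold gr2
        simp [Pool.Agent.Q95.AXP.flat hcut hx]
      rw [e3, zero_mul]
      exact indicator_nonneg (fun _ _ => by positivity) x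
  have h5 := mul_le_mul_of_nonneg_left h4 (show 0 ≤ 1 + 1 / η by positivity)
  linarith

/-- The energy inequality at one time. -/
theorem enA (hAlg : StmAlg) (hEqW : StmEqW) (hEn : Pool.Agent.Q67.AXI.StmEn) (j l : ℕ)
    {η : ℝ} (hη : 0 < η)
    {T E c R H K r h r1 h1 : ℝ} {u : ℝ → V → V} {p : ℝ → V → ℝ} {φ : V → ℝ}
    (hsol : AxL T E c R H u p) (hK : 1 ≤ K) (hr1 : 0 < r1) (hr1r : r1 < r) (hrR : r < R)
    (hr2 : r ≤ 1) (hhH : h < H)
    (hcut : Cut c r h r1 h1 K φ) {t : ℝ} (ht : t ∈ Ioo 0 T)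
    (hout : ∀ x ∈ Out c r h r1 h1, BdA K (u t) x) :
    ∫ x, 2 * φ x ^ 2 * ww j l (WW (u t)) x * deriv (fun s => ww j l (WW (u s)) x) t ≤
      -(2 + 2 * ((j : ℝ) + l + 1) / (j + l + 2) / (1 + η)) * GD (fun x => φ x * ww j l (WW (u t)) x)
      + (∫ x, φ x ^ 2 * (-4 * (l + 1) * UU (u t) x * ww j l (WW (u t)) x ^ 2
        - 8 * (j + 1) * (l + 1) / (j + l + 2) * w0 j l (WW (u t)) x))
      + volume.real (Cy c r h) * (K ^ (j + l + 2)) ^ 2 *
        (12 * (K ^ (j + l + 2)) ^ 2 + 4 * K ^ (j + l + 2) + 8 * K + 6 * K ^ 2 / η) := by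
  have hr0 : 0 < r := hr1.trans hr1r
  have hK0 : 0 ≤ K := by linarith
  have hsub : Co c r h ⊆ Co c R H := co_mono hr0 hrR hhH
  have hsupp : tsupport φ ⊆ Co c R H := hcut.supp.trans hsub
  have hu := slice hsol.smooth_u ht
  have hax := hsol.axi t ht
  obtain ⟨⟨sU, sW, sJ, sO⟩, -, -, halg⟩ := hAlg (u t) hu hax
  have hrad : ∀ x, rad (u t) x = sg x * UU (u t) x := fun x => (halg x).2.2.2.2.2.2.2.2.2.1
  have sw := ww_sm sW j l
  have sw0 := w0_sm sW j l
  have sD := DD_sm sW j l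
  obtain ⟨S, hS⟩ : ∃ S : V → ℝ, S = fun x => -2 * (l + 1) * UU (u t) x * ww j l (WW (u t)) x
        - DD j l (WW (u t)) x := ⟨_, rfl⟩
  have sS : ContDiff ℝ ∞ S := by
    rw [hS]
    exact ((contDiff_const.mul sU).mul sw).sub sD
  have d1 := en_gen hEn hsol.openO hcut.sm hcut.cs hsupp (f := fun s => ww j l (WW (u s)))
    (τ := t) (v := u t) (S := S) hu (hsol.divfree t ht) sw sS
    (fun x hx hx0 => by
      have h1 := hEqW T E c R H u p hsol t ht x hx hx0
      have h2 : HasDerivAt (fun s => ww j l (WW (u s)) x) (sg x ^ (j + 1) *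
          (((j + l + 2 : ℕ) : ℝ) * WW (u t) x ^ (j + l + 1) * (LL (WW (u t)) x
          - W221.NS.adv (u t) (WW (u t)) x - 2 * UU (u t) x * WW (u t) x))) t := by
        have h3 := (h1.pow (j + l + 2)).const_mul (sg x ^ (j + 1))
        exact h3
      rw [h2.deriv]
      have h4 := ww_eq (v := u t) (U := UU (u t)) sW j l hx0 (hrad x) (W' := LL (WW (u t)) x
          - W221.NS.adv (u t) (WW (u t)) x - 2 * UU (u t) x * WW (u t) x) rfl
      rw [hS]
      beta_reduce
      rw [← h4]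
      push_cast
      ring)
  -- the bounds in the outer region
  obtain ⟨K', hK'⟩ : ∃ K' : ℝ, K' = K ^ (j + l + 2) := ⟨_, rfl⟩
  have hKK' : K ≤ K' := by
    rw [hK']
    exact le_self_pow₀ hK (by omega)
  have hK'0 : 0 ≤ K' := hK0.trans hKK'
  have hsg1 : ∀ x ∈ Cy c r h, sg x ≤ 1 := fun x hx => by
    have h3 : sg x ≤ r ^ 2 := hx.1
    nlinarith
  have hwo : ∀ x ∈ Out c r h r1 h1, |ww j l (WW (u t)) x| ≤ K' := by
    intro x hx
    have h1 := (hout x hx).2.2.1
    unfold ww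
    rw [abs_mul, abs_pow, abs_pow, abs_of_nonneg (sg_nonneg x), hK']
    have h2 : sg x ^ (j + 1) ≤ 1 := pow_le_one₀ (sg_nonneg x) (hsg1 x hx.1)
    have h3 : |WW (u t) x| ^ (j + l + 2) ≤ K ^ (j + l + 2) :=
      pow_le_pow_left₀ (abs_nonneg _) h1 _
    calc _ ≤ 1 * K ^ (j + l + 2) := mul_le_mul h2 h3 (by positivity) zero_le_one
      _ = _ := one_mul _
  have r1' := rem_le (v := u t) (f := ww j l (WW (u t))) (cut_mono hKK' hcut) hK'0 hr0
    (fun x hx => ⟨hwo x hx, fun i => ((hout x hx).1 i).trans hKK'⟩)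
  -- the term with a sign
  have hcs : ∀ g : V → ℝ, HasCompactSupport (fun x => φ x ^ 2 * g x) := fun g => by
    refine HasCompactSupport.intro hcut.cs.isCompact fun x hx => ?_
    rw [image_eq_zero_of_notMem_tsupport hx]
    norm_num
  have hic : ∀ g : V → ℝ, Continuous g → Integrable (fun x => φ x ^ 2 * g x) := fun g hg =>
    ((hcut.sm.continuous.pow 2).mul hg).integrable_of_hasCompactSupport (hcs g)
  have hib := Pool.Agent.Q182.AXI.T1P.int_RR (g := fun x => φ x ^ 2 * w0 j l (WW (u t)) x)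
    ((hcut.sm.pow 2).mul sw0) (hcs _)
  have hRRp : ∀ x, RR (fun x => φ x ^ 2 * w0 j l (WW (u t)) x) x =
      φ x ^ 2 * RR (w0 j l (WW (u t))) x + 2 * φ x * RR φ x * w0 j l (WW (u t)) x := by
    intro x
    rw [Pool.Agent.Q149.AXI.RR_mul (hcut.sm.pow 2) sw0, Pool.Agent.Q111.AXI.RR_sq hcut.sm]
    ring
  have i1 := hic _ sw0.continuous
  have i2 := hic _ (RR_sm sw0).continuous
  have i3 : Integrable (fun x => φ x * RR φ x * w0 j l (WW (u t)) x) := by
    refine ((hcut.sm.continuous.mul (RR_sm hcut.sm).continuous).mul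
      sw0.continuous).integrable_of_hasCompactSupport ?_
    refine HasCompactSupport.intro hcut.cs.isCompact fun x hx => ?_
    show φ x * RR φ x * w0 j l (WW (u t)) x = 0
    rw [image_eq_zero_of_notMem_tsupport hx]
    ring
  have hib2 : (∫ x, φ x ^ 2 * RR (w0 j l (WW (u t))) x) =
      -2 * (∫ x, φ x ^ 2 * w0 j l (WW (u t)) x) - 2 * ∫ x, φ x * RR φ x * w0 j l (WW (u t)) x := by
    have s1 := integral_add (i1.const_mul 2) (i2.add (i3.const_mul 2))
    have s2 := integral_add i2 (i3.const_mul 2)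
    have e2 : ∫ x, (2 * (φ x ^ 2 * w0 j l (WW (u t)) x) + (φ x ^ 2 * RR (w0 j l (WW (u t))) x
        + 2 * (φ x * RR φ x * w0 j l (WW (u t)) x))) = 0 := by
      rw [← hib]
      refine integral_congr_ae (Eventually.of_forall fun x => ?_)
      beta_reduce
      rw [hRRp]
      ring
    simp only [Pi.add_apply] at s1 s2
    rw [s1, s2, integral_const_mul, integral_const_mul] at e2
    linarith
  have hRb : ∫ x, φ x * RR φ x * w0 j l (WW (u t)) x ≤ volume.real (Cy c r h) * (K * K' ^ 2) := by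
    have hc := cy_compact c (r := r) (h := h) hr0
    have hm : MeasurableSet (Cy c r h) := hc.isClosed.measurableSet
    have hfin : volume (Cy c r h) ≠ ⊤ := hc.measure_lt_top.ne
    calc _ ≤ ∫ y, (Cy c r h).indicator (fun _ => K * K' ^ 2) y := by
          refine integral_mono i3 ((integrableOn_const hfin).integrable_indicator hm) ?_
          intro y
          show φ y * RR φ y * w0 j l (WW (u t)) y ≤ (Cy c r h).indicator (fun _ => K * K' ^ 2) y
          have hnn : 0 ≤ (Cy c r h).indicator (fun _ => K * K' ^ 2) y :=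
            indicator_nonneg (fun z _ => by positivity) y
          by_cases hy : y ∈ Out c r h r1 h1
          · rw [indicator_of_mem hy.1]
            obtain ⟨-, -, b3⟩ := hcut.bd y
            have e1 : |φ y * RR φ y * w0 j l (WW (u t)) y| ≤
                1 * (K * sg y) * w0 j l (WW (u t)) y := by
              rw [abs_mul, abs_mul, abs_of_nonneg (hcut.nn y), abs_of_nonneg (w0_nonneg j l y)]
              refine mul_le_mul_of_nonneg_right ?_ (w0_nonneg j l y)
              exact mul_le_mul (hcut.le y) b3 (abs_nonneg _) zero_le_one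
            have e2 : 1 * (K * sg y) * w0 j l (WW (u t)) y = K * ww j l (WW (u t)) y ^ 2 := by
              rw [ww_sq]
              ring
            have e3 : ww j l (WW (u t)) y ^ 2 ≤ K' ^ 2 := by
              rw [← sq_abs]
              exact pow_le_pow_left₀ (abs_nonneg _) (hwo y hy) 2
            rw [e2] at e1
            have e4 := mul_le_mul_of_nonneg_left e3 hK0
            have e5 := le_abs_self (φ y * RR φ y * w0 j l (WW (u t)) y)
            linarith
          · have e3 : RR φ y = 0 := by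
              unfold RR
              rw [Pool.Agent.Q95.AXP.flat hcut hy, Pool.Agent.Q95.AXP.flat hcut hy]
              ring
            rw [e3]
            simpa using hnn
      _ = ∫ y in Cy c r h, K * K' ^ 2 := integral_indicator hm
      _ = _ := by rw [setIntegral_const, smul_eq_mul]
  have hk3 : (0 : ℝ) < (j : ℝ) + l + 2 := by positivity
  have hmain : 2 * (∫ x, φ x ^ 2 * ww j l (WW (u t)) x * S x) ≤
      (∫ x, φ x ^ 2 * (-4 * (l + 1) * UU (u t) x * ww j l (WW (u t)) x ^ 2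
        - 8 * (j + 1) * (l + 1) / (j + l + 2) * w0 j l (WW (u t)) x))
      + 8 * (volume.real (Cy c r h) * (K * K' ^ 2))
      - 2 * ((j : ℝ) + l + 1) / (j + l + 2) * ∫ x, φ x ^ 2 * gr2 (ww j l (WW (u t))) x := by
    have hgw := gr2_smooth sw
    have j0 : Integrable (fun x => φ x ^ 2 * (UU (u t) x * ww j l (WW (u t)) x ^ 2)) :=
      hic (fun x => UU (u t) x * ww j l (WW (u t)) x ^ 2)
        (sU.continuous.mul (sw.continuous.pow 2))
    have jg := hic _ hgw.continuous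
    obtain ⟨q1, hq1⟩ : ∃ q1 : ℝ, q1 = 2 * ((j : ℝ) + l + 1) / (j + l + 2) := ⟨_, rfl⟩
    obtain ⟨q2, hq2⟩ : ∃ q2 : ℝ, q2 = 4 * ((j : ℝ) + 1) / (j + l + 2) := ⟨_, rfl⟩
    have e1 : 2 * (∫ x, φ x ^ 2 * ww j l (WW (u t)) x * S x) =
        ∫ x, ((-4 * (l + 1)) * (φ x ^ 2 * (UU (u t) x * ww j l (WW (u t)) x ^ 2))
          - (q1 * (φ x ^ 2 * gr2 (ww j l (WW (u t))) x)
            + (q2 * (φ x ^ 2 * RR (w0 j l (WW (u t))) x)
            + 2 * q2 * (l + 2) * (φ x ^ 2 * w0 j l (WW (u t)) x)))) := by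
      rw [← integral_const_mul]
      refine integral_congr_ae ?_
      filter_upwards [Pool.Agent.Q111.AXI.ae_sg] with x hx
      have h5 := DD_eq sW j l hx
      have h6 : ww j l (WW (u t)) x * DD j l (WW (u t)) x =
          ((j + l + 1) * gr2 (ww j l (WW (u t))) x + 2 * (j + 1) * RR (w0 j l (WW (u t))) x
          + 4 * (j + 1) * (l + 2) * w0 j l (WW (u t)) x) / ((j : ℝ) + l + 2) := by
        rw [eq_div_iff hk3.ne', ← h5]
        ring
      have h7 : 2 * (φ x ^ 2 * ww j l (WW (u t)) x * S x) =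
          (-4 * (l + 1)) * (φ x ^ 2 * (UU (u t) x * ww j l (WW (u t)) x ^ 2))
          - 2 * φ x ^ 2 * (ww j l (WW (u t)) x * DD j l (WW (u t)) x) := by
        rw [hS]
        ring
      rw [h7, h6, hq1, hq2]
      field_simp
      ring
    have k2 := (i2.const_mul q2).add (i1.const_mul (2 * q2 * (l + 2)))
    have k3 := (jg.const_mul q1).add k2
    have s1 := integral_sub (j0.const_mul (-4 * ((l : ℝ) + 1))) k3
    have s2 := integral_add (jg.const_mul q1) k2
    have s3 := integral_add (i2.const_mul q2) (i1.const_mul (2 * q2 * (l + 2)))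
    simp only [Pi.add_apply] at s1 s2 s3
    rw [e1, s1, s2, s3, integral_const_mul, integral_const_mul, integral_const_mul,
      integral_const_mul, hib2]
    have e2 : (∫ x, φ x ^ 2 * (-4 * (l + 1) * UU (u t) x * ww j l (WW (u t)) x ^ 2
        - 8 * (j + 1) * (l + 1) / (j + l + 2) * w0 j l (WW (u t)) x)) =
        -4 * (l + 1) * (∫ x, φ x ^ 2 * (UU (u t) x * ww j l (WW (u t)) x ^ 2))
          - 2 * q2 * (l + 1) * ∫ x, φ x ^ 2 * w0 j l (WW (u t)) x := by
      rw [← integral_const_mul, ← integral_const_mul,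
        ← integral_sub (j0.const_mul (-4 * ((l : ℝ) + 1))) (i1.const_mul (2 * q2 * (l + 1)))]
      refine integral_congr_ae (Eventually.of_forall fun x => ?_)
      beta_reduce
      rw [hq2]
      field_simp
      ring
    rw [e2]
    have hg0 : 0 ≤ ∫ x, φ x ^ 2 * gr2 (ww j l (WW (u t))) x :=
      integral_nonneg fun x => mul_nonneg (sq_nonneg _) (gr2_nonneg _ _)
    have hq10 : 0 ≤ q1 := by rw [hq1]; positivity
    have hq20 : 0 ≤ q2 := by rw [hq2]; positivity
    have hq24 : q2 ≤ 4 := by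
      rw [hq2, div_le_iff₀ hk3]
      have : (0 : ℝ) ≤ l := Nat.cast_nonneg l
      linarith
    have hb0 : 0 ≤ volume.real (Cy c r h) * (K * K' ^ 2) := by positivity
    have h8 : 2 * q2 * (∫ x, φ x * RR φ x * w0 j l (WW (u t)) x) ≤
        8 * (volume.real (Cy c r h) * (K * K' ^ 2)) := by
      have h9 := mul_le_mul_of_nonneg_left hRb (show 0 ≤ 2 * q2 by positivity)
      have h10 := mul_le_mul_of_nonneg_right hq24 hb0
      linarith
    rw [← hq1]
    linarith
  rw [← hK']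
  have hgd := GD_cut hcut hr0 hη sw hwo
  obtain ⟨q1, hq1⟩ : ∃ q1 : ℝ, q1 = 2 * ((j : ℝ) + l + 1) / (j + l + 2) := ⟨_, rfl⟩
  rw [← hq1] at hmain ⊢
  have hq10 : 0 ≤ q1 := by rw [hq1]; positivity
  have hq12 : q1 ≤ 2 := by
    rw [hq1, div_le_iff₀ hk3]
    linarith
  have hη1 : 0 < 1 + η := by linarith
  obtain ⟨G0, hG0⟩ : ∃ G0 : ℝ, G0 = GD (fun x => φ x * ww j l (WW (u t)) x) := ⟨_, rfl⟩
  obtain ⟨G1, hG1⟩ : ∃ G1 : ℝ, G1 = ∫ x, φ x ^ 2 * gr2 (ww j l (WW (u t))) x := ⟨_, rfl⟩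
  obtain ⟨Vc, hVc⟩ : ∃ Vc : ℝ, Vc = volume.real (Cy c r h) := ⟨_, rfl⟩
  have hVc0 : 0 ≤ Vc := by rw [hVc]; exact measureReal_nonneg
  rw [← hG0, ← hG1, ← hVc] at hgd
  rw [← hG0] at d1 ⊢
  rw [← hG1, ← hVc] at hmain
  rw [← hVc] at r1' ⊢
  have hg2 : q1 / (1 + η) * G0 ≤ q1 * G1 + Vc * K' ^ 2 * (6 * K ^ 2 / η) := by
    have e1 := mul_le_mul_of_nonneg_left hgd (show 0 ≤ q1 / (1 + η) by positivity)
    have e2 : q1 / (1 + η) * ((1 + η) * G1 + (1 + 1 / η) * (Vc * (3 * K ^ 2 * K' ^ 2))) =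
        q1 * G1 + q1 * (Vc * (3 * K ^ 2 * K' ^ 2) / η) := by
      field_simp
      ring
    have e3 : q1 * (Vc * (3 * K ^ 2 * K' ^ 2) / η) ≤ 2 * (Vc * (3 * K ^ 2 * K' ^ 2) / η) :=
      mul_le_mul_of_nonneg_right hq12 (by positivity)
    have e4 : 2 * (Vc * (3 * K ^ 2 * K' ^ 2) / η) = Vc * K' ^ 2 * (6 * K ^ 2 / η) := by ring
    linarith
  have hfin : Vc * K' ^ 2 * (12 * K' ^ 2 + 4 * K' + 8 * K + 6 * K ^ 2 / η) =
      Vc * (K' ^ 2 * (12 * K' ^ 2 + 4 * K'))
        + 8 * (Vc * (K * K' ^ 2)) + Vc * K' ^ 2 * (6 * K ^ 2 / η) := by ring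
  rw [hfin]
  linarith

end Pool.Agent.V8H53.AX
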