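import Pool.Agent.V8H53.AX.Cor

/-!
The excess of the inflow is not in the weighted Lebesgue spaces.
-/

set_option autoImplicit false

open MeasureTheory Set Metric Filter Topology
open scoped ContDiff ENNReal
open H459R3.NS Pool.Agent.W268.NS Pool.Agent.Q67.VD

namespace Pool.Agent.V8H53.AX

open Pool.Agent.Q85.CC Pool.Agent.Q85.CL Pool.Agent.TH305.AX Pool.Agent.Q67.AXI
open Pool.Agent.Q149.AXI (gr2_nonneg sg_cont)
open Pool.Agent.V8Lead (p_Alg)

/-- the measurability of the inner integral -/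
lemma inner_meas {T₀ T R β M e q : ℝ} {a : V} {u : ℝ → V → V}
    (hT₀ : 0 ≤ T₀) (hβ : 0 < β) (hu : ContDiffOn ℝ ∞ (fun z : ℝ × V => u z.1 z.2) (Ioo 0 T ×ˢ univ))
    {B : ℝ → ℝ} (hB : IntegrableOn B (Ioo T₀ T)) (cs c₁ : ℝ) :
    AEMeasurable (fun t => ∫⁻ x in closedBall a R ∩ Rgn β M (u t),
      ENNReal.ofReal ((sg x ^ e * max 0 (-(cs + rad (u t) x) / sg x - c₁ / (T - t) - B t)) ^ q))
      (volume.restrict (Ioo T₀ T)) := by
  have e0 : (volume.restrict (Ioo T₀ T)).prod (volume : Measure V) =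
      (volume.prod volume).restrict (Ioo T₀ T ×ˢ univ) := by
    rw [← Measure.prod_restrict, Measure.restrict_univ]
  have hsub : Ioo T₀ T ×ˢ (univ : Set V) ⊆ Ioo 0 T ×ˢ univ := fun z hz =>
    ⟨⟨hT₀.trans_lt hz.1.1, hz.1.2⟩, trivial⟩
  have h1 : AEMeasurable (fun z : ℝ × V => u z.1 z.2)
      ((volume.restrict (Ioo T₀ T)).prod (volume : Measure V)) := by
    rw [e0]
    exact (hu.continuousOn.mono hsub).aemeasurable (measurableSet_Ioo.prod MeasurableSet.univ)
  have hui : ∀ i, AEMeasurable (fun z : ℝ × V => u z.1 z.2 i)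
      ((volume.restrict (Ioo T₀ T)).prod (volume : Measure V)) := fun i =>
    (measurable_pi_apply i).comp_aemeasurable h1
  have hxi : ∀ i, Measurable (fun z : ℝ × V => z.2 i) := fun i =>
    (measurable_pi_apply i).comp measurable_snd
  have hrad : AEMeasurable (fun z : ℝ × V => rad (u z.1) z.2)
      ((volume.restrict (Ioo T₀ T)).prod (volume : Measure V)) := by
    unfold rad
    exact ((hxi 0).aemeasurable.mul (hui 0)).add ((hxi 1).aemeasurable.mul (hui 1))
  have hcirc : AEMeasurable (fun z : ℝ × V => circ (u z.1) z.2)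
      ((volume.restrict (Ioo T₀ T)).prod (volume : Measure V)) := by
    unfold circ
    exact ((hxi 0).aemeasurable.mul (hui 1)).sub ((hxi 1).aemeasurable.mul (hui 0))
  have hsg : Measurable (fun z : ℝ × V => sg z.2) := sg_cont.measurable.comp measurable_snd
  have hBm : AEMeasurable (fun z : ℝ × V => B z.1)
      ((volume.restrict (Ioo T₀ T)).prod (volume : Measure V)) :=
    (hB.1.comp_fst (ν := (volume : Measure V))).aemeasurable
  have hF : AEMeasurable (fun z : ℝ × V => ENNReal.ofReal ((sg z.2 ^ e *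
      max 0 (-(cs + rad (u z.1) z.2) / sg z.2 - c₁ / (T - z.1) - B z.1)) ^ q))
      ((volume.restrict (Ioo T₀ T)).prod (volume : Measure V)) := by
    refine AEMeasurable.ennreal_ofReal (AEMeasurable.pow_const ?_ q)
    refine (hsg.pow_const e).aemeasurable.mul (aemeasurable_const.max ?_)
    refine ((((aemeasurable_const.add hrad).neg).div hsg.aemeasurable).sub ?_).sub hBm
    exact (measurable_const.div (measurable_const.sub measurable_fst)).aemeasurable
  have hS : NullMeasurableSet {z : ℝ × V | z.2 ∈ closedBall a R ∧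
      M * sg z.2 ^ (β / 2) < |circ (u z.1) z.2|}
      ((volume.restrict (Ioo T₀ T)).prod (volume : Measure V)) := by
    refine NullMeasurableSet.inter ?_ ?_
    · exact (measurableSet_closedBall.preimage measurable_snd).nullMeasurableSet
    · exact nullMeasurableSet_lt ((hsg.pow_const _).const_mul M).aemeasurable
        (measurable_norm.comp_aemeasurable hcirc)
  have h2 := (hF.indicator₀ hS).lintegral_prod_right'
  refine h2.congr ?_
  rw [Filter.EventuallyEq, ae_restrict_iff' measurableSet_Ioo]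
  refine Eventually.of_forall fun t ht => ?_
  have hsm := Pool.Agent.Q285.AXI.slice hu ⟨hT₀.trans_lt ht.1, ht.2⟩
  have hm : MeasurableSet (closedBall a R ∩ Rgn β M (u t)) :=
    measurableSet_closedBall.inter (rgn_meas hβ hsm.continuous)
  rw [← lintegral_indicator hm]
  rfl

/-- The excess of the inflow is not in the weighted Lebesgue space. -/
theorem exc_top {ν T : ℝ} {u : ℝ → V → V} {a : V} (hν : 0 < ν)
    (hu : ContDiffOn ℝ ∞ (fun z : ℝ × V => u z.1 z.2) (Ioo 0 T ×ˢ univ))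
    (hax : ∀ t ∈ Ioo 0 T, Axi (u t)) (hS : InflS ν T u a) {B : ℝ → ℝ}
    {cs c₁ β M γ q T₀ R : ℝ} (hcs : cs < 2) (hc₁ : 0 ≤ c₁) (hc₁2 : c₁ < 1 / 2) (hβ : 0 < β)
    (hM : 0 ≤ M) (hγ0 : 0 ≤ γ) (hγ2 : γ < 2) (hq : 3 < (2 - γ) * q) (hT₀ : 0 ≤ T₀) (hT : T₀ < T)
    (hR : 0 < R) (hB : IntegrableOn B (Ioo T₀ T)) :
    ∫⁻ t in Ioo T₀ T, (∫⁻ x in closedBall a R ∩ Rgn β M (u t),
      ENNReal.ofReal ((sg x ^ (γ / 2) * max 0 (-(cs * ν + rad (u t) x) / sg x
        - c₁ / (T - t) - B t)) ^ q)) ^ (2 / ((2 - γ) * q - 3)) = ⊤ := by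
  by_contra hne
  obtain ⟨ex, hex⟩ : ∃ ex : ℝ, ex = 2 / ((2 - γ) * q - 3) := ⟨_, rfl⟩
  have hden : 0 < (2 - γ) * q - 3 := by linarith
  have hex0 : 0 < ex := by rw [hex]; positivity
  have hq0 : 0 < q := by
    by_contra hcon
    push Not at hcon
    have : (2 - γ) * q ≤ 0 := mul_nonpos_of_nonneg_of_nonpos (by linarith) hcon
    linarith
  obtain ⟨Φ, hΦ⟩ : ∃ Φ : ℝ → ℝ≥0∞, Φ = fun t => ∫⁻ x in closedBall a R ∩ Rgn β M (u t),
      ENNReal.ofReal ((sg x ^ (γ / 2) * max 0 (-(cs * ν + rad (u t) x) / sg x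
        - c₁ / (T - t) - B t)) ^ q) := ⟨_, rfl⟩
  have hΦm : AEMeasurable Φ (volume.restrict (Ioo T₀ T)) := by
    rw [hΦ]
    exact inner_meas hT₀ hβ hu hB (cs * ν) c₁
  have hne' : ∫⁻ t in Ioo T₀ T, Φ t ^ ex ≠ ⊤ := by
    rw [hΦ, hex]
    exact hne
  have hae : ∀ᵐ t ∂(volume.restrict (Ioo T₀ T)), Φ t ^ ex < ⊤ :=
    ae_lt_top' (hΦm.pow_const ex) hne'
  rw [ae_restrict_iff' measurableSet_Ioo] at hae
  -- the parameters
  obtain ⟨cs', hcs'⟩ : ∃ cs' : ℝ, cs' = max cs 1 := ⟨_, rfl⟩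
  have hcs1 : 1 ≤ cs' := by rw [hcs']; exact le_max_right _ _
  have hcs2 : cs' < 2 := by rw [hcs']; exact max_lt hcs (by norm_num)
  have hcsc : cs ≤ cs' := by rw [hcs']; exact le_max_left _ _
  obtain ⟨δ, hδ⟩ : ∃ δ : ℝ, δ = 1 - cs' / 2 := ⟨_, rfl⟩
  have hδ0 : 0 < δ := by rw [hδ]; linarith
  have hδ1 : δ ≤ 1 := by rw [hδ]; linarith
  have h1δ : 0 < 1 - δ := by rw [hδ]; linarith
  have h2c : 0 < 1 - 2 * c₁ := by linarith
  obtain ⟨l, hl⟩ := exists_nat_gt (2 * c₁ / (1 - 2 * c₁))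
  rw [div_lt_iff₀ h2c] at hl
  have hlc : 8 * ((l : ℝ) + 1) * c₁ < 4 * l + 1 := by linarith
  have hε : 0 < (1 - δ) * ν / ((l : ℝ) + 1) := by positivity
  obtain ⟨C, hC, hpot⟩ := pot_w hγ0 hγ2 hq hε
  obtain ⟨A, hA⟩ : ∃ A : ℝ → ℝ, A = fun t => |B t| + C * (Φ t).toReal ^ ex := ⟨_, rfl⟩
  have hAi : IntegrableOn A (Ioo T₀ T) := by
    rw [hA]
    have k2 : IntegrableOn (fun t => C * (Φ t).toReal ^ ex) (Ioo T₀ T) := by
      have h1 : IntegrableOn (fun t => (Φ t ^ ex).toReal) (Ioo T₀ T) :=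
        integrable_toReal_of_lintegral_ne_top (hΦm.pow_const ex) hne'
      simp only [← ENNReal.toReal_rpow] at h1
      exact h1.const_mul C
    exact hB.abs.add k2
  have hpos := hS l A δ c₁ β M T₀ R hδ0 hc₁ hlc hβ hM hT₀ hT hR hAi
  have hform : ∀ᵐ t : ℝ, t ∈ Ioo T₀ T →
      Form ν l δ β M (c₁ / (T - t) + A t) (closedBall a R) (u t) := by
    filter_upwards [hae] with t h1 htI
    have ht : t ∈ Ioo 0 T := ⟨hT₀.trans_lt htI.1, htI.2⟩
    have hTt : 0 < T - t := sub_pos.2 ht.2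
    have h3 : Φ t < ⊤ := (ENNReal.rpow_lt_top_iff_of_pos hex0).1 (h1 htI)
    have hsm := Pool.Agent.Q285.AXI.slice hu ht
    have hm : MeasurableSet (closedBall a R ∩ Rgn β M (u t)) :=
      measurableSet_closedBall.inter (rgn_meas hβ hsm.continuous)
    obtain ⟨Ex, hEx⟩ : ∃ Ex : V → ℝ, Ex = fun x => max 0 (-(cs * ν + rad (u t) x) / sg x
        - c₁ / (T - t) - B t) := ⟨_, rfl⟩
    have hEx0 : ∀ x, 0 ≤ Ex x := fun x => by
      rw [hEx]
      exact le_max_left _ _
    have hExm : Measurable Ex := by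
      have hui : ∀ i, Measurable (fun x : V => u t x i) := fun i =>
        (measurable_pi_apply i).comp hsm.continuous.measurable
      have hr : Measurable (rad (u t)) := by
        unfold rad
        exact ((measurable_pi_apply 0).mul (hui 0)).add ((measurable_pi_apply 1).mul (hui 1))
      rw [hEx]
      exact measurable_const.max (((((measurable_const.add hr).neg).div
        sg_cont.measurable).sub_const _).sub_const _)
    obtain ⟨Q, hQ⟩ : ∃ Q : V → ℝ, Q = (closedBall a R ∩ Rgn β M (u t)).indicator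
      (fun x => sg x ^ (γ / 2) * Ex x) := ⟨_, rfl⟩
    have hQm : Measurable Q := by
      rw [hQ]
      exact ((sg_cont.measurable.pow_const _).mul hExm).indicator hm
    have hQ0 : ∀ x, 0 ≤ Q x := fun x => by
      rw [hQ]
      exact indicator_nonneg (fun y _ => mul_nonneg (Real.rpow_nonneg (sg_nonneg y) _)
        (hEx0 y)) x
    have hQN : ∫⁻ x, ENNReal.ofReal (Q x ^ q) ≤ ENNReal.ofReal ((Φ t).toReal) := by
      rw [ENNReal.ofReal_toReal h3.ne, hΦ]
      beta_reduce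
      rw [← lintegral_indicator hm]
      refine le_of_eq (lintegral_congr fun x => ?_)
      rw [hQ]
      by_cases hx : x ∈ closedBall a R ∩ Rgn β M (u t)
      · rw [indicator_of_mem hx, indicator_of_mem hx, hEx]
      · rw [indicator_of_notMem hx, indicator_of_notMem hx, Real.zero_rpow hq0.ne']
        simp
    have h5 := form_of (ν := ν) (δ := δ) (β := β) (M := M) (b := c₁ / (T - t) + |B t|)
      (A₂ := C * (Φ t).toReal ^ ex) (l := l) (O := closedBall a R) (v := u t)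
      (F := fun x => sg x ^ (-(γ / 2)) * Q x) hν hβ (by positivity) (by positivity) hδ1 hsm
      (hax t ht) (fun x => mul_nonneg (Real.rpow_nonneg (sg_nonneg x) _) (hQ0 x))
      ((sg_cont.measurable.pow_const _).mul hQm) (by
        intro x hx hx0
        have hs : 0 < sg x := lt_of_le_of_ne (sg_nonneg x) (Ne.symm hx0)
        have e1 : sg x ^ (-(γ / 2)) * Q x = Ex x := by
          rw [hQ, indicator_of_mem hx, ← mul_assoc, ← Real.rpow_add hs]
          simp
        rw [e1]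
        have h6 : -(cs * ν + rad (u t) x) / sg x - c₁ / (T - t) - B t ≤ Ex x := by
          rw [hEx]
          exact le_max_right _ _
        have h7 : -(cs * ν + rad (u t) x) / sg x = -(cs * ν / sg x) + -(rad (u t) x) / sg x := by
          ring
        have h8 : cs * ν / sg x ≤ 2 * (1 - δ) * ν / sg x := by
          have h9 : 2 * (1 - δ) = cs' := by rw [hδ]; ring
          rw [h9]
          gcongr
        have h10 := le_abs_self (B t)
        rw [h7] at h6
        linarith) (by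
        intro g sg' cg
        have h6 := hpot Q g (Φ t).toReal hQm.aemeasurable hQ0 sg' cg ENNReal.toReal_nonneg hQN
        rw [← hex] at h6
        exact h6)
    have e2 : c₁ / (T - t) + A t = c₁ / (T - t) + |B t| + C * (Φ t).toReal ^ ex := by
      rw [hA]
      ring
    rw [e2]
    exact h5
  have h0 : volume {t : ℝ | t ∈ Ioo T₀ T ∧
        ¬Form ν l δ β M (c₁ / (T - t) + A t) (closedBall a R) (u t)} = 0 := by
    rw [ae_iff] at hform
    refine measure_mono_null (fun t ht => ?_) hform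
    intro hcon
    exact ht.2 (hcon ht.1)
  rw [h0] at hpos
  exact lt_irrefl _ hpos

/-- The one-sided condition of Prodi-Serrin type fails. -/
theorem ser_top {ν T : ℝ} {u : ℝ → V → V} {a : V} (hν : 0 < ν)
    (hu : ContDiffOn ℝ ∞ (fun z : ℝ × V => u z.1 z.2) (Ioo 0 T ×ˢ univ))
    (hax : ∀ t ∈ Ioo 0 T, Axi (u t)) (hS : InflS ν T u a)
    {β M d s T₀ R : ℝ} (hβ : 0 < β)
    (hM : 0 ≤ M) (hd0 : 0 ≤ d) (hd1 : d < 1) (hs : 3 < (1 - d) * s) (hT₀ : 0 ≤ T₀) (hT : T₀ < T)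
    (hR : 0 < R) :
    ∫⁻ t in Ioo T₀ T, (∫⁻ x in closedBall a R ∩ Rgn β M (u t),
      ENNReal.ofReal ((sg x ^ (d / 2) * (max 0 (-(rad (u t) x)) / √(sg x))) ^ s))
        ^ (2 / ((1 - d) * s - 3)) = ⊤ := by
  have hs0 : 0 < s := by
    by_contra hcon
    push Not at hcon
    have : (1 - d) * s ≤ 0 := mul_nonpos_of_nonneg_of_nonpos (by linarith) hcon
    linarith
  have h1 := exc_top hν hu hax hS (B := fun _ => 0) (cs := 1) (c₁ := 0) (β := β) (M := M)
    (γ := 2 * d) (q := s / 2) (T₀ := T₀) (R := R) (by norm_num) le_rfl (by norm_num) hβ hM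
    (by linarith) (by linarith) (by linarith) hT₀ hT hR
    (integrableOn_zero)
  have e0 : (2 - 2 * d) * (s / 2) - 3 = (1 - d) * s - 3 := by ring
  rw [e0] at h1
  obtain ⟨ex, hex⟩ : ∃ ex : ℝ, ex = 2 / ((1 - d) * s - 3) := ⟨_, rfl⟩
  have hex0 : 0 ≤ ex := by
    rw [hex]
    have : 0 < (1 - d) * s - 3 := by linarith
    positivity
  rw [← hex] at h1 ⊢
  obtain ⟨k, hk⟩ : ∃ k : ℝ, k = ((4 * ν)⁻¹) ^ (s / 2) := ⟨_, rfl⟩
  have hk0 : 0 ≤ k := by rw [hk]; positivity
  have hpt : ∀ (t : ℝ) (x : V), ENNReal.ofReal ((sg x ^ (2 * d / 2)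
      * max 0 (-(1 * ν + rad (u t) x) / sg x - 0 / (T - t) - 0)) ^ (s / 2)) ≤
      ENNReal.ofReal k *
        ENNReal.ofReal ((sg x ^ (d / 2) * (max 0 (-(rad (u t) x)) / √(sg x))) ^ s) := by
    intro t x
    rw [← ENNReal.ofReal_mul hk0]
    refine ENNReal.ofReal_le_ofReal ?_
    have n1 : 0 ≤ sg x ^ (d / 2) * (max 0 (-(rad (u t) x)) / √(sg x)) :=
      mul_nonneg (Real.rpow_nonneg (sg_nonneg x) _)
        (div_nonneg (le_max_left _ _) (Real.sqrt_nonneg _))
    have e1 : k * (sg x ^ (d / 2) * (max 0 (-(rad (u t) x)) / √(sg x))) ^ s =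
        ((4 * ν)⁻¹ * (sg x ^ (d / 2) * (max 0 (-(rad (u t) x)) / √(sg x))) ^ 2) ^ (s / 2) := by
      obtain ⟨y, hy⟩ : ∃ y : ℝ, y = sg x ^ (d / 2) * (max 0 (-(rad (u t) x)) / √(sg x)) :=
        ⟨_, rfl⟩
      rw [← hy] at n1 ⊢
      rw [Real.mul_rpow (by positivity) (by positivity), ← Real.rpow_natCast y 2,
        ← Real.rpow_mul n1, hk]
      congr 2
      push_cast
      ring
    rw [e1]
    refine Real.rpow_le_rpow (mul_nonneg (Real.rpow_nonneg (sg_nonneg x) _) (le_max_left _ _)) ?_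
      (by positivity)
    rcases eq_or_lt_of_le (sg_nonneg x) with h0 | h0
    · rw [← h0]
      simp
    · have e2 : sg x ^ (2 * d / 2) = (sg x ^ (d / 2)) ^ 2 := by
        rw [← Real.rpow_natCast, ← Real.rpow_mul h0.le]
        congr 1
        push_cast
        ring
      have e3 : (max 0 (-(rad (u t) x)) / √(sg x)) ^ 2 = (max 0 (-(rad (u t) x))) ^ 2 / sg x := by
        rw [div_pow, Real.sq_sqrt h0.le]
      rw [e2, mul_pow, e3]
      have h2 : max 0 (-(1 * ν + rad (u t) x) / sg x - 0 / (T - t) - 0) ≤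
          (4 * ν)⁻¹ * ((max 0 (-(rad (u t) x))) ^ 2 / sg x) := by
        refine max_le (by positivity) ?_
        rw [zero_div, sub_zero, sub_zero, one_mul]
        have h3 : -(ν + rad (u t) x) ≤ (4 * ν)⁻¹ * (max 0 (-(rad (u t) x))) ^ 2 := by
          have h4 := le_max_right 0 (-(rad (u t) x))
          obtain ⟨m, hm⟩ : ∃ m : ℝ, m = max 0 (-(rad (u t) x)) := ⟨_, rfl⟩
          rw [← hm] at h4 ⊢
          have h5 : 0 ≤ (4 * ν)⁻¹ * (m - 2 * ν) ^ 2 := by positivity
          have h6 : (4 * ν)⁻¹ * (m - 2 * ν) ^ 2 = (4 * ν)⁻¹ * m ^ 2 - m + ν := by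
            field_simp
            ring
          linarith
        have h7 := div_le_div_of_nonneg_right h3 h0.le
        have h8 : (4 * ν)⁻¹ * (max 0 (-(rad (u t) x))) ^ 2 / sg x =
          (4 * ν)⁻¹ * ((max 0 (-(rad (u t) x))) ^ 2 / sg x) := by ring
        rw [← h8]
        exact h7
      calc (sg x ^ (d / 2)) ^ 2 * max 0 (-(1 * ν + rad (u t) x) / sg x - 0 / (T - t) - 0)
          ≤ (sg x ^ (d / 2)) ^ 2 * ((4 * ν)⁻¹ * ((max 0 (-(rad (u t) x))) ^ 2 / sg x)) :=
            mul_le_mul_of_nonneg_left h2 (sq_nonneg _)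
        _ = _ := by ring
  have hin : ∀ t, (∫⁻ x in closedBall a R ∩ Rgn β M (u t), ENNReal.ofReal ((sg x ^ (2 * d / 2)
      * max 0 (-(1 * ν + rad (u t) x) / sg x - 0 / (T - t) - 0)) ^ (s / 2))) ^ ex ≤
      ENNReal.ofReal k ^ ex * (∫⁻ x in closedBall a R ∩ Rgn β M (u t),
        ENNReal.ofReal ((sg x ^ (d / 2) * (max 0 (-(rad (u t) x)) / √(sg x))) ^ s)) ^ ex := by
    intro t
    rw [← ENNReal.mul_rpow_of_nonneg _ _ hex0]
    refine ENNReal.rpow_le_rpow ?_ hex0
    rw [← lintegral_const_mul' _ _ ENNReal.ofReal_ne_top]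
    exact lintegral_mono fun x => hpt t x
  have hk2 : ENNReal.ofReal k ^ ex ≠ ⊤ :=
    ENNReal.rpow_ne_top_of_nonneg hex0 ENNReal.ofReal_ne_top
  have h3 := lintegral_mono (μ := volume.restrict (Ioo T₀ T)) hin
  rw [lintegral_const_mul' _ _ hk2] at h3
  rw [h1] at h3
  by_contra hne
  exact (ENNReal.mul_ne_top hk2 hne) (top_le_iff.1 h3)

end Pool.Agent.V8H53.AX
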