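import Pool.Agent.V8H53.AX.Cor

/-!
The form inequality with a potential in a weighted Lebesgue space.
-/

set_option autoImplicit false

open MeasureTheory Set Metric Filter Topology
open scoped ContDiff ENNReal
open H459R3.NS Pool.Agent.W268.NS Pool.Agent.Q67.VD

namespace Pool.Agent.V8H53.AX

open Pool.Agent.Q85.CC Pool.Agent.Q85.CL Pool.Agent.TH305.AX Pool.Agent.Q67.AXI
open Pool.Agent.Q149.AXI (gr2_nonneg sg_cont)

/-- The form inequality with a potential fails at many times. -/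
theorem infl_P {ν T : ℝ} {u : ℝ → V → V} {a : V} (hν : 0 < ν) (hS : InflS ν T u a)
    (l : ℕ) {A : ℝ → ℝ} {P : ℝ → V → ℝ}
    {δ c₁ β M γ q T₀ R : ℝ} (hδ : 0 < δ) (hc₁ : 0 ≤ c₁) (hlc : 8 * (l + 1) * c₁ < 4 * l + 1)
    (hβ : 0 < β) (hM : 0 ≤ M) (hγ0 : 0 ≤ γ) (hγ2 : γ < 2) (hq : 3 < (2 - γ) * q) (hT₀ : 0 ≤ T₀)
    (hT : T₀ < T) (hR : 0 < R) (hA : IntegrableOn A (Ioo T₀ T))
    (hP : Measurable (fun z : ℝ × V => P z.1 z.2))
    (hPi : ∫⁻ t in Ioo T₀ T, (∫⁻ x in closedBall a R, ENNReal.ofReal (|P t x| ^ q))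
      ^ (2 / ((2 - γ) * q - 3)) < ⊤) :
    0 < volume {t : ℝ | t ∈ Ioo T₀ T ∧ ∃ g : V → ℝ, (ContDiff ℝ ∞ g ∧ HasCompactSupport g ∧
      AxF g ∧ tsupport g ⊆ closedBall a R ∧ (∀ x, sg x = 0 → g x = 0)) ∧
      (1 - δ) * ν * (∫ x, (gr2 g x / (l + 1) + 2 * g x ^ 2 / sg x))
        + (∫ x, (c₁ / (T - t) + A t + sg x ^ (-(γ / 2)) * |P t x|) * g x ^ 2) <
      -(∫ x in Rgs β M (u t), rad (u t) x / sg x * g x ^ 2)} := by
  by_contra hcon
  have hv0 := nonpos_iff_eq_zero.1 (not_lt.1 hcon)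
  obtain ⟨ex, hex⟩ : ∃ ex : ℝ, ex = 2 / ((2 - γ) * q - 3) := ⟨_, rfl⟩
  have hden : 0 < (2 - γ) * q - 3 := by linarith
  have hex0 : 0 < ex := by rw [hex]; positivity
  have hq0 : 0 < q := by
    by_contra hcon
    push Not at hcon
    have : (2 - γ) * q ≤ 0 := mul_nonpos_of_nonneg_of_nonpos (by linarith) hcon
    linarith
  obtain ⟨Φ, hΦ⟩ : ∃ Φ : ℝ → ℝ≥0∞, Φ = fun t => ∫⁻ x in closedBall a R,
      ENNReal.ofReal (|P t x| ^ q) := ⟨_, rfl⟩
  have hΦm : Measurable Φ := by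
    rw [hΦ]
    have h1 : Measurable (fun z : ℝ × V => ENNReal.ofReal (|P z.1 z.2| ^ q)) :=
      ((measurable_norm.comp hP).pow_const q).ennreal_ofReal
    exact h1.lintegral_prod_right'
  have hne' : ∫⁻ t in Ioo T₀ T, Φ t ^ ex < ⊤ := by
    rw [hΦ, hex]
    exact hPi
  have hae : ∀ᵐ t ∂(volume.restrict (Ioo T₀ T)), Φ t ^ ex < ⊤ :=
    ae_lt_top (hΦm.pow_const ex) hne'.ne
  rw [ae_restrict_iff' measurableSet_Ioo] at hae
  have hε : 0 < δ / 2 * ν / ((l : ℝ) + 1) := by positivity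
  obtain ⟨C, hC, hpot⟩ := pot_w hγ0 hγ2 hq hε
  obtain ⟨A', hA'⟩ : ∃ A' : ℝ → ℝ, A' = fun t => A t + C * (Φ t).toReal ^ ex := ⟨_, rfl⟩
  have hAi : IntegrableOn A' (Ioo T₀ T) := by
    rw [hA']
    have k2 : IntegrableOn (fun t => C * (Φ t).toReal ^ ex) (Ioo T₀ T) := by
      have h1 : IntegrableOn (fun t => (Φ t ^ ex).toReal) (Ioo T₀ T) :=
        integrable_toReal_of_lintegral_ne_top (hΦm.pow_const ex).aemeasurable hne'.ne
      simp only [← ENNReal.toReal_rpow] at h1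
      exact h1.const_mul C
    exact hA.add k2
  have hpos := hS l A' (δ / 2) c₁ β M T₀ R (by positivity) hc₁ hlc hβ hM hT₀ hT hR hAi
  have hz : ∀ᵐ t : ℝ, t ∈ Ioo T₀ T → ∀ g : V → ℝ, (ContDiff ℝ ∞ g ∧ HasCompactSupport g ∧
      AxF g ∧ tsupport g ⊆ closedBall a R ∧ (∀ x, sg x = 0 → g x = 0)) →
      -(∫ x in Rgs β M (u t), rad (u t) x / sg x * g x ^ 2) ≤
      (1 - δ) * ν * (∫ x, (gr2 g x / (l + 1) + 2 * g x ^ 2 / sg x))
        + (∫ x, (c₁ / (T - t) + A t + sg x ^ (-(γ / 2)) * |P t x|) * g x ^ 2) := by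
    have h1 : ∀ᵐ t : ℝ, t ∉ {t : ℝ | t ∈ Ioo T₀ T ∧ ∃ g : V → ℝ, (ContDiff ℝ ∞ g ∧
      HasCompactSupport g ∧
      AxF g ∧ tsupport g ⊆ closedBall a R ∧ (∀ x, sg x = 0 → g x = 0)) ∧
      (1 - δ) * ν * (∫ x, (gr2 g x / (l + 1) + 2 * g x ^ 2 / sg x))
        + (∫ x, (c₁ / (T - t) + A t + sg x ^ (-(γ / 2)) * |P t x|) * g x ^ 2) <
      -(∫ x in Rgs β M (u t), rad (u t) x / sg x * g x ^ 2)} := by
      rw [ae_iff]
      simp only [not_not]
      exact hv0
    filter_upwards [h1] with t ht htI g hg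
    by_contra hlt
    exact ht ⟨htI, g, hg, not_le.1 hlt⟩
  have hform : ∀ᵐ t : ℝ, t ∈ Ioo T₀ T →
      Form ν l (δ / 2) β M (c₁ / (T - t) + A' t) (closedBall a R) (u t) := by
    filter_upwards [hae, hz] with t h1 h2 htI
    have h3 : Φ t < ⊤ := (ENNReal.rpow_lt_top_iff_of_pos hex0).1 (h1 htI)
    intro g sg' cg ag tg zg
    have h4 := h2 htI g ⟨sg', cg, ag, tg, zg⟩
    refine h4.trans ?_
    obtain ⟨Q, hQ⟩ : ∃ Q : V → ℝ, Q = (closedBall a R).indicator (fun x => |P t x|) := ⟨_, rfl⟩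
    have hPt : Measurable (P t) := hP.comp measurable_prodMk_left
    have hQm : Measurable Q := by
      rw [hQ]
      exact (measurable_norm.comp hPt).indicator measurableSet_closedBall
    have hQ0 : ∀ x, 0 ≤ Q x := fun x => by
      rw [hQ]
      exact indicator_nonneg (fun y _ => abs_nonneg _) x
    have hQN : ∫⁻ x, ENNReal.ofReal (Q x ^ q) ≤ ENNReal.ofReal ((Φ t).toReal) := by
      rw [ENNReal.ofReal_toReal h3.ne, hΦ]
      beta_reduce
      rw [← lintegral_indicator measurableSet_closedBall]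
      refine le_of_eq (lintegral_congr fun x => ?_)
      rw [hQ]
      by_cases hx : x ∈ closedBall a R
      · rw [indicator_of_mem hx, indicator_of_mem hx]
      · rw [indicator_of_notMem hx, indicator_of_notMem hx, Real.zero_rpow hq0.ne']
        simp
    have h5 := hpot Q g (Φ t).toReal hQm.aemeasurable hQ0 sg' cg ENNReal.toReal_nonneg hQN
    rw [← hex] at h5
    have nF : ∀ x, 0 ≤ sg x ^ (-(γ / 2)) * Q x * g x ^ 2 := fun x =>
      mul_nonneg (mul_nonneg (Real.rpow_nonneg (sg_nonneg x) _) (hQ0 x)) (sq_nonneg _)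
    have iF : Integrable (fun x => sg x ^ (-(γ / 2)) * Q x * g x ^ 2) := by
      refine ⟨(((sg_cont.measurable.pow_const _).mul hQm).mul
        (sg'.continuous.measurable.pow_const 2)).aestronglyMeasurable, ?_⟩
      rw [hasFiniteIntegral_iff_ofReal (Eventually.of_forall nF)]
      exact h5.trans_lt ENNReal.ofReal_lt_top
    rw [← ofReal_integral_eq_lintegral_ofReal iF (Eventually.of_forall nF)] at h5
    have iA : Integrable (fun x => g x ^ 2) := by
      refine (sg'.continuous.pow 2).integrable_of_hasCompactSupport ?_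
      refine HasCompactSupport.intro cg.isCompact fun x hx => ?_
      show g x ^ 2 = 0
      rw [image_eq_zero_of_notMem_tsupport hx]
      norm_num
    have iD := int_div sg' cg zg
    have iG : Integrable (gr2 g) :=
      (gr2_smooth sg').continuous.integrable_of_hasCompactSupport
        (Pool.Agent.Q149.AXI.cs_gr2 cg)
    have e1 : ∫ x, (c₁ / (T - t) + A t + sg x ^ (-(γ / 2)) * |P t x|) * g x ^ 2 =
        (c₁ / (T - t) + A t) * (∫ x, g x ^ 2) + ∫ x, sg x ^ (-(γ / 2)) * Q x * g x ^ 2 := by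
      rw [← integral_const_mul, ← integral_add (iA.const_mul _) iF]
      refine integral_congr_ae (Eventually.of_forall fun x => ?_)
      beta_reduce
      by_cases hx : x ∈ tsupport g
      · have h6 : Q x = |P t x| := by rw [hQ, indicator_of_mem (tg hx)]
        rw [h6]
        ring
      · rw [image_eq_zero_of_notMem_tsupport hx]
        ring
    have e2 : ∫ x, (gr2 g x / ((l : ℝ) + 1) + 2 * g x ^ 2 / sg x) =
        GD g / (l + 1) + 2 * ∫ x, g x ^ 2 / sg x := by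
      have e3 : ∫ x, (gr2 g x / ((l : ℝ) + 1) + 2 * g x ^ 2 / sg x) =
          ∫ x, (gr2 g x / ((l : ℝ) + 1) + 2 * (g x ^ 2 / sg x)) :=
        integral_congr_ae (Eventually.of_forall fun x => by beta_reduce; ring)
      rw [e3, integral_add (iG.div_const _) (iD.const_mul 2), integral_const_mul,
        integral_div]
      rfl
    have hG0 : 0 ≤ GD g := integral_nonneg fun x => gr2_nonneg _ x
    have hD0 : 0 ≤ ∫ x, g x ^ 2 / sg x := integral_nonneg fun x =>
      div_nonneg (sq_nonneg _) (sg_nonneg x)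
    have hA0 : 0 ≤ ∫ x, g x ^ 2 := integral_nonneg fun x => sq_nonneg _
    have hCP : 0 ≤ C * (Φ t).toReal ^ ex := mul_nonneg hC (Real.rpow_nonneg ENNReal.toReal_nonneg _)
    have h7 := (ENNReal.ofReal_le_ofReal_iff (by positivity)).1 h5
    rw [e1, e2, hA']
    beta_reduce
    have e4 : (1 - δ / 2) * ν * (GD g / (l + 1) + 2 * ∫ x, g x ^ 2 / sg x) =
        (1 - δ) * ν * (GD g / (l + 1) + 2 * ∫ x, g x ^ 2 / sg x)
        + (δ / 2 * ν / (l + 1) * GD g + δ * ν * ∫ x, g x ^ 2 / sg x) := by ring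
    have h8 : 0 ≤ δ * ν * ∫ x, g x ^ 2 / sg x := by positivity
    rw [e4]
    linarith
  have h0 : volume {t : ℝ | t ∈ Ioo T₀ T ∧
        ¬Form ν l (δ / 2) β M (c₁ / (T - t) + A' t) (closedBall a R) (u t)} = 0 := by
    rw [ae_iff] at hform
    refine measure_mono_null (fun t ht => ?_) hform
    intro hcon
    exact ht.2 (hcon ht.1)
  rw [h0] at hpos
  exact lt_irrefl _ hpos

end Pool.Agent.V8H53.AX
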