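import Pool.Agent.V8H53.AX.WFin
import Pool.Agent.V8H53.AX.BtS
import Pool.Agent.Q65.AXI.LogP

/-!
Assembly: regularity at a point of the axis.
-/

set_option autoImplicit false

open MeasureTheory Set Metric Filter Topology
open scoped ContDiff ENNReal
open H459R3.NS Pool.Agent.W268.NS Pool.Agent.Q67.VD

namespace Pool.Agent.V8H53.AX

open Pool.Agent.Q85.CC Pool.Agent.Q85.CL Pool.Agent.TH305.AX Pool.Agent.Q67.AXI
open Pool.Agent.Q151.AXI (bdA_mono cut_mono slice inner)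
open Pool.Agent.Q65.AXI (circ_bd)

/-- Regularity on the axis under the integral condition on the inflow. -/
theorem mainS (hGd : StmGd) (hBar : StmBar) (hCut : StmCut) (hAlg : StmAlg) (hEqW : StmEqW)
    (hEqJ : StmEqJ) (hEqO : StmEqO) (hJnt : StmJnt) (hDt : StmDt)
    (hEn : Pool.Agent.Q67.AXI.StmEn) (hHar : StmHar) (hU : StmU) (hSm : StmSm)
    (hFin : StmFin) (hMo : StmMo) (hReg : StmReg)
    (l : ℕ) {T E c R H T₀ δ c₁ β M : ℝ} {u : ℝ → V → V} {p : ℝ → V → ℝ}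
    {A : ℝ → ℝ} (hR : 0 < R) (hH : 0 < H)
    (hsol : AxL T E c R H u p) (hT₀0 : 0 ≤ T₀) (hT₀ : T₀ < T)
    (hδ : 0 < δ) (hc₁ : 0 ≤ c₁) (hlc : 8 * (l + 1) * c₁ < 4 * l + 1) (hβ : 0 < β) (hM : 0 ≤ M)
    (hA : IntegrableOn A (Ioo T₀ T))
    (hcond : ∀ᵐ t : ℝ, t ∈ Ioo T₀ T →
      Form 1 l δ β M (c₁ / (T - t) + A t) (Co c R H) (u t)) :
    Rg T u ![0, 0, c] := by
  have hT : 0 < T := hT₀0.trans_lt hT₀
  obtain ⟨r, hr⟩ : ∃ r : ℝ, r = min (R / 2) (Real.exp (-1)) := ⟨_, rfl⟩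
  have hr0 : 0 < r := by rw [hr]; exact lt_min (by linarith) (Real.exp_pos _)
  have hrR : r < R := by rw [hr]; exact (min_le_left _ _).trans_lt (by linarith)
  have hre : r ^ 2 ≤ Real.exp (-2) := by
    have h2 : r ≤ Real.exp (-1) := by rw [hr]; exact min_le_right _ _
    calc r ^ 2 ≤ Real.exp (-1) ^ 2 := pow_le_pow_left₀ hr0.le h2 2
      _ = Real.exp (-2) := by rw [← Real.exp_nat_mul]; norm_num
  have hr1 : r ≤ 1 := by
    have h2 : r ≤ Real.exp (-1) := by rw [hr]; exact min_le_right _ _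
    exact h2.trans (Real.exp_le_one_iff.2 (by norm_num))
  obtain ⟨h₀, hh₀⟩ : ∃ h₀ : ℝ, h₀ = min H 1 / 2 := ⟨_, rfl⟩
  have hh₀0 : 0 < h₀ := by rw [hh₀]; positivity
  have hh₀H : h₀ < H := by rw [hh₀]; have := min_le_left H 1; linarith
  have hh₀1 : h₀ < 1 := by rw [hh₀]; have := min_le_right H 1; linarith
  obtain ⟨h, h1, hh1, hh1h, hhh₀, hG⟩ := hGd T E c R H u p hT hR hH hsol r h₀ hr0 hrR hh₀0 hh₀H
  have hh0 : 0 < h := hh1.trans hh1h
  have hhH : h < H := hhh₀.trans hh₀H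
  obtain ⟨KB, TB, hKB, hTB0, hTBT, hbB⟩ := hG r (r / 2) le_rfl (by positivity) (by linarith)
  obtain ⟨KC, φ, hKC, hφ⟩ := hCut c r h (r / 2) h1 (by positivity) (by linarith) hh1 hh1h
  obtain ⟨K, hK⟩ : ∃ K : ℝ, K = max 1 (max KB KC) := ⟨_, rfl⟩
  have hK1 : 1 ≤ K := by rw [hK]; exact le_max_left _ _
  have hKBK : KB ≤ K := by rw [hK]; exact (le_max_left _ _).trans (le_max_right _ _)
  have hKCK : KC ≤ K := by rw [hK]; exact (le_max_right _ _).trans (le_max_right _ _)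
  have hK0 : 0 ≤ K := by linarith
  obtain ⟨T₁, hT₁⟩ : ∃ T₁ : ℝ, T₁ = max TB T₀ := ⟨_, rfl⟩
  have hT₁B : TB ≤ T₁ := by rw [hT₁]; exact le_max_left _ _
  have hT₁0 : T₀ ≤ T₁ := by rw [hT₁]; exact le_max_right _ _
  have hT₁T : T₁ < T := by rw [hT₁]; exact max_lt hTBT hT₀
  have hT₁p : 0 < T₁ := hTB0.trans_le hT₁B
  have hφ' := cut_mono hKCK hφ
  have hbK : ∀ t ∈ Ico T₁ T, ∀ x ∈ Out c r h (r / 2) h1, BdA K (u t) x := fun t ht x hx =>
    bdA_mono hKBK (hbB t ⟨hT₁B.trans ht.1, ht.2⟩ x hx)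
  obtain ⟨C₀, hC₀, hcirc⟩ := circ_bd hAlg hBar T E c R H r h T₁ K u p hsol hr0 hrR hh0 hhH hT₁p
    hT₁T (by
      intro t ht x hx hb
      refine (hbK t ht x ⟨hx, ?_⟩).2.2.1
      rcases hb with hb | hb
      · left
        rw [hb]
        exact pow_le_pow_left₀ (by positivity) (by linarith) 2
      · right
        rw [hb]
        exact hh1h.le)
  have hcc : Co c r h ⊆ Cy c r h := fun x hx => ⟨hx.1.le, hx.2.le⟩
  obtain ⟨j, K₂, hK₂, hw⟩ := w_bd hAlg hEqW hJnt hDt hEn l (T₁ := T₁) hsol hK1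
    (by positivity) (by linarith) hrR hr1 hhH hT₁p hφ' hbK hδ hc₁ hβ hM
    (hA.mono_set (Ioo_subset_Ioo_left hT₁0)) (by
      filter_upwards [hcond] with t ht h2
      exact ht (Ioo_subset_Ioo_left hT₁0 h2))
  -- the exponent
  have hl1 : (0 : ℝ) < (l : ℝ) + 1 := by positivity
  have hden : 0 < 8 * ((l : ℝ) + 1) * c₁ + 3 := by positivity
  have hlt : 1 / ((l : ℝ) + 1) < 4 / (8 * ((l : ℝ) + 1) * c₁ + 3) := by
    rw [div_lt_div_iff₀ hl1 hden]
    linarith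
  have hle : 4 / (8 * ((l : ℝ) + 1) * c₁ + 3) ≤ 4 / 3 := by
    rw [div_le_div_iff₀ hden (by norm_num)]
    have : 0 ≤ 8 * ((l : ℝ) + 1) * c₁ := by positivity
    linarith
  obtain ⟨κ, hκ1, hκ2⟩ := exists_between hlt
  have hκ0 : 0 < κ := lt_trans (by positivity) hκ1
  have hκ3 : κ < 4 / 3 := hκ2.trans_le hle
  have h43 : 0 < 4 - 3 * κ := by linarith
  rw [div_lt_iff₀ hl1] at hκ1
  rw [lt_div_iff₀ hden] at hκ2
  obtain ⟨K', hK', hY⟩ := btS hAlg hEqJ hEqO hJnt hDt hEn hHar hU hSm j l hκ0.le hκ1 hκ3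
    (T₁ := T₁) (d := 4 * (l + 1) * c₁) hsol hK0
    (by positivity) (by linarith) hrR hre hh1 hh1h hhH (by linarith) hT₁p hT₁T hC₀.le hK₂
    (by positivity) (by
      rw [← mul_div_assoc, div_lt_one h43]
      linarith) hφ' hbK (fun t ht x hx => hcirc t ht x (hcc hx)) hw
  have hen : ∀ t ∈ Ico T₁ T, (∀ x ∈ Cy c (r / 2 / 2) (h1 / 2), |WW (u t) x| ≤ 3 * K') ∧
      ∫ x in Cy c (r / 2 / 2) (h1 / 2), (UU (u t) x ^ 2 + gr2 (UU (u t)) x + OO (u t) x ^ 2)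
        ≤ 3 * K' := by
    intro t ht
    have htI : t ∈ Ioo 0 T := ⟨hT₁p.trans_le ht.1, ht.2⟩
    have hsm := slice hsol.smooth_u htI
    obtain ⟨⟨hU, -, -, hO⟩, -⟩ := hAlg (u t) hsm (hsol.axi t htI)
    obtain ⟨y0, y1, y2, y3⟩ := hY t ht
    refine ⟨fun x hx => ?_, ?_⟩
    · have hx' : x ∈ Co c r h := by
        refine ⟨hx.1.trans_lt ?_, hx.2.trans_lt (by linarith)⟩
        exact pow_lt_pow_left₀ (by linarith) (by positivity) (by norm_num)
      have := y0 x hx'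
      linarith
    · have h2 := inner (by positivity) hh1 hφ' hU hO
      linarith
  have hKK : 0 ≤ 3 * K' := by positivity
  obtain ⟨K₀, hK₀, hmo⟩ := hMo T E c R H (r / 2 / 2) (h1 / 2) T₁ (3 * K') u p hsol
    (by positivity) (by linarith) (by positivity) (by linarith) hT₁p hT₁T hKK hen
  obtain ⟨ε, hε, hreg⟩ := hReg K₀ hK₀
  have hqt := hFin T E c R H (r / 2 / 2) (h1 / 2) T₁ (3 * K') u p hsol
    (by positivity) (by linarith) (by positivity) (by linarith) hT₁p hT₁T hKK hen ε hε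
  refine hreg T E (Co c R H) u p hT hsol.toLSl ![0, 0, c] ?_ hmo hqt
  refine ⟨?_, ?_⟩
  · have : sg (![0, 0, c] : V) = 0 := by
      unfold sg
      simp
    rw [this]
    positivity
  · show |c - c| < H
    rw [sub_self, abs_zero]
    exact hH

end Pool.Agent.V8H53.AX
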