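import Pool.Agent.V8H53.AX.Wgt

/-!
The inequality
`∫ ρ ^ (-γ) Q g² ≤ ε ∫ |∇g|² + C (∫ Q ^ q) ^ (2 / ((2 - γ) q - 3)) ∫ g²`, `(2 - γ) q > 3`.
-/

set_option autoImplicit false

open MeasureTheory Set Metric Filter Topology
open scoped ContDiff ENNReal
open H459R3.NS Pool.Agent.W268.NS Pool.Agent.Q67.VD

namespace Pool.Agent.V8H53.AX

open Pool.Agent.Q85.CC Pool.Agent.Q85.CL Pool.Agent.TH305.AX Pool.Agent.Q67.AXI
open Pool.Agent.Q149.AXI (gr2_nonneg sg_cont)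

/-- Hölder inequality with three factors and a weight -/
lemma hol3w {q γ : ℝ} (hq : 3 / 2 < q) {Q g : V → ℝ} (hQm : AEMeasurable Q)
    (hQ : ∀ x, 0 ≤ Q x) (hg : Continuous g) (hc : HasCompactSupport g) {N X : ℝ} (hN : 0 ≤ N)
    (hX : 0 ≤ X) (h : ∫⁻ x, ENNReal.ofReal (Q x ^ q) ≤ ENNReal.ofReal N)
    (hx : ∫⁻ x, ENNReal.ofReal (sg x ^ (-(2 * q * γ / (2 * q - 3) / 2)) * g x ^ 2) ≤
      ENNReal.ofReal X) :
    ∫⁻ x, ENNReal.ofReal (sg x ^ (-(γ / 2)) * Q x * g x ^ 2) ≤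
      ENNReal.ofReal (N ^ (1 / q) * X ^ (1 - 3 / (2 * q)) * (∫ x, g x ^ 6) ^ (1 / (2 * q))) := by
  have hq0 : 0 < q := by linarith
  have h23 : 0 < 2 * q - 3 := by linarith
  have ha : 0 < 1 - 3 / (2 * q) := by
    rw [sub_pos, div_lt_one (by positivity)]
    linarith
  have hg6 : Integrable (fun x => g x ^ 6) := by
    refine (hg.pow 6).integrable_of_hasCompactSupport ?_
    refine HasCompactSupport.intro hc.isCompact fun x hx => ?_
    show g x ^ 6 = 0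
    rw [image_eq_zero_of_notMem_tsupport hx]
    norm_num
  have n6 : ∀ x, 0 ≤ g x ^ 6 := fun x => by
    rw [show g x ^ 6 = (g x ^ 2) ^ 3 by ring]
    positivity
  have I6 : 0 ≤ ∫ x, g x ^ 6 := integral_nonneg n6
  have key := ENNReal.lintegral_prod_norm_pow_le (μ := (volume : Measure V)) Finset.univ
    (f := ![fun x => ENNReal.ofReal (Q x ^ q),
      fun x => ENNReal.ofReal (sg x ^ (-(2 * q * γ / (2 * q - 3) / 2)) * g x ^ 2),
      fun x => ENNReal.ofReal (g x ^ 6)]) (p := ![1 / q, 1 - 3 / (2 * q), 1 / (2 * q)])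
    (by
      intro i _
      fin_cases i
      · exact (hQm.pow_const q).ennreal_ofReal
      · exact ((sg_cont.measurable.pow_const _).mul
          (hg.measurable.pow_const 2)).ennreal_ofReal.aemeasurable
      · exact (hg.pow 6).measurable.ennreal_ofReal.aemeasurable)
    (by
      rw [Fin.sum_univ_three]
      show 1 / q + (1 - 3 / (2 * q)) + 1 / (2 * q) = 1
      field_simp
      ring)
    (by
      intro i _
      fin_cases i
      · show 0 ≤ 1 / q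
        positivity
      · exact ha.le
      · show 0 ≤ 1 / (2 * q)
        positivity)
  simp only [Fin.prod_univ_three] at key
  have e1 : ∀ᵐ x : V, ENNReal.ofReal (sg x ^ (-(γ / 2)) * Q x * g x ^ 2) =
      ENNReal.ofReal (Q x ^ q) ^ (1 / q) *
      ENNReal.ofReal (sg x ^ (-(2 * q * γ / (2 * q - 3) / 2)) * g x ^ 2)
      ^ (1 - 3 / (2 * q)) * ENNReal.ofReal (g x ^ 6) ^ (1 / (2 * q)) := by
    filter_upwards [Pool.Agent.Q111.AXI.ae_sg] with x hx0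
    have hs : 0 < sg x := lt_of_le_of_ne (sg_nonneg x) (Ne.symm hx0)
    have q1 : 0 ≤ Q x ^ q := Real.rpow_nonneg (hQ x) _
    have q2 : 0 < sg x ^ (-(2 * q * γ / (2 * q - 3) / 2)) := by positivity
    rw [ENNReal.ofReal_rpow_of_nonneg q1 (by positivity),
      ENNReal.ofReal_rpow_of_nonneg (by positivity) ha.le,
      ENNReal.ofReal_rpow_of_nonneg (n6 x) (by positivity),
      ← ENNReal.ofReal_mul (by positivity), ← ENNReal.ofReal_mul (by positivity)]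
    congr 1
    rw [← Real.rpow_mul (hQ x), mul_one_div_cancel hq0.ne', Real.rpow_one,
      Real.mul_rpow q2.le (sq_nonneg _), ← Real.rpow_mul hs.le]
    have e2 : -(2 * q * γ / (2 * q - 3) / 2) * (1 - 3 / (2 * q)) = -(γ / 2) := by
      field_simp
    rw [e2]
    have e3 : (g x ^ 2) ^ (1 - 3 / (2 * q)) * (g x ^ 6) ^ (1 / (2 * q)) = g x ^ 2 := by
      rcases eq_or_ne (g x) 0 with h0 | h0
      · rw [h0]
        norm_num
        left
        exact Real.zero_rpow ha.ne'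
      · have h2 : 0 < g x ^ 2 := by positivity
        rw [show g x ^ 6 = (g x ^ 2) ^ 3 by ring, ← Real.rpow_natCast (g x ^ 2) 3,
          ← Real.rpow_mul h2.le, ← Real.rpow_add h2]
        have : 1 - 3 / (2 * q) + ((3 : ℕ) : ℝ) * (1 / (2 * q)) = 1 := by
          push_cast
          ring
        rw [this, Real.rpow_one]
    calc sg x ^ (-(γ / 2)) * Q x * g x ^ 2 = Q x * sg x ^ (-(γ / 2)) * g x ^ 2 := by ring
      _ = Q x * sg x ^ (-(γ / 2)) * ((g x ^ 2) ^ (1 - 3 / (2 * q))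
          * (g x ^ 6) ^ (1 / (2 * q))) := by rw [e3]
      _ = _ := by ring
  have e3 : ∫⁻ x, ENNReal.ofReal (g x ^ 6) = ENNReal.ofReal (∫ x, g x ^ 6) :=
    (ofReal_integral_eq_lintegral_ofReal hg6 (Eventually.of_forall n6)).symm
  have key2 : ∫⁻ x, ENNReal.ofReal (sg x ^ (-(γ / 2)) * Q x * g x ^ 2) ≤
      (∫⁻ x, ENNReal.ofReal (Q x ^ q)) ^ (1 / q) *
      (∫⁻ x, ENNReal.ofReal (sg x ^ (-(2 * q * γ / (2 * q - 3) / 2)) * g x ^ 2))
        ^ (1 - 3 / (2 * q)) * (∫⁻ x, ENNReal.ofReal (g x ^ 6)) ^ (1 / (2 * q)) := by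
    refine le_trans (le_of_eq ?_) key
    exact lintegral_congr_ae e1
  rw [e3] at key2
  refine key2.trans ?_
  rw [ENNReal.ofReal_mul (by positivity), ENNReal.ofReal_mul (by positivity),
    ← ENNReal.ofReal_rpow_of_nonneg hN (by positivity),
    ← ENNReal.ofReal_rpow_of_nonneg hX ha.le,
    ← ENNReal.ofReal_rpow_of_nonneg I6 (by positivity)]
  gcongr

/-- potentials in weighted Lebesgue spaces -/
theorem pot_w {q γ ε : ℝ} (hγ0 : 0 ≤ γ) (hγ2 : γ < 2) (hq : 3 < (2 - γ) * q) (hε : 0 < ε) :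
    ∃ C : ℝ, 0 ≤ C ∧ ∀ (Q g : V → ℝ) (N : ℝ), AEMeasurable Q → (∀ x, 0 ≤ Q x) →
      ContDiff ℝ ∞ g → HasCompactSupport g → 0 ≤ N →
      ∫⁻ x, ENNReal.ofReal (Q x ^ q) ≤ ENNReal.ofReal N →
      ∫⁻ x, ENNReal.ofReal (sg x ^ (-(γ / 2)) * Q x * g x ^ 2) ≤
        ENNReal.ofReal (ε * GD g + C * N ^ (2 / ((2 - γ) * q - 3)) * ∫ x, g x ^ 2) := by
  obtain ⟨S, hS, hsob⟩ := sob6
  have hq0 : 0 < q := by
    by_contra hcon
    push Not at hcon
    have : (2 - γ) * q ≤ 0 := mul_nonpos_of_nonneg_of_nonpos (by linarith) hcon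
    linarith
  have hq32 : 3 / 2 < q := by
    have : 0 ≤ γ * q := by positivity
    linarith
  have h23 : 0 < 2 * q - 3 := by linarith
  have hden : 0 < (2 - γ) * q - 3 := by linarith
  obtain ⟨s, hs⟩ : ∃ s : ℝ, s = 2 * q * γ / (2 * q - 3) := ⟨_, rfl⟩
  have hs0 : 0 ≤ s := by rw [hs]; positivity
  have hs2 : s < 2 := by
    rw [hs, div_lt_iff₀ h23]
    linarith
  have h2s : 0 < 2 - s := by linarith
  obtain ⟨C₁, hC₁, hhar⟩ := har_s hs0 hs2
  obtain ⟨θ, hθ⟩ : ∃ θ : ℝ, θ = 3 / (2 * q) := ⟨_, rfl⟩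
  have hθ0 : 0 < θ := by rw [hθ]; positivity
  have hθ1 : θ < 1 := by
    rw [hθ, div_lt_one (by positivity)]
    linarith
  have h1θ : 0 < 1 - θ := by linarith
  obtain ⟨k, hk⟩ : ∃ k : ℝ, k = (S ^ (1 / (2 * q)) * (ε / 2) ^ (-θ)) ^ (1 / (1 - θ)) := ⟨_, rfl⟩
  have hk0 : 0 ≤ k := by rw [hk]; positivity
  obtain ⟨e₁, he₁⟩ : ∃ e₁ : ℝ, e₁ = 2 / (2 * q - 3) := ⟨_, rfl⟩
  obtain ⟨ε₁, hε₁⟩ : ∃ ε₁ : ℝ, ε₁ = ε / (2 * (k * C₁ + 1)) := ⟨_, rfl⟩
  have hε₁0 : 0 < ε₁ := by rw [hε₁]; positivity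
  have hε₁2 : k * C₁ * ε₁ ≤ ε / 2 := by
    rw [hε₁]
    have h1 : k * C₁ * (ε / (2 * (k * C₁ + 1))) = ε / 2 * (k * C₁ / (k * C₁ + 1)) := by
      field_simp
    rw [h1]
    have h2 : k * C₁ / (k * C₁ + 1) ≤ 1 := by
      rw [div_le_one (by positivity)]
      linarith
    exact mul_le_of_le_one_right (by positivity) h2
  refine ⟨k * C₁ * ε₁ ^ (-(s / (2 - s))), by positivity, fun Q g N hQm hQ hg hc hN h => ?_⟩
  obtain ⟨A, hA⟩ : ∃ A : ℝ, A = ∫ x, g x ^ 2 := ⟨_, rfl⟩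
  obtain ⟨D, hD⟩ : ∃ D : ℝ, D = GD g := ⟨_, rfl⟩
  have hA0 : 0 ≤ A := by rw [hA]; exact integral_nonneg fun x => sq_nonneg _
  have hD0 : 0 ≤ D := by
    rw [hD]
    exact integral_nonneg fun x => gr2_nonneg _ x
  have hgC : Continuous g := hg.continuous
  rw [← hA, ← hD]
  rcases eq_or_lt_of_le hN with hN0 | hN0
  · -- the case `N = 0`
    have hx := hhar 1 g one_pos hg hc
    rw [← hD, ← hA] at hx
    have h1 := hol3w (γ := γ) hq32 hQm hQ hgC hc hN (X := C₁ * (1 * D + 1 ^ (-(s / (2 - s))) * A))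
      (by positivity) h (by rw [← hs]; exact hx)
    have e0 : N ^ (1 / q) = 0 := by
      rw [← hN0]
      exact Real.zero_rpow (by positivity)
    rw [e0, zero_mul, zero_mul, ENNReal.ofReal_zero] at h1
    exact h1.trans zero_le
  obtain ⟨μ, hμ⟩ : ∃ μ : ℝ, μ = ε₁ * N ^ (-e₁) := ⟨_, rfl⟩
  have hμ0 : 0 < μ := by rw [hμ]; positivity
  have hx := hhar μ g hμ0 hg hc
  rw [← hD, ← hA] at hx
  obtain ⟨X, hX⟩ : ∃ X : ℝ, X = C₁ * (μ * D + μ ^ (-(s / (2 - s))) * A) := ⟨_, rfl⟩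
  have hX0 : 0 ≤ X := by rw [hX]; positivity
  rw [← hX] at hx
  refine (hol3w (γ := γ) hq32 hQm hQ hgC hc hN hX0 h (by rw [← hs]; exact hx)).trans ?_
  refine ENNReal.ofReal_le_ofReal ?_
  have h3 := hsob g (hg.of_le (by norm_cast)) hc
  have I6 : 0 ≤ ∫ x, g x ^ 6 := integral_nonneg fun x => by
    show 0 ≤ g x ^ 6
    rw [show g x ^ 6 = (g x ^ 2) ^ 3 by ring]
    positivity
  rw [← hθ]
  rw [← hD] at h3
  have h4 : (∫ x, g x ^ 6) ^ (1 / (2 * q)) ≤ S ^ (1 / (2 * q)) * D ^ θ := by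
    have h5 := Real.rpow_le_rpow I6 h3 (show 0 ≤ 1 / (2 * q) by positivity)
    refine h5.trans (le_of_eq ?_)
    rw [Real.mul_rpow hS.le (by positivity), ← Real.rpow_natCast D 3, ← Real.rpow_mul hD0]
    congr 2
    rw [hθ]
    push_cast
    ring
  have h6 : N ^ (1 / q) * X ^ (1 - θ) * (∫ x, g x ^ 6) ^ (1 / (2 * q)) ≤
      N ^ (1 / q) * X ^ (1 - θ) * (S ^ (1 / (2 * q)) * D ^ θ) := by
    have : 0 ≤ N ^ (1 / q) * X ^ (1 - θ) := by positivity
    exact mul_le_mul_of_nonneg_left h4 this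
  refine h6.trans ?_
  have hY : 0 ≤ k * N ^ e₁ * X := by positivity
  have h7 := Real.geom_mean_le_arith_mean2_weighted hθ0.le h1θ.le
    (show 0 ≤ ε / 2 * D by positivity) hY (by ring)
  have e1 : N ^ (1 / q) * X ^ (1 - θ) * (S ^ (1 / (2 * q)) * D ^ θ) =
      (ε / 2 * D) ^ θ * (k * N ^ e₁ * X) ^ (1 - θ) := by
    rw [Real.mul_rpow (by positivity) hD0, Real.mul_rpow (by positivity) hX0,
      Real.mul_rpow hk0 (by positivity), ← Real.rpow_mul hN]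
    have e2 : e₁ * (1 - θ) = 1 / q := by
      rw [hθ, he₁]
      field_simp
    have e4 : k ^ (1 - θ) = S ^ (1 / (2 * q)) * (ε / 2) ^ (-θ) := by
      rw [hk, ← Real.rpow_mul (by positivity), one_div_mul_cancel h1θ.ne', Real.rpow_one]
    have e3 : (ε / 2) ^ θ * (ε / 2) ^ (-θ) = 1 := by
      rw [← Real.rpow_add (by positivity)]
      simp
    rw [e2, e4]
    calc N ^ (1 / q) * X ^ (1 - θ) * (S ^ (1 / (2 * q)) * D ^ θ)
        = ((ε / 2) ^ θ * (ε / 2) ^ (-θ)) * (N ^ (1 / q) * X ^ (1 - θ)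
          * (S ^ (1 / (2 * q)) * D ^ θ)) := by
          rw [e3, one_mul]
      _ = _ := by ring
  rw [e1]
  refine h7.trans ?_
  have a1 : θ * (ε / 2 * D) ≤ ε / 2 * D := mul_le_of_le_one_left (by positivity) hθ1.le
  have a2 : (1 - θ) * (k * N ^ e₁ * X) ≤ k * N ^ e₁ * X := mul_le_of_le_one_left hY (by linarith)
  have a3 : k * N ^ e₁ * X = k * C₁ * ε₁ * D
      + k * C₁ * ε₁ ^ (-(s / (2 - s))) * N ^ (2 / ((2 - γ) * q - 3)) * A := by
    have b1 : N ^ e₁ * N ^ (-e₁) = 1 := by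
      rw [← Real.rpow_add hN0]
      simp
    have b2 : N ^ e₁ * (N ^ (-e₁)) ^ (-(s / (2 - s))) = N ^ (2 / ((2 - γ) * q - 3)) := by
      rw [← Real.rpow_mul hN, ← Real.rpow_add hN0]
      congr 1
      obtain ⟨d₂, hd₂⟩ : ∃ d₂ : ℝ, d₂ = (2 - γ) * q - 3 := ⟨_, rfl⟩
      have hd0 : 0 < d₂ := by rw [hd₂]; exact hden
      have h5 : s / (2 - s) = q * γ / d₂ := by
        rw [div_eq_div_iff h2s.ne' hd0.ne', hs, hd₂]
        field_simp
        ring
      have h6 : 2 * q - 3 = d₂ + q * γ := by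
        rw [hd₂]
        ring
      have h7 : 0 < d₂ + q * γ := by
        rw [← h6]
        exact h23
      rw [← hd₂, h5, he₁, h6]
      field_simp
    rw [hX, hμ, Real.mul_rpow hε₁0.le (by positivity), ← b2]
    calc k * N ^ e₁ * (C₁ * (ε₁ * N ^ (-e₁) * D
          + ε₁ ^ (-(s / (2 - s))) * (N ^ (-e₁)) ^ (-(s / (2 - s))) * A)) =
          k * C₁ * ε₁ * (N ^ e₁ * N ^ (-e₁)) * D + k * C₁ * ε₁ ^ (-(s / (2 - s)))
            * (N ^ e₁ * (N ^ (-e₁)) ^ (-(s / (2 - s)))) * A := by ring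
      _ = _ := by rw [b1, mul_one]
  have a4 := mul_le_mul_of_nonneg_right hε₁2 hD0
  linarith

end Pool.Agent.V8H53.AX
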