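import Pool.Agent.V8H53.AX.Sob
import Pool.Agent.V8H53.AX.Alg
import Pool.Agent.Q182.AXI.T1P

/-!
The potential `|W|` is of subcritical order when `∫ ρ ^ (-4 b) Γ ^ (2 k)` is bounded.
-/

set_option autoImplicit false

open MeasureTheory Set Metric Filter Topology
open scoped ContDiff ENNReal
open H459R3.NS Pool.Agent.W268.NS Pool.Agent.Q67.VD

namespace Pool.Agent.V8H53.AX

open Pool.Agent.Q85.CC Pool.Agent.Q85.CL Pool.Agent.TH305.AX Pool.Agent.Q67.AXI
open Pool.Agent.W583.MD (sm_pd pd_mul')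
open Pool.Agent.Q149.AXI (sm_RR RR_mul pd_off sm_gr2 cs_pd cs_gr2 gr2_nonneg Cy_closed Cy_bdd
  sg_cont)

lemma log_bd {τ ε : ℝ} (hτ0 : 0 ≤ τ) (hτ : τ < 1) (hε : 0 < ε) : ∃ C : ℝ, 0 ≤ C ∧
    ∀ s : ℝ, 0 < s → s ≤ Real.exp (-2) → s ^ (-τ) ≤ ε / (s * Real.log s ^ 2) + C := by
  have hr : 0 < (1 - τ) / 2 := by linarith
  have h1 := tendsto_log_mul_rpow_nhdsGT_zero hr
  have h2 : ∀ᶠ x : ℝ in 𝓝[>] 0, |Real.log x * x ^ ((1 - τ) / 2)| < √ε := by
    have h3 := h1.abs
    rw [abs_zero] at h3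
    exact h3.eventually (gt_mem_nhds (Real.sqrt_pos.2 hε))
  obtain ⟨δ, hδ, hd⟩ := mem_nhdsGT_iff_exists_Ioo_subset.1 h2
  have hδ0 : 0 < δ := hδ
  refine ⟨δ ^ (-τ), by positivity, fun s hs hs2 => ?_⟩
  have hlog : Real.log s ≤ -2 := by
    have := Real.log_le_log hs hs2
    rwa [Real.log_exp] at this
  have hl2 : 0 < Real.log s ^ 2 := by nlinarith
  rcases lt_or_ge s δ with h | h
  · have h3 : |Real.log s * s ^ ((1 - τ) / 2)| < √ε := hd ⟨hs, h⟩
    have h4 : (Real.log s * s ^ ((1 - τ) / 2)) ^ 2 ≤ ε := by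
      rw [← sq_abs, ← Real.sq_sqrt hε.le]
      exact pow_le_pow_left₀ (abs_nonneg _) h3.le 2
    have h5 : s ^ (-τ) * (s * Real.log s ^ 2) = (Real.log s * s ^ ((1 - τ) / 2)) ^ 2 := by
      have e1 : (s ^ ((1 - τ) / 2)) ^ 2 = s ^ (-τ) * s := by
        rw [← Real.rpow_natCast, ← Real.rpow_mul hs.le]
        conv_rhs => rw [← Real.rpow_add_one hs.ne']
        congr 1
        push_cast
        ring
      rw [mul_pow, e1]
      ring
    have h6 : s ^ (-τ) ≤ ε / (s * Real.log s ^ 2) := by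
      rw [le_div_iff₀ (by positivity), h5]
      exact h4
    have : 0 ≤ δ ^ (-τ) := by positivity
    linarith
  · have h3 : s ^ (-τ) ≤ δ ^ (-τ) := Real.rpow_le_rpow_of_nonpos hδ0 h (by linarith)
    have : 0 ≤ ε / (s * Real.log s ^ 2) := by positivity
    linarith

lemma pt_pot (j l : ℕ) {κ s x : ℝ} (hκ : 1 < κ * (l + 1)) (hs : 0 < s) :
    |x| ≤ s ^ (-(((j : ℝ) + 1) * κ / ((j + l + 2) * κ - 1)))
      + |s ^ (j + 1) * x ^ (j + l + 2)| ^ κ := by
  obtain ⟨τ, hτ⟩ : ∃ τ : ℝ, τ = ((j : ℝ) + 1) * κ / ((j + l + 2) * κ - 1) := ⟨_, rfl⟩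
  rw [← hτ]
  have hκ0 : 0 < κ := by
    by_contra hcon
    push Not at hcon
    have : κ * ((l : ℝ) + 1) ≤ 0 := mul_nonpos_of_nonpos_of_nonneg hcon (by positivity)
    linarith
  have hden : 0 < ((j : ℝ) + l + 2) * κ - 1 := by
    have : 0 ≤ ((j : ℝ) + 1) * κ := by positivity
    linarith
  have p1 : 0 ≤ s ^ (-τ) := by positivity
  have p2 : 0 ≤ |s ^ (j + 1) * x ^ (j + l + 2)| ^ κ := by positivity
  by_cases h : |x| ≤ s ^ (-τ)
  · linarith
  · push Not at h
    have hx : 0 < |x| := p1.trans_lt h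
    have h1 : 1 ≤ s ^ τ * |x| := by
      have h2 := mul_le_mul_of_nonneg_left h.le (show 0 ≤ s ^ τ by positivity)
      have e : s ^ τ * s ^ (-τ) = 1 := by
        rw [← Real.rpow_add hs]
        simp
      rwa [e] at h2
    have h3 : 1 ≤ (s ^ τ * |x|) ^ (((j : ℝ) + l + 2) * κ - 1) :=
      Real.one_le_rpow h1 hden.le
    have e1 : |s ^ (j + 1) * x ^ (j + l + 2)| ^ κ =
        |x| * (s ^ τ * |x|) ^ (((j : ℝ) + l + 2) * κ - 1) := by
      rw [abs_mul, abs_pow, abs_pow, abs_of_pos hs, Real.mul_rpow (by positivity) (by positivity),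
        Real.mul_rpow (by positivity) (by positivity), ← Real.rpow_natCast, ← Real.rpow_natCast,
        ← Real.rpow_mul hs.le, ← Real.rpow_mul hx.le, ← Real.rpow_mul hs.le]
      have e2 : ((j + 1 : ℕ) : ℝ) * κ = τ * (((j : ℝ) + l + 2) * κ - 1) := by
        rw [hτ, div_mul_cancel₀ _ hden.ne']
        push_cast
        ring
      have e3 : |x| ^ (((j + l + 2 : ℕ) : ℝ) * κ) =
          |x| * |x| ^ (((j : ℝ) + l + 2) * κ - 1) := by
        conv_rhs => rw [mul_comm, ← Real.rpow_add_one hx.ne']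
        congr 1
        push_cast
        ring
      rw [e2, e3]
      ring
    rw [e1]
    nlinarith

/-- The potential `|W|`. -/
theorem star (hHar : StmHar) (j l : ℕ) {κ r ε : ℝ} (hκ : 1 < κ * (l + 1)) (hκ2 : κ < 4 / 3)
    (hr0 : 0 ≤ r) (hr : r ^ 2 ≤ Real.exp (-2)) (hε : 0 < ε) : ∃ C : ℝ, 0 ≤ C ∧ ∀ (N c h : ℝ) (W g : V → ℝ), 0 ≤ N → ContDiff ℝ ∞ W →
      ContDiff ℝ ∞ g → HasCompactSupport g → tsupport g ⊆ Co c r h →
      ∫ x in Co c r h, ww j l W x ^ 2 ≤ N →
      ∫ x, |W x| * g x ^ 2 ≤ ε * GD g + C * (1 + N ^ (2 * κ / (4 - 3 * κ))) * ∫ x, g x ^ 2 := by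
  have hκ0 : 0 < κ := by
    by_contra hcon
    push Not at hcon
    have : κ * ((l : ℝ) + 1) ≤ 0 := mul_nonpos_of_nonpos_of_nonneg hcon (by positivity)
    linarith
  have hden : 0 < ((j : ℝ) + l + 2) * κ - 1 := by
    have : 0 ≤ ((j : ℝ) + 1) * κ := by positivity
    linarith
  have h43 : 0 < 4 - 3 * κ := by linarith
  obtain ⟨C₁, hC₁, hlog⟩ := log_bd (τ := ((j : ℝ) + 1) * κ / ((j + l + 2) * κ - 1))
    (ε := ε / 2) (by positivity) (by rw [div_lt_one hden]; linarith) (by positivity)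
  obtain ⟨C₂, hC₂, hpot⟩ := pot_le (p := 2 / κ) (by rw [lt_div_iff₀ hκ0]; linarith)
    (show 0 < ε / 2 by positivity)
  have hexp : 2 / (2 * (2 / κ) - 3) = 2 * κ / (4 - 3 * κ) := by
    have h1 : 2 * (2 / κ) - 3 = (4 - 3 * κ) / κ := by
      field_simp
      ring
    rw [h1]
    field_simp
  rw [hexp] at hpot
  refine ⟨C₁ + C₂, by positivity, fun N c h W g hN hW hg hc hs hK => ?_⟩
  have hCom : MeasurableSet (Co c r h) := by
    have o1 : IsOpen {x : V | sg x < r ^ 2} := isOpen_lt sg_cont continuous_const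
    have o2 : IsOpen {x : V | |x 2 - c| < h} := isOpen_lt (by fun_prop) continuous_const
    exact (o1.inter o2).measurableSet
  obtain ⟨R, hR⟩ := Cy_bdd (c := c) (r := r) (h := h) hr0
  have hCoCy : ∀ x ∈ Co c r h, x ∈ Cy c r h := fun x hx => ⟨hx.1.le, hx.2.le⟩
  have hwc : Continuous (ww j l W) := (ww_sm hW j l).continuous
  have hwi : IntegrableOn (fun x => ww j l W x ^ 2) (Co c r h) :=
    ((hwc.pow 2).continuousOn.integrableOn_compact (isCompact_closedBall (0 : V) R)).mono_set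
      fun x hx => hR (hCoCy x hx)
  obtain ⟨Q, hQ⟩ : ∃ Q : V → ℝ, Q = (Co c r h).indicator
    (fun x => |ww j l W x| ^ κ) := ⟨_, rfl⟩
  have hQm : AEMeasurable Q := by
    rw [hQ]
    exact ((hwc.abs.measurable.pow_const _).indicator hCom).aemeasurable
  have hQ0 : ∀ x, 0 ≤ Q x := fun x => by
    rw [hQ]
    exact indicator_nonneg (fun y _ => by positivity) x
  have hQN : ∫⁻ x, ENNReal.ofReal (Q x ^ (2 / κ)) ≤ ENNReal.ofReal N := by
    have e1 : ∀ x, ENNReal.ofReal (Q x ^ (2 / κ)) =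
        (Co c r h).indicator (fun x => ENNReal.ofReal (ww j l W x ^ 2)) x := by
      intro x
      rw [hQ]
      by_cases hx : x ∈ Co c r h
      · rw [indicator_of_mem hx, indicator_of_mem hx, ← Real.rpow_mul (abs_nonneg _)]
        have e2 : κ * (2 / κ) = ((2 : ℕ) : ℝ) := by
          field_simp
          norm_num
        rw [e2, Real.rpow_natCast, sq_abs]
      · rw [indicator_of_notMem hx, indicator_of_notMem hx, Real.zero_rpow (by positivity)]
        simp
    rw [lintegral_congr e1, lintegral_indicator hCom,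
      ← ofReal_integral_eq_lintegral_ofReal hwi (Eventually.of_forall fun x => sq_nonneg _)]
    exact ENNReal.ofReal_le_ofReal hK
  obtain ⟨i2, b2⟩ := hpot Q g N hQm hQ0 (hg.of_le (by norm_cast)) hc hN hQN
  obtain ⟨i1, b1⟩ := hHar g (hg.of_le (by norm_cast)) hc fun x hx =>
    (hs (subset_closure hx)).1.le.trans hr
  have hb1 : ∫ x, (pd 0 g x ^ 2 + pd 1 g x ^ 2) ≤ GD g := by
    have hpi : ∀ i, Integrable (fun x => pd i g x ^ 2) := by
      intro i
      refine ((sm_pd hg i).continuous.pow 2).integrable_of_hasCompactSupport ?_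
      refine HasCompactSupport.intro hc.isCompact fun x hx => ?_
      show pd i g x ^ 2 = 0
      rw [pd_off hx]
      norm_num
    refine integral_mono ((hpi 0).add (hpi 1)) ((sm_gr2 hg).integrable_of_hasCompactSupport
      (cs_gr2 hc)) fun x => ?_
    unfold gr2
    rw [Fin.sum_univ_three]
    simp only
    nlinarith [sq_nonneg (pd 2 g x)]
  have i3 : Integrable (fun x => g x ^ 2) := by
    refine (hg.continuous.pow 2).integrable_of_hasCompactSupport ?_
    refine HasCompactSupport.intro hc.isCompact fun x hx => ?_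
    show g x ^ 2 = 0
    rw [image_eq_zero_of_notMem_tsupport hx]
    norm_num
  have i0 : Integrable (fun x => |W x| * g x ^ 2) := by
    refine (hW.continuous.abs.mul (hg.continuous.pow 2)).integrable_of_hasCompactSupport ?_
    refine HasCompactSupport.intro hc.isCompact fun x hx => ?_
    show |W x| * g x ^ 2 = 0
    rw [image_eq_zero_of_notMem_tsupport hx]
    norm_num
  have e0 : ∀ᵐ x : V, x 0 ≠ 0 := Measure.ae_eval_ne (μ := fun _ => volume) 0 0
  have hle : ∀ᵐ x : V, |W x| * g x ^ 2 ≤ ε / 2 * (g x ^ 2 / (sg x * Real.log (sg x) ^ 2))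
      + C₁ * g x ^ 2 + Q x * g x ^ 2 := by
    filter_upwards [e0] with x hx0
    have hsx : 0 < sg x := by
      unfold sg
      positivity
    by_cases hx : x ∈ tsupport g
    · have hxC := hs hx
      have h1 := pt_pot j l (x := W x) hκ hsx
      have h2 := hlog (sg x) hsx (hxC.1.le.trans hr)
      have h3 : Q x = |sg x ^ (j + 1) * W x ^ (j + l + 2)| ^ κ := by
        rw [hQ, indicator_of_mem hxC]
        rfl
      rw [← h3] at h1
      have h4 : |W x| ≤ ε / 2 / (sg x * Real.log (sg x) ^ 2) + C₁ + Q x := by linarith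
      have h5 := mul_le_mul_of_nonneg_right h4 (sq_nonneg (g x))
      calc _ ≤ _ := h5
        _ = _ := by ring
    · rw [image_eq_zero_of_notMem_tsupport hx]
      simp
  have j1 := (i1.const_mul (ε / 2)).add (i3.const_mul C₁)
  have j2 := j1.add i2
  refine (integral_mono_ae i0 j2 hle).trans ?_
  have s1 := integral_add j1 i2
  have s2 := integral_add (i1.const_mul (ε / 2)) (i3.const_mul C₁)
  simp only [Pi.add_apply] at s1 s2 ⊢
  rw [s1, s2, integral_const_mul, integral_const_mul]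
  have h6 := mul_le_mul_of_nonneg_left (b1.trans hb1) (show 0 ≤ ε / 2 by positivity)
  obtain ⟨Z, hZ⟩ : ∃ Z : ℝ, Z = N ^ (2 * κ / (4 - 3 * κ)) := ⟨_, rfl⟩
  have hZ0 : 0 ≤ Z := by rw [hZ]; positivity
  have hA0 : 0 ≤ ∫ x, g x ^ 2 := integral_nonneg fun x => by positivity
  rw [← hZ] at b2 ⊢
  have h7 : (C₁ + C₂) * (1 + Z) * (∫ x, g x ^ 2) = C₁ * (∫ x, g x ^ 2) + C₂ * Z * (∫ x, g x ^ 2)
      + (C₁ * Z * (∫ x, g x ^ 2) + C₂ * ∫ x, g x ^ 2) := by ring
  have h8 : 0 ≤ C₁ * Z * (∫ x, g x ^ 2) + C₂ * ∫ x, g x ^ 2 := by positivity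
  rw [h7]
  linarith

end Pool.Agent.V8H53.AX
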