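import Pool.Agent.V8H53.AX.Star

/-!
The stretching terms, when `∫ ρ ^ (-4 b) Γ ^ (2 k)` is bounded.
-/

set_option autoImplicit false

open MeasureTheory Set Metric Filter Topology
open scoped ContDiff
open H459R3.NS Pool.Agent.W268.NS Pool.Agent.Q67.VD

namespace Pool.Agent.V8H53.AX

open Pool.Agent.Q85.CC Pool.Agent.Q85.CL Pool.Agent.TH305.AX Pool.Agent.Q67.AXI
open Pool.Agent.W583.MD (sm_pd pd_mul')
open Pool.Agent.Q149.AXI (sm_RR RR_mul pd_com pd2_RR pd_zero_of_max pd_off RR_sq sm_gr2 cs_pd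
  cs_gr2 gr2_nonneg Cy_closed Cy_bdd ld_of_pd line_zero sg_cont)
open Pool.Agent.Q182.AXI.T1P (int_pd int_RR pt_main)

/-- The first part of the estimate of the stretching term (the proof of
`Pool.Agent.Q182.AXI.T1P.t_T1P'`, first part). -/
theorem T1core (hAlg : StmAlg) {K c r h r1 h1 : ℝ} (hK : 0 ≤ K) (hr1 : 0 < r1) (hr : r1 < r)
    (hrle : r ≤ 1) {v : V → V} {φ : V → ℝ} (hv : ContDiff ℝ ∞ v)
    (hax : Axi v) (hcut : Cut c r h r1 h1 K φ) (hbd : ∀ x ∈ Out c r h r1 h1, BdA K v x) :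
    2 * |∫ x, φ x ^ 2 * JJ v x * SS v x| ≤ 1 / 8 * GD (fun x => φ x * JJ v x)
      + 8 * (∫ x, sg x * WW v x ^ 2 * gr2 (fun y => φ y * UU v y) x)
      + 2 * (6 * K ^ 4 + 2 * K ^ 5) * volume.real (Cy c r h) := by
  have hr0 : 0 < r := hr1.trans hr
  obtain ⟨R, hR⟩ := Cy_bdd (c := c) (r := r) (h := h) hr0.le
  have hCym : MeasurableSet (Cy c r h) := (Cy_closed c r h).measurableSet
  have hCoCy : ∀ x ∈ Co c r h, x ∈ Cy c r h := fun x hx => ⟨hx.1.le, hx.2.le⟩
  have hVf : volume (Cy c r h) < ⊤ :=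
    (measure_mono hR).trans_lt measure_closedBall_lt_top
  obtain ⟨V0, hV0⟩ : ∃ V0 : ℝ, V0 = volume.real (Cy c r h) := ⟨_, rfl⟩
  have hV0n : 0 ≤ V0 := by
    rw [hV0]
    exact measureReal_nonneg
  obtain ⟨CE, hCE⟩ : ∃ CE : ℝ, CE = 6 * K ^ 4 + 2 * K ^ 5 := ⟨_, rfl⟩
  have hCEn : 0 ≤ CE := by rw [hCE]; positivity
  obtain ⟨⟨sU, sW, sJ, sO⟩, -, -, halg⟩ := hAlg v hv hax
  have hcirc : ∀ x, circ v x = sg x * WW v x := fun x => by
    obtain ⟨-, -, -, -, -, -, -, -, h4, -⟩ := halg x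
    exact h4
  have hrad : ∀ x, rad v x = sg x * UU v x := fun x => by
    obtain ⟨-, -, -, -, -, -, -, -, -, h4, -⟩ := halg x
    exact h4
  have sφ := hcut.sm
  have cφ := hcut.cs
  -- abbreviations
  obtain ⟨U, hUdef⟩ : ∃ U : V → ℝ, U = UU v := ⟨_, rfl⟩
  obtain ⟨W, hWdef⟩ : ∃ W : V → ℝ, W = WW v := ⟨_, rfl⟩
  obtain ⟨J, hJdef⟩ : ∃ J : V → ℝ, J = JJ v := ⟨_, rfl⟩
  obtain ⟨f, hfdef⟩ : ∃ f : V → ℝ, f = fun x => φ x * J x := ⟨_, rfl⟩
  obtain ⟨B, hBdef⟩ : ∃ B : V → ℝ, B = fun x => φ x * U x := ⟨_, rfl⟩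
  rw [← hUdef] at sU hrad
  rw [← hWdef] at sW hcirc
  rw [← hJdef] at sJ
  have sf : ContDiff ℝ ∞ f := by rw [hfdef]; exact sφ.mul sJ
  have cf : HasCompactSupport f := by rw [hfdef]; exact cφ.mul_right
  have sB : ContDiff ℝ ∞ B := by rw [hBdef]; exact sφ.mul sU
  have cB : HasCompactSupport B := by rw [hBdef]; exact cφ.mul_right
  have sφf : ContDiff ℝ ∞ (fun x => φ x * f x) := sφ.mul sf
  have cφf : HasCompactSupport (fun x => φ x * f x) := cφ.mul_right
  have sW2 : ContDiff ℝ ∞ (fun x => W x * pd 2 U x) := sW.mul (sm_pd sU 2)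
  have sWR : ContDiff ℝ ∞ (fun x => W x * RR U x) := sW.mul (sm_RR sU)
  have sG1 : ContDiff ℝ ∞ (fun x => (φ x * f x) * (W x * pd 2 U x)) := sφf.mul sW2
  have sG2 : ContDiff ℝ ∞ (fun x => (φ x * f x) * (W x * RR U x)) := sφf.mul sWR
  have cG1 : HasCompactSupport (fun x => (φ x * f x) * (W x * pd 2 U x)) := cφf.mul_right
  have cG2 : HasCompactSupport (fun x => (φ x * f x) * (W x * RR U x)) := cφf.mul_right
  have ib1 := int_RR sG1 cG1
  have ib2 := int_pd sG2 cG2 2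
  -- the remaining term
  obtain ⟨E, hE⟩ : ∃ E : V → ℝ, E = fun x => W x * U x * (RR f x * pd 2 φ x - pd 2 f x * RR φ x)
      + f x * (pd 2 φ x * W x * RR U x - RR φ x * W x * pd 2 U x) := ⟨_, rfl⟩
  obtain ⟨T, hT⟩ : ∃ T : V → ℝ, T = fun x => -(W x * (RR f x * pd 2 B x - pd 2 f x * RR B x))
      + E x := ⟨_, rfl⟩
  have hRB : ∀ x, RR B x = φ x * RR U x + U x * RR φ x := fun x => by
    rw [hBdef]
    exact RR_mul sφ sU x
  have h2B : ∀ x, pd 2 B x = φ x * pd 2 U x + U x * pd 2 φ x := fun x => by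
    rw [hBdef, pd_mul' sφ sU]
    ring
  have hid : ∀ x, φ x ^ 2 * JJ v x * SS v x
      = (2 * ((φ x * f x) * (W x * pd 2 U x))
        + RR (fun x => (φ x * f x) * (W x * pd 2 U x)) x)
        - pd 2 (fun x => (φ x * f x) * (W x * RR U x)) x + T x := by
    intro x
    rw [RR_mul sφf sW2, RR_mul sφ sf, RR_mul sW (sm_pd sU 2), pd_mul' sφf sWR, pd_mul' sφ sf,
      pd_mul' sW (sm_RR sU), pd2_RR sU, hT]
    simp only []
    rw [hRB x, h2B x, hE]
    unfold SS
    rw [← hUdef, ← hWdef, ← hJdef, hfdef]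
    ring
  have cG1c := sG1.continuous
  have iA : Integrable (fun x => (2 * ((φ x * f x) * (W x * pd 2 U x))
      + RR (fun x => (φ x * f x) * (W x * pd 2 U x)) x)) := by
    have j1 := cG1c.integrable_of_hasCompactSupport (μ := volume) cG1
    have cR : HasCompactSupport (RR (fun x => (φ x * f x) * (W x * pd 2 U x))) := by
      refine HasCompactSupport.intro cG1.isCompact fun x hx => ?_
      unfold RR
      rw [pd_off hx, pd_off hx]
      ring
    have j2 := (sm_RR sG1).continuous.integrable_of_hasCompactSupport (μ := volume) cR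
    exact (j1.const_mul 2).add j2
  have iB : Integrable (fun x => pd 2 (fun x => (φ x * f x) * (W x * RR U x)) x) :=
    (sm_pd sG2 2).continuous.integrable_of_hasCompactSupport (cs_pd cG2 2)
  have hφoff : ∀ x, x ∉ tsupport φ → φ x = 0 ∧ f x = 0 ∧ B x = 0 ∧ RR φ x = 0 ∧
      (∀ i, pd i φ x = 0) ∧ (∀ i, pd i f x = 0) ∧ (∀ i, pd i B x = 0) ∧ RR f x = 0 ∧
      RR B x = 0 := by
    intro x hx
    have h2 : φ x = 0 := image_eq_zero_of_notMem_tsupport hx
    have hf : x ∉ tsupport f := fun hh => hx (by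
      rw [hfdef] at hh
      exact tsupport_mul_subset_left hh)
    have hB : x ∉ tsupport B := fun hh => hx (by
      rw [hBdef] at hh
      exact tsupport_mul_subset_left hh)
    refine ⟨h2, by rw [hfdef]; simp [h2], by rw [hBdef]; simp [h2], ?_, fun i => pd_off hx i,
      fun i => pd_off hf i, fun i => pd_off hB i, ?_, ?_⟩
    · unfold RR
      rw [pd_off hx, pd_off hx]
      ring
    · unfold RR
      rw [pd_off hf, pd_off hf]
      ring
    · unfold RR
      rw [pd_off hB, pd_off hB]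
      ring
  have cT : Continuous T := by
    have c1 := sφ.continuous
    have c2 := sf.continuous
    have c3 := sW.continuous
    have c3' := sU.continuous
    have c4 := (sm_pd sU 2).continuous
    have c5 := (sm_RR sU).continuous
    have c6 := (sm_RR sf).continuous
    have c7 := (sm_pd sf 2).continuous
    have c8 := (sm_pd sφ 2).continuous
    have c9 := (sm_RR sφ).continuous
    have c10 := (sm_RR sB).continuous
    have c11 := (sm_pd sB 2).continuous
    rw [hT, hE]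
    fun_prop
  have sT : HasCompactSupport T := by
    refine HasCompactSupport.intro cφ.isCompact fun x hx => ?_
    obtain ⟨z1, z2, z3, z4, z5, z6, z7, z8, z9⟩ := hφoff x hx
    rw [hT, hE]
    simp only [z2, z4, z5, z6, z7, z8, z9]
    ring
  have iT : Integrable T := cT.integrable_of_hasCompactSupport sT
  have hint : ∫ x, φ x ^ 2 * JJ v x * SS v x = ∫ x, T x := by
    rw [integral_congr_ae (Eventually.of_forall hid)]
    have e1 := integral_add (iA.sub iB) iT
    have e2 := integral_sub iA iB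
    simp only [Pi.sub_apply] at e1 e2
    rw [e1, e2, ib1, ib2]
    ring
  -- pointwise facts
  have hgφ : ∀ x, x ∈ Cy c r1 h1 → ∀ i, pd i φ x = 0 := by
    intro x hx i
    apply pd_zero_of_max
    intro y
    rw [hcut.one x hx]
    exact hcut.le y
  have hOut : ∀ x ∈ Co c r h, x ∉ Cy c r1 h1 → x ∈ Out c r h r1 h1 := by
    intro x hx hx2
    refine ⟨hCoCy x hx, ?_⟩
    by_contra hcon
    push Not at hcon
    exact hx2 ⟨hcon.1.le, hcon.2.le⟩
  have hφ1 : ∀ x, |φ x| ≤ 1 := by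
    intro x
    rw [abs_of_nonneg (hcut.nn x)]
    exact hcut.le x
  have hsg1 : ∀ x ∈ Cy c r h, sg x ≤ 1 := by
    intro x hx
    have h3 : sg x ≤ r ^ 2 := hx.1
    nlinarith
  have hxi : ∀ x ∈ Cy c r h, |x 0| ≤ 1 ∧ |x 1| ≤ 1 := by
    intro x hx
    have h3 := hsg1 x hx
    unfold sg at h3
    constructor
    · apply abs_le_of_sq_le_sq _ zero_le_one
      nlinarith [sq_nonneg (x 1)]
    · apply abs_le_of_sq_le_sq _ zero_le_one
      nlinarith [sq_nonneg (x 0)]
  have hRRb : ∀ x ∈ Cy c r h, ∀ g : V → ℝ, |pd 0 g x| ≤ K → |pd 1 g x| ≤ K →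
      |RR g x| ≤ 2 * K := by
    intro x hx g g0 g1
    obtain ⟨k0, k1⟩ := hxi x hx
    unfold RR
    calc |x 0 * pd 0 g x + x 1 * pd 1 g x| ≤ |x 0| * |pd 0 g x| + |x 1| * |pd 1 g x| := by
          rw [← abs_mul, ← abs_mul]
          exact abs_add_le _ _
      _ ≤ 1 * K + 1 * K := by
          apply add_le_add
          · exact mul_le_mul k0 g0 (abs_nonneg _) zero_le_one
          · exact mul_le_mul k1 g1 (abs_nonneg _) zero_le_one
      _ = 2 * K := by ring
  -- the terms with derivatives of the cut-off function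
  have hEb : ∀ x, |E x| ≤ CE * (Cy c r h).indicator (fun _ => (1 : ℝ)) x := by
    intro x
    have hind : 0 ≤ (Cy c r h).indicator (fun _ => (1 : ℝ)) x :=
      indicator_nonneg (fun _ _ => zero_le_one) x
    by_cases hxs : x ∈ tsupport φ
    swap
    · obtain ⟨z1, z2, z3, z4, z5, z6, z7, z8, z9⟩ := hφoff x hxs
      rw [hE]
      simp only [z2, z4, z5, z6]
      simp only [mul_zero, zero_mul, sub_zero, add_zero, abs_zero]
      positivity
    have hx := hcut.supp hxs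
    rw [indicator_of_mem (hCoCy x hx), mul_one]
    by_cases hx2 : x ∈ Cy c r1 h1
    · have e0 := hgφ x hx2 0
      have e1 := hgφ x hx2 1
      have e2 := hgφ x hx2 2
      have e3 : RR φ x = 0 := by
        unfold RR
        rw [e0, e1]
        ring
      rw [hE]
      simp only [e3, e2, mul_zero, zero_mul, sub_zero, add_zero, abs_zero]
      exact hCEn
    · obtain ⟨-, bU, bW, bJ, -, bd⟩ := hbd x (hOut x hx hx2)
      rw [← hUdef] at bU
      rw [← hWdef] at bW
      rw [← hJdef] at bJ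
      have bd0 := (bd 0).1
      have bd1 := (bd 1).1
      have bd2 := (bd 2).1
      rw [← hUdef] at bd0 bd1 bd2
      have bj0 := (bd 0).2.2.1
      have bj1 := (bd 1).2.2.1
      have bj2 := (bd 2).2.2.1
      rw [← hJdef] at bj0 bj1 bj2
      obtain ⟨bφ, -, bR⟩ := hcut.bd x
      have bφ2 := bφ 2
      have bf : |f x| ≤ K := by
        rw [hfdef]
        show |φ x * J x| ≤ K
        rw [abs_mul]
        calc |φ x| * |J x| ≤ 1 * K := mul_le_mul (hφ1 x) bJ (abs_nonneg _) zero_le_one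
          _ = K := one_mul K
      have bR' : |RR φ x| ≤ K := bR.trans (by
        have := hsg1 x (hCoCy x hx)
        nlinarith)
      have bRU : |RR U x| ≤ 2 * K := hRRb x (hCoCy x hx) U bd0 bd1
      have bRJ : |RR J x| ≤ 2 * K := hRRb x (hCoCy x hx) J bj0 bj1
      have bRf : |RR f x| ≤ 2 * K + K * K := by
        rw [hfdef, RR_mul sφ sJ]
        refine (abs_add_le _ _).trans ?_
        rw [abs_mul, abs_mul]
        apply add_le_add
        · calc |φ x| * |RR J x| ≤ 1 * (2 * K) := mul_le_mul (hφ1 x) bRJ (abs_nonneg _) zero_le_one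
            _ = 2 * K := one_mul _
        · exact mul_le_mul bJ bR' (abs_nonneg _) hK
      have b2f : |pd 2 f x| ≤ K + K * K := by
        rw [hfdef, pd_mul' sφ sJ]
        refine (abs_add_le _ _).trans ?_
        rw [abs_mul, abs_mul]
        apply add_le_add
        · calc |φ x| * |pd 2 J x| ≤ 1 * K := mul_le_mul (hφ1 x) bj2 (abs_nonneg _) zero_le_one
            _ = K := one_mul _
        · exact mul_le_mul bφ2 bJ (abs_nonneg _) hK
      have tri : ∀ a b : ℝ, |a - b| ≤ |a| + |b| := fun a b => abs_sub a b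
      rw [hE, hCE]
      simp only []
      calc _ ≤ |W x * U x * (RR f x * pd 2 φ x - pd 2 f x * RR φ x)|
            + |f x * (pd 2 φ x * W x * RR U x - RR φ x * W x * pd 2 U x)| := abs_add_le _ _
        _ = |W x| * |U x| * |RR f x * pd 2 φ x - pd 2 f x * RR φ x|
            + |f x| * |pd 2 φ x * W x * RR U x - RR φ x * W x * pd 2 U x| := by
            simp only [abs_mul]
        _ ≤ |W x| * |U x| * (|RR f x * pd 2 φ x| + |pd 2 f x * RR φ x|)
            + |f x| * (|pd 2 φ x * W x * RR U x| + |RR φ x * W x * pd 2 U x|) := by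
            gcongr
            · exact tri _ _
            · exact tri _ _
        _ = |W x| * |U x| * (|RR f x| * |pd 2 φ x| + |pd 2 f x| * |RR φ x|)
            + |f x| * (|pd 2 φ x| * |W x| * |RR U x| + |RR φ x| * |W x| * |pd 2 U x|) := by
            simp only [abs_mul]
        _ ≤ K * K * ((2 * K + K * K) * K + (K + K * K) * K)
            + K * (K * K * (2 * K) + K * K * K) := by
            gcongr
        _ = 6 * K ^ 4 + 2 * K ^ 5 := by ring
  -- the main estimate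
  obtain ⟨w, hw⟩ : ∃ w : V → ℝ, w = fun x => sg x * W x ^ 2 * gr2 B x := ⟨_, rfl⟩
  have cw : Continuous w := by
    have c1 := sg_cont
    have c2 := sW.continuous
    have c3 := sm_gr2 sB
    rw [hw]
    fun_prop
  have kw : HasCompactSupport w := by
    refine HasCompactSupport.intro cφ.isCompact fun x hx => ?_
    obtain ⟨z1, z2, z3, z4, z5, z6, z7, z8, z9⟩ := hφoff x hx
    rw [hw]
    unfold gr2
    simp [z7]
  have iw : Integrable w := cw.integrable_of_hasCompactSupport kw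
  have igf : Integrable (gr2 f) := (sm_gr2 sf).integrable_of_hasCompactSupport (cs_gr2 cf)
  have igB : Integrable (gr2 B) := (sm_gr2 sB).integrable_of_hasCompactSupport (cs_gr2 cB)
  have iCy : Integrable ((Cy c r h).indicator (fun _ : V => (1 : ℝ))) := by
    rw [integrable_indicator_iff hCym]
    exact integrableOn_const hVf.ne
  have hTb : ∀ x, |2 * T x| ≤ 1 / 8 * gr2 f x + 8 * w x
      + 2 * CE * (Cy c r h).indicator (fun _ => (1 : ℝ)) x := by
    intro x
    have p1 := pt_main (w := W x) (a2 := pd 2 f x) (b2 := pd 2 B x) (sg_nonneg x) (RR_sq f x)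
      (RR_sq B x)
    have e1 : gr2 f x = pd 0 f x ^ 2 + pd 1 f x ^ 2 + pd 2 f x ^ 2 := by
      unfold gr2
      rw [Fin.sum_univ_three]
    have e2 : gr2 B x = pd 0 B x ^ 2 + pd 1 B x ^ 2 + pd 2 B x ^ 2 := by
      unfold gr2
      rw [Fin.sum_univ_three]
    rw [← e1, ← e2] at p1
    have p2 := hEb x
    have p3 : |T x| ≤ |W x * (RR f x * pd 2 B x - pd 2 f x * RR B x)| + |E x| := by
      rw [hT]
      refine (abs_add_le _ _).trans ?_
      rw [abs_neg]
    rw [abs_mul, abs_two, hw]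
    simp only []
    linarith
  have hfin : 2 * |∫ x, T x| ≤ 1 / 8 * GD f + 8 * (∫ x, w x) + 2 * CE * V0 := by
    have e0 : 2 * |∫ x, T x| = |∫ x, 2 * T x| := by
      rw [integral_const_mul, abs_mul, abs_two]
    rw [e0]
    refine abs_integral_le_integral_abs.trans ?_
    have j1 := (igf.const_mul (1 / 8)).add (iw.const_mul 8)
    refine (integral_mono (iT.const_mul 2).abs (j1.add (iCy.const_mul (2 * CE)))
      (fun x => hTb x)).trans (le_of_eq ?_)
    have e1 := integral_add j1 (iCy.const_mul (2 * CE))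
    have e3 := integral_add (igf.const_mul (1 / 8)) (iw.const_mul 8)
    simp only [Pi.add_apply] at e1 e3 ⊢
    rw [e1, e3, integral_const_mul, integral_const_mul, integral_const_mul,
      integral_indicator hCym]
    have e5 : ∫ x in Cy c r h, (1 : ℝ) = V0 := by
      rw [hV0]
      simp [Measure.real]
    rw [e5]
    rfl
  have hJ' : (fun x => φ x * JJ v x) = f := by rw [hfdef, hJdef]
  have hw' : (∫ x, sg x * WW v x ^ 2 * gr2 (fun y => φ y * UU v y) x) = ∫ x, w x := by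
    rw [hw, hBdef, hUdef, hWdef]
  rw [hJ', hint, hw', ← hV0, ← hCE]
  exact hfin

lemma tsupport_pd_sub {B : V → ℝ} (j : Fin 3) : tsupport (pd j B) ⊆ tsupport B := by
  refine closure_minimal (fun x hx => ?_) (isClosed_tsupport B)
  by_contra h
  exact hx (pd_off h j)

/-- the sum of the Dirichlet integrals of the derivatives -/
lemma HD_sum {B : V → ℝ} (sB : ContDiff ℝ ∞ B) (cB : HasCompactSupport B) :
    HD B = GD (pd 0 B) + GD (pd 1 B) + GD (pd 2 B) := by
  have i : ∀ j : Fin 3, Integrable (gr2 (pd j B)) := fun j =>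
    (sm_gr2 (sm_pd sB j)).integrable_of_hasCompactSupport (cs_gr2 (cs_pd cB j))
  unfold GD
  have s1 := integral_add ((i 0).add (i 1)) (i 2)
  have s2 := integral_add (i 0) (i 1)
  simp only [Pi.add_apply] at s1 s2
  rw [← s2, ← s1]
  unfold HD
  refine integral_congr_ae (Eventually.of_forall fun x => ?_)
  simp only [hs2, gr2, Fin.sum_univ_three]
  ring

/-- The stretching term in the equation of `J`. -/
theorem T1S (hAlg : StmAlg) (hHar : StmHar) (hU : StmU) (j l : ℕ) {κ K c r h r1 h1 C₀ ε : ℝ}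
    (hκ : 1 < κ * (l + 1)) (hκ2 : κ < 4 / 3)
    (hK : 0 ≤ K) (hr1 : 0 < r1) (hr : r1 < r) (hre : r ^ 2 ≤ Real.exp (-2)) (hh1 : 0 < h1)
    (hh : h1 < h) (hhle : h ≤ 1) (hC₀ : 0 ≤ C₀) (hε : 0 < ε) :
    ∃ C : ℝ, 0 ≤ C ∧ ∀ (N : ℝ) (v : V → V) (φ : V → ℝ), 0 ≤ N → ContDiff ℝ ∞ v → Axi v →
      DFO (Co c r h) v → Cut c r h r1 h1 K φ → (∀ x ∈ Out c r h r1 h1, BdA K v x) →
      (∀ x ∈ Co c r h, |circ v x| ≤ C₀) → ∫ x in Co c r h, ww j l (WW v) x ^ 2 ≤ N →
      2 * |∫ x, φ x ^ 2 * JJ v x * SS v x| ≤ 1 / 8 * GD (fun x => φ x * JJ v x)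
        + ε * GD (fun x => φ x * OO v x)
        + C * (1 + N ^ (2 * κ / (4 - 3 * κ))) * (1 + ∫ x, φ x ^ 2 * OO v x ^ 2) := by
  have hr0 : 0 < r := hr1.trans hr
  have hrle : r ≤ 1 := by
    have h3 : Real.exp (-2) ≤ 1 := Real.exp_le_one_iff.2 (by norm_num)
    nlinarith
  obtain ⟨CU, hCU, hUC⟩ := hU K c r h r1 h1 hK hr1 hr hrle hh1 hh hhle
  obtain ⟨δ, hδ⟩ : ∃ δ : ℝ, δ = ε / (16 * (C₀ + 1)) := ⟨_, rfl⟩
  have hδ0 : 0 < δ := by rw [hδ]; positivity
  obtain ⟨C₁, hC₁, hst⟩ := star hHar j l (r := r) (ε := δ) hκ hκ2 hr0.le hre hδ0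
  obtain ⟨V0, hV0⟩ : ∃ V0 : ℝ, V0 = volume.real (Cy c r h) := ⟨_, rfl⟩
  have hV0n : 0 ≤ V0 := by
    rw [hV0]
    exact measureReal_nonneg
  refine ⟨8 * C₀ * δ * CU + 8 * C₀ * C₁ * CU + 2 * (6 * K ^ 4 + 2 * K ^ 5) * V0, by positivity,
    fun N v φ hN hv hax hdiv hcut hbd hc0 hw2 => ?_⟩
  obtain ⟨⟨sU, sW, sJ, sO⟩, -, -, halg⟩ := hAlg v hv hax
  obtain ⟨uH, uG, -, -⟩ := hUC v φ hv hax hdiv hcut hbd
  have hcore := T1core hAlg hK hr1 hr hrle hv hax hcut hbd
  rw [← hV0] at hcore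
  obtain ⟨B, hB⟩ : ∃ B : V → ℝ, B = fun x => φ x * UU v x := ⟨_, rfl⟩
  rw [← hB] at hcore uH uG
  have sB : ContDiff ℝ ∞ B := by rw [hB]; exact hcut.sm.mul sU
  have cB : HasCompactSupport B := by rw [hB]; exact hcut.cs.mul_right
  have tB : tsupport B ⊆ Co c r h := by
    rw [hB]
    exact (tsupport_mul_subset_left).trans hcut.supp
  have hpi : ∀ i, Integrable (fun x => |WW v x| * pd i B x ^ 2) := by
    intro i
    refine (sW.continuous.abs.mul ((sm_pd sB i).continuous.pow 2)).integrable_of_hasCompactSupport ?_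
    refine HasCompactSupport.intro cB.isCompact fun x hx => ?_
    show |WW v x| * pd i B x ^ 2 = 0
    rw [pd_off hx]
    norm_num
  have hp2 : ∀ i, Integrable (fun x => pd i B x ^ 2) := by
    intro i
    refine ((sm_pd sB i).continuous.pow 2).integrable_of_hasCompactSupport ?_
    refine HasCompactSupport.intro cB.isCompact fun x hx => ?_
    show pd i B x ^ 2 = 0
    rw [pd_off hx]
    norm_num
  obtain ⟨Z, hZ⟩ : ∃ Z : ℝ, Z = 1 + N ^ (2 * κ / (4 - 3 * κ)) := ⟨_, rfl⟩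
  have hZ1 : 1 ≤ Z := by
    rw [hZ]
    have : 0 ≤ N ^ (2 * κ / (4 - 3 * κ)) := by positivity
    linarith
  have hZ0 : 0 ≤ Z := by linarith
  have hsj : ∀ i, ∫ x, |WW v x| * pd i B x ^ 2 ≤ δ * GD (pd i B)
      + C₁ * Z * ∫ x, pd i B x ^ 2 := fun i => by
    rw [hZ]
    exact hst N c h (WW v) (pd i B) hN sW (sm_pd sB i) (cs_pd cB i)
      ((tsupport_pd_sub i).trans tB) hw2
  have hgr : GD B = (∫ x, pd 0 B x ^ 2) + (∫ x, pd 1 B x ^ 2) + ∫ x, pd 2 B x ^ 2 := by
    have s1 := integral_add ((hp2 0).add (hp2 1)) (hp2 2)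
    have s2 := integral_add (hp2 0) (hp2 1)
    simp only [Pi.add_apply] at s1 s2
    rw [← s2, ← s1]
    unfold GD
    refine integral_congr_ae (Eventually.of_forall fun x => ?_)
    simp only [gr2, Fin.sum_univ_three]
  have hwle : ∫ x, sg x * WW v x ^ 2 * gr2 B x ≤ C₀ * ((∫ x, |WW v x| * pd 0 B x ^ 2)
      + (∫ x, |WW v x| * pd 1 B x ^ 2) + ∫ x, |WW v x| * pd 2 B x ^ 2) := by
    have s1 := integral_add ((hpi 0).add (hpi 1)) (hpi 2)
    have s2 := integral_add (hpi 0) (hpi 1)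
    simp only [Pi.add_apply] at s1 s2
    rw [← s2, ← s1, ← integral_const_mul]
    refine integral_mono ?_ ((((hpi 0).add (hpi 1)).add (hpi 2)).const_mul C₀) fun x => ?_
    · refine ((sg_cont.mul (sW.continuous.pow 2)).mul (sm_gr2 sB)).integrable_of_hasCompactSupport ?_
      refine HasCompactSupport.intro cB.isCompact fun x hx => ?_
      show sg x * WW v x ^ 2 * gr2 B x = 0
      unfold gr2
      simp [pd_off hx]
    · simp only [Pi.add_apply]
      by_cases hx : x ∈ tsupport B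
      · have h1 := hc0 x (tB hx)
        have h2 : circ v x = sg x * WW v x := (halg x).2.2.2.2.2.2.2.2.1
        rw [h2, abs_mul, abs_of_nonneg (sg_nonneg x)] at h1
        have h3 : 0 ≤ |WW v x| * gr2 B x := mul_nonneg (abs_nonneg _) (gr2_nonneg _ _)
        calc sg x * WW v x ^ 2 * gr2 B x = (sg x * |WW v x|) * (|WW v x| * gr2 B x) := by
              rw [← sq_abs (WW v x)]
              ring
          _ ≤ C₀ * (|WW v x| * gr2 B x) := mul_le_mul_of_nonneg_right h1 h3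
          _ = _ := by
              unfold gr2
              rw [Fin.sum_univ_three]
              ring
      · unfold gr2
        simp [pd_off hx]
  have hGnn : 0 ≤ GD (fun x => φ x * OO v x) := integral_nonneg fun x => gr2_nonneg _ x
  have hOnn : 0 ≤ ∫ x, φ x ^ 2 * OO v x ^ 2 := integral_nonneg fun x => by positivity
  have hfin : ∫ x, sg x * WW v x ^ 2 * gr2 B x ≤ C₀ * (δ * HD B + C₁ * Z * GD B) := by
    refine hwle.trans (mul_le_mul_of_nonneg_left ?_ hC₀)
    rw [HD_sum sB cB, hgr]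
    have := hsj 0
    have := hsj 1
    have := hsj 2
    linarith
  have h16 : 16 * C₀ * δ ≤ ε := by
    rw [hδ]
    have : 16 * C₀ * (ε / (16 * (C₀ + 1))) = ε * (C₀ / (C₀ + 1)) := by
      field_simp
    rw [this]
    have h5 : C₀ / (C₀ + 1) ≤ 1 := by
      rw [div_le_one (by positivity)]
      linarith
    exact mul_le_of_le_one_right hε.le h5
  rw [← hZ]
  obtain ⟨G, hG⟩ : ∃ G : ℝ, G = GD (fun x => φ x * OO v x) := ⟨_, rfl⟩
  obtain ⟨O2, hO2⟩ : ∃ O2 : ℝ, O2 = ∫ x, φ x ^ 2 * OO v x ^ 2 := ⟨_, rfl⟩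
  rw [← hG] at hGnn uH ⊢
  rw [← hO2] at hOnn uG ⊢
  have a1 : C₀ * δ * HD B ≤ C₀ * δ * (2 * G + CU) :=
    mul_le_mul_of_nonneg_left uH (by positivity)
  have a2 : C₀ * C₁ * Z * GD B ≤ C₀ * C₁ * Z * (CU * (1 + O2)) :=
    mul_le_mul_of_nonneg_left uG (by positivity)
  have a3 : 16 * C₀ * δ * G ≤ ε * G := mul_le_mul_of_nonneg_right h16 hGnn
  have hX : 1 ≤ Z * (1 + O2) := one_le_mul_of_one_le_of_one_le hZ1 (by linarith)
  have a4 : 8 * C₀ * δ * CU ≤ 8 * C₀ * δ * CU * (Z * (1 + O2)) :=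
    le_mul_of_one_le_right (by positivity) hX
  have a5 : 2 * (6 * K ^ 4 + 2 * K ^ 5) * V0 ≤ 2 * (6 * K ^ 4 + 2 * K ^ 5) * V0 * (Z * (1 + O2)) :=
    le_mul_of_one_le_right (by positivity) hX
  have e1 : (8 * C₀ * δ * CU + 8 * C₀ * C₁ * CU + 2 * (6 * K ^ 4 + 2 * K ^ 5) * V0) * Z * (1 + O2)
      = 8 * C₀ * δ * CU * (Z * (1 + O2)) + 8 * (C₀ * C₁ * Z * (CU * (1 + O2)))
        + 2 * (6 * K ^ 4 + 2 * K ^ 5) * V0 * (Z * (1 + O2)) := by ring
  rw [e1]
  linarith

/-- The term with the product in the equation of `Ω`. -/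
theorem T2S (hAlg : StmAlg) (hHar : StmHar) (j l : ℕ) {κ K r h r1 h1 c ε : ℝ}
    (hκ : 1 < κ * (l + 1)) (hκ2 : κ < 4 / 3)
    (hr1 : 0 < r1) (hr : r1 < r) (hre : r ^ 2 ≤ Real.exp (-2)) (hε : 0 < ε) :
    ∃ C : ℝ, 0 ≤ C ∧ ∀ (N : ℝ) (v : V → V) (φ : V → ℝ), 0 ≤ N → ContDiff ℝ ∞ v → Axi v →
      Cut c r h r1 h1 K φ → ∫ x in Co c r h, ww j l (WW v) x ^ 2 ≤ N →
      4 * |∫ x, φ x ^ 2 * OO v x * (WW v x * JJ v x)| ≤
        ε * (GD (fun x => φ x * JJ v x) + GD (fun x => φ x * OO v x))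
        + C * (1 + N ^ (2 * κ / (4 - 3 * κ)))
          * ((∫ x, φ x ^ 2 * JJ v x ^ 2) + ∫ x, φ x ^ 2 * OO v x ^ 2) := by
  have hr0 : 0 < r := hr1.trans hr
  obtain ⟨C₁, hC₁, hst⟩ := star hHar j l (r := r) (ε := ε / 2) hκ hκ2 hr0.le hre (by positivity)
  refine ⟨2 * C₁, by positivity, fun N v φ hN hv hax hcut hw2 => ?_⟩
  obtain ⟨⟨sU, sW, sJ, sO⟩, -, -, halg⟩ := hAlg v hv hax
  obtain ⟨Z, hZ⟩ : ∃ Z : ℝ, Z = 1 + N ^ (2 * κ / (4 - 3 * κ)) := ⟨_, rfl⟩
  rw [← hZ]
  have key : ∀ F : V → ℝ, ContDiff ℝ ∞ F → Integrable (fun x => |WW v x| * (φ x * F x) ^ 2) ∧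
      ∫ x, |WW v x| * (φ x * F x) ^ 2 ≤ ε / 2 * GD (fun x => φ x * F x)
        + C₁ * Z * ∫ x, φ x ^ 2 * F x ^ 2 := by
    intro F sF
    constructor
    · refine (sW.continuous.abs.mul ((hcut.sm.continuous.mul
        sF.continuous).pow 2)).integrable_of_hasCompactSupport ?_
      refine HasCompactSupport.intro hcut.cs.isCompact fun x hx => ?_
      show |WW v x| * (φ x * F x) ^ 2 = 0
      rw [image_eq_zero_of_notMem_tsupport hx]
      norm_num
    · have h1 := hst N c h (WW v) (fun x => φ x * F x) hN sW (hcut.sm.mul sF) hcut.cs.mul_right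
        ((tsupport_mul_subset_left).trans hcut.supp) hw2
      rw [← hZ] at h1
      have e : ∫ x, (φ x * F x) ^ 2 = ∫ x, φ x ^ 2 * F x ^ 2 :=
        integral_congr_ae (Eventually.of_forall fun x => by beta_reduce; ring)
      rw [e] at h1
      exact h1
  obtain ⟨iJ, bJ⟩ := key _ sJ
  obtain ⟨iO, bO⟩ := key _ sO
  have h1 : 4 * |∫ x, φ x ^ 2 * OO v x * (WW v x * JJ v x)| ≤
      ∫ x, (2 * (|WW v x| * (φ x * JJ v x) ^ 2) + 2 * (|WW v x| * (φ x * OO v x) ^ 2)) := by
    have e0 : 4 * |∫ x, φ x ^ 2 * OO v x * (WW v x * JJ v x)| =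
        |∫ x, 4 * (φ x ^ 2 * OO v x * (WW v x * JJ v x))| := by
      rw [integral_const_mul, abs_mul, abs_of_pos (by norm_num : (0 : ℝ) < 4)]
    rw [e0]
    refine abs_integral_le_integral_abs.trans ?_
    refine integral_mono_of_nonneg (Eventually.of_forall fun x => abs_nonneg _)
      ((iJ.const_mul 2).add (iO.const_mul 2)) (Eventually.of_forall fun x => ?_)
    beta_reduce
    have e1 : |4 * (φ x ^ 2 * OO v x * (WW v x * JJ v x))| =
        |WW v x| * (4 * (|φ x * OO v x| * |φ x * JJ v x|)) := by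
      have : 4 * (φ x ^ 2 * OO v x * (WW v x * JJ v x)) =
        WW v x * (4 * ((φ x * OO v x) * (φ x * JJ v x))) := by ring
      rw [this, abs_mul, abs_mul, abs_mul (φ x * OO v x),
        abs_of_pos (by norm_num : (0 : ℝ) < 4)]
    rw [e1]
    have e2 : 4 * (|φ x * OO v x| * |φ x * JJ v x|) ≤
        2 * (φ x * JJ v x) ^ 2 + 2 * (φ x * OO v x) ^ 2 := by
      rw [← sq_abs (φ x * JJ v x), ← sq_abs (φ x * OO v x)]
      nlinarith [sq_nonneg (|φ x * OO v x| - |φ x * JJ v x|)]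
    have e3 := mul_le_mul_of_nonneg_left e2 (abs_nonneg (WW v x))
    linarith
  have s1 := integral_add (iJ.const_mul 2) (iO.const_mul 2)
  rw [s1, integral_const_mul, integral_const_mul] at h1
  linarith

end Pool.Agent.V8H53.AX
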