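import Pool.Agent.V8H53.AX.EnA
import Pool.Agent.Q257.AXI.Alg
import Pool.Agent.TH305.AX.Touch

/-!
The differential inequality for `∫ ρ ^ (-4 b) Γ ^ (2 k)` from the condition on the inflow.
-/

set_option autoImplicit false

open MeasureTheory Set Metric Filter Topology
open scoped ContDiff ENNReal
open H459R3.NS Pool.Agent.W268.NS Pool.Agent.Q67.VD

namespace Pool.Agent.V8H53.AX

open Pool.Agent.Q85.CC Pool.Agent.Q85.CL Pool.Agent.TH305.AX Pool.Agent.Q67.AXI
open Pool.Agent.W583.MD (sm_pd pd_mul')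
open Pool.Agent.Q95.AXP (cy_compact)
open Pool.Agent.Q285.AXI (slice co_mono gsq_nn dis_int)
open Pool.Agent.Q149.AXI (pd_off gr2_nonneg)

/-- the pointwise inequality where the circulation is small -/
lemma ptB (j l : ℕ) {s W U β M : ℝ} (hs : 0 < s) (hs1 : s ≤ 1)
    (hn2 : 4 * l + 2 ≤ β * (2 * j + 2 * l + 3))
    (hM : 0 ≤ M) (h : |s * W| ≤ M * s ^ (β / 2)) :
    -4 * (l + 1) * U * (s ^ (j + 1) * W ^ (j + l + 2)) ^ 2 ≤
      2 * (l + 1) * M ^ (2 * j + 2 * l + 3) * (U ^ 2 + W ^ 2) := by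
  obtain ⟨z, hz⟩ : ∃ z : ℝ, z = s ^ (2 * j + 1) * W ^ (2 * (j + l + 2)) := ⟨_, rfl⟩
  have hz0 : 0 ≤ z := by
    rw [hz, pow_mul]
    positivity
  have e1 : (s ^ (j + 1) * W ^ (j + l + 2)) ^ 2 = s * z := by
    rw [hz]
    ring
  rw [e1]
  have hl1 : (0 : ℝ) < (l : ℝ) + 1 := by positivity
  have h1 : (s * |W|) ^ (2 * j + 2 * l + 3) ≤ M ^ (2 * j + 2 * l + 3) * s ^ (2 * l + 1) := by
    have h2 : s * |W| ≤ M * s ^ (β / 2) := by
      rw [abs_mul, abs_of_pos hs] at h
      exact h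
    refine (pow_le_pow_left₀ (by positivity) h2 _).trans ?_
    rw [mul_pow]
    refine mul_le_mul_of_nonneg_left ?_ (by positivity)
    rw [← Real.rpow_natCast (s ^ (β / 2)), ← Real.rpow_mul hs.le, ← Real.rpow_natCast s]
    refine Real.rpow_le_rpow_of_exponent_ge hs hs1 ?_
    push_cast
    linarith
  have h2 : s ^ (2 * j + 2) * |W| ^ (2 * j + 2 * l + 3) ≤ M ^ (2 * j + 2 * l + 3) := by
    have e4 : (s * |W|) ^ (2 * j + 2 * l + 3) =
        s ^ (2 * j + 2) * |W| ^ (2 * j + 2 * l + 3) * s ^ (2 * l + 1) := by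
      rw [mul_pow, show 2 * j + 2 * l + 3 = (2 * j + 2) + (2 * l + 1) by ring, pow_add s]
      ring
    rw [e4] at h1
    exact le_of_mul_le_mul_right h1 (by positivity)
  have e5 : s * z = (s ^ (2 * j + 2) * |W| ^ (2 * j + 2 * l + 3)) * |W| := by
    have : |W| ^ (2 * j + 2 * l + 3) * |W| = W ^ (2 * (j + l + 2)) := by
      rw [← pow_succ, show 2 * j + 2 * l + 3 + 1 = 2 * (j + l + 2) by ring, pow_mul, sq_abs,
        ← pow_mul]
    rw [mul_assoc, this, hz]
    ring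
  have h3 : s * z ≤ M ^ (2 * j + 2 * l + 3) * |W| := by
    rw [e5]
    exact mul_le_mul_of_nonneg_right h2 (abs_nonneg _)
  have h4 : -4 * (l + 1) * U * (s * z) ≤
      (l + 1) * (4 * (|U| * (M ^ (2 * j + 2 * l + 3) * |W|))) := by
    have h5 : -U * (s * z) ≤ |U| * (s * z) :=
      mul_le_mul_of_nonneg_right (neg_le_abs U) (by positivity)
    have h6 := mul_le_mul_of_nonneg_left h3 (abs_nonneg U)
    have h7 : 4 * (-U * (s * z)) ≤ 4 * (|U| * (M ^ (2 * j + 2 * l + 3) * |W|)) := by linarith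
    have h8 := mul_le_mul_of_nonneg_left h7 hl1.le
    linarith
  have h7 : 4 * (|U| * (M ^ (2 * j + 2 * l + 3) * |W|)) ≤
      2 * M ^ (2 * j + 2 * l + 3) * (U ^ 2 + W ^ 2) := by
    have h8 : 2 * (|U| * |W|) ≤ U ^ 2 + W ^ 2 := by
      rw [← sq_abs U, ← sq_abs W]
      nlinarith [sq_nonneg (|U| - |W|)]
    have h9 := mul_le_mul_of_nonneg_left h8
      (show 0 ≤ 2 * M ^ (2 * j + 2 * l + 3) by positivity)
    linarith
  have h8 := mul_le_mul_of_nonneg_left h7 hl1.le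
  linarith

/-- The region where the circulation is larger than `M ρ ^ β`. -/
def Rgn (β M : ℝ) (v : V → V) : Set V := {x | M * sg x ^ (β / 2) < |circ v x|}

/-- The region where the radial velocity is positive or the circulation is larger than
`M ρ ^ β`. -/
def Rgs (β M : ℝ) (v : V → V) : Set V := {x | 0 < rad v x} ∪ Rgn β M v

/-- The form inequality at one time, with viscosity `ν`. -/
def Form (ν : ℝ) (l : ℕ) (δ β M A : ℝ) (O : Set V) (v : V → V) : Prop :=
  ∀ g : V → ℝ, ContDiff ℝ ∞ g → HasCompactSupport g → AxF g → tsupport g ⊆ O →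
    (∀ x, sg x = 0 → g x = 0) →
    -(∫ x in Rgs β M v, rad v x / sg x * g x ^ 2) ≤
      (1 - δ) * ν * (∫ x, (gr2 g x / (l + 1) + 2 * g x ^ 2 / sg x)) + A * ∫ x, g x ^ 2

lemma rgn_meas {β M : ℝ} (hβ : 0 < β) {v : V → V} (hv : Continuous v) :
    MeasurableSet (Rgn β M v) := by
  have h1 : Continuous fun x : V => M * sg x ^ (β / 2) :=
    continuous_const.mul (Pool.Agent.Q95.AXP.sg_cont.rpow_const fun x => Or.inr (by positivity))
  have h2 : Continuous (circ v) := by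
    have hi : ∀ i, Continuous fun x => v x i := fun i => (continuous_apply i).comp hv
    unfold circ
    exact ((continuous_apply 0).mul (hi 1)).sub ((continuous_apply 1).mul (hi 0))
  exact (isOpen_lt h1 h2.abs).measurableSet

lemma rgs_meas {β M : ℝ} (hβ : 0 < β) {v : V → V} (hv : Continuous v) :
    MeasurableSet (Rgs β M v) := by
  have h2 : Continuous (rad v) := by
    have hi : ∀ i, Continuous fun x => v x i := fun i => (continuous_apply i).comp hv
    unfold rad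
    exact ((continuous_apply 0).mul (hi 0)).add ((continuous_apply 1).mul (hi 1))
  exact (isOpen_lt continuous_const h2).measurableSet.union (rgn_meas hβ hv)

/-- the differential inequality at a good time -/
theorem goodA (hAlg : StmAlg) (hEqW : StmEqW) (hEn : Pool.Agent.Q67.AXI.StmEn) (j l : ℕ)
    {T E c R H K r h r1 h1 δ β M b : ℝ}
    {u : ℝ → V → V} {p : ℝ → V → ℝ} {φ : V → ℝ}
    (hsol : AxL T E c R H u p) (hK : 1 ≤ K) (hr1 : 0 < r1) (hr1r : r1 < r) (hrR : r < R)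
    (hr2 : r ≤ 1) (hhH : h < H)
    (hcut : Cut c r h r1 h1 K φ) {t : ℝ} (ht : t ∈ Ioo 0 T)
    (hout : ∀ x ∈ Out c r h r1 h1, BdA K (u t) x) (hδ0 : 0 < δ)
    (hn0 : 1 ≤ δ * ((j : ℝ) + l + 2)) (hn1 : (1 - δ) * ((j : ℝ) + l + 2) ≤ j + 1)
    (hn2 : 4 * l + 2 ≤ β * (2 * j + 2 * l + 3)) (hβ : 0 < β) (hM : 0 ≤ M)
    (hform : Form 1 l δ β M b (Co c R H) (u t)) :
    ∫ x, 2 * φ x ^ 2 * ww j l (WW (u t)) x * deriv (fun s => ww j l (WW (u s)) x) t ≤
      4 * (l + 1) * |b| * (∫ x, φ x ^ 2 * ww j l (WW (u t)) x ^ 2)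
      + 2 * (l + 1) * M ^ (2 * j + 2 * l + 3) * (∫ x in Co c r h, W221.NS.gsq (u t) x)
      + volume.real (Cy c r h) * (K ^ (j + l + 2)) ^ 2 *
        (12 * (K ^ (j + l + 2)) ^ 2 + 4 * K ^ (j + l + 2) + 8 * K + 6 * K ^ 2 / δ) := by
  have hl1 : (0 : ℝ) < (l : ℝ) + 1 := by positivity
  have hr0 : 0 < r := hr1.trans hr1r
  have hsub : Co c r h ⊆ Co c R H := co_mono hr0 hrR hhH
  have hu := slice hsol.smooth_u ht
  have hax := hsol.axi t ht
  obtain ⟨⟨sU, sW, sJ, sO⟩, -, -, halg⟩ := hAlg (u t) hu hax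
  have hcirc : ∀ x, circ (u t) x = sg x * WW (u t) x := fun x => (halg x).2.2.2.2.2.2.2.2.1
  have hrad : ∀ x, rad (u t) x = sg x * UU (u t) x := fun x => (halg x).2.2.2.2.2.2.2.2.2.1
  have sw := ww_sm sW j l
  have sw0 := w0_sm sW j l
  have h0 := enA hAlg hEqW hEn j l hδ0 hsol hK hr1 hr1r hrR hr2 hhH hcut ht hout
  have hcc := cy_compact c (r := r) (h := h) hr0
  have hcy : Co c r h ⊆ Cy c r h := fun x hx => ⟨hx.1.le, hx.2.le⟩
  have hcm : MeasurableSet (Co c r h) := by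
    have o1 : IsOpen {x : V | sg x < r ^ 2} :=
      isOpen_lt Pool.Agent.Q95.AXP.sg_cont continuous_const
    have o2 : IsOpen {x : V | |x 2 - c| < h} := isOpen_lt (by fun_prop) continuous_const
    exact (o1.inter o2).measurableSet
  have hRm : MeasurableSet (Rgs β M (u t)) := rgs_meas hβ hu.continuous
  -- the test function
  obtain ⟨g, hg⟩ : ∃ g : V → ℝ, g = fun x => φ x * ww j l (WW (u t)) x := ⟨_, rfl⟩
  have sg' : ContDiff ℝ ∞ g := by rw [hg]; exact hcut.sm.mul sw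
  have cg : HasCompactSupport g := by rw [hg]; exact hcut.cs.mul_right
  have aW : AxF (WW (u t)) := Pool.Agent.Q257.AXI.axf_WW hu hax
  have hsgrot : ∀ (θ : ℝ) (x : V), sg (rot θ x) = sg x := Pool.Agent.TH305.AX.sg_rot
  have ag : AxF g := by
    intro θ x
    rw [hg]
    beta_reduce
    unfold ww
    rw [hcut.ax θ x, aW θ x, hsgrot]
  have tg : tsupport g ⊆ Co c R H := by
    rw [hg]
    exact ((tsupport_mul_subset_left).trans hcut.supp).trans hsub
  have zg : ∀ x, sg x = 0 → g x = 0 := by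
    intro x hx
    rw [hg]
    beta_reduce
    unfold ww
    rw [hx]
    ring
  have hF := hform g sg' cg ag tg zg
  rw [mul_one] at hF
  have hg2 : ∀ x, g x ^ 2 = φ x ^ 2 * ww j l (WW (u t)) x ^ 2 := fun x => by
    rw [hg]
    ring
  have hg0 : ∀ x, sg x ≠ 0 → 2 * g x ^ 2 / sg x = 2 * (φ x ^ 2 * w0 j l (WW (u t)) x) := by
    intro x hx
    rw [hg2, ww_sq]
    field_simp
  have hic : ∀ f : V → ℝ, Continuous f → Integrable (fun x => φ x ^ 2 * f x) := fun f hf => by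
    refine ((hcut.sm.continuous.pow 2).mul hf).integrable_of_hasCompactSupport ?_
    refine HasCompactSupport.intro hcut.cs.isCompact fun x hx => ?_
    show φ x ^ 2 * f x = 0
    rw [image_eq_zero_of_notMem_tsupport hx]
    ring
  have i1 : Integrable (fun x => φ x ^ 2 * ww j l (WW (u t)) x ^ 2) :=
    hic (fun x => ww j l (WW (u t)) x ^ 2) (sw.continuous.pow 2)
  have i0 : Integrable (fun x => φ x ^ 2 * w0 j l (WW (u t)) x) := hic _ sw0.continuous
  have iU : Integrable (fun x => φ x ^ 2 * (UU (u t) x * ww j l (WW (u t)) x ^ 2)) :=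
    hic (fun x => UU (u t) x * ww j l (WW (u t)) x ^ 2)
      (sU.continuous.mul (sw.continuous.pow 2))
  have igg : Integrable (gr2 g) :=
    (gr2_smooth sg').continuous.integrable_of_hasCompactSupport
      (Pool.Agent.Q149.AXI.cs_gr2 cg)
  have eF1 : ∫ x, (gr2 g x / ((l : ℝ) + 1) + 2 * g x ^ 2 / sg x) =
      GD g / (l + 1) + 2 * ∫ x, φ x ^ 2 * w0 j l (WW (u t)) x := by
    have e1 : ∫ x, (gr2 g x / ((l : ℝ) + 1) + 2 * g x ^ 2 / sg x) =
        ∫ x, (gr2 g x / ((l : ℝ) + 1) + 2 * (φ x ^ 2 * w0 j l (WW (u t)) x)) := by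
      refine integral_congr_ae ?_
      filter_upwards [Pool.Agent.Q111.AXI.ae_sg] with x hx
      rw [hg0 x hx]
    rw [e1, integral_add (igg.div_const _) (i0.const_mul 2), integral_const_mul,
      integral_div]
    rfl
  have eF2 : ∫ x, g x ^ 2 = ∫ x, φ x ^ 2 * ww j l (WW (u t)) x ^ 2 :=
    integral_congr_ae (Eventually.of_forall fun x => hg2 x)
  have eF3 : ∫ x in Rgs β M (u t), rad (u t) x / sg x * g x ^ 2 =
      ∫ x, (Rgs β M (u t)).indicator
        (fun x => φ x ^ 2 * (UU (u t) x * ww j l (WW (u t)) x ^ 2)) x := by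
    rw [← integral_indicator hRm]
    refine integral_congr_ae ?_
    filter_upwards [Pool.Agent.Q111.AXI.ae_sg] with x hx
    by_cases hxR : x ∈ Rgs β M (u t)
    · rw [indicator_of_mem hxR, indicator_of_mem hxR, hrad, hg2]
      field_simp
    · rw [indicator_of_notMem hxR, indicator_of_notMem hxR]
  rw [eF1, eF2, eF3] at hF
  have iR := iU.indicator hRm
  have hgc : Continuous (W221.NS.gsq (u t)) := by
    have hi : ∀ i, ContDiff ℝ ∞ (fun y => u t y i) := fun i => contDiff_pi.1 hu i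
    unfold W221.NS.gsq
    exact continuous_finsetSum _ fun i _ => continuous_finsetSum _ fun j _ =>
      (sm_pd (hi i) j).continuous.pow 2
  have hgi : IntegrableOn (W221.NS.gsq (u t)) (Co c r h) :=
    (hgc.continuousOn.integrableOn_compact hcc).mono_set hcy
  have hgi' := (integrable_indicator_iff hcm).2 hgi
  have hle : ∀ᵐ x : V, -4 * ((l : ℝ) + 1) *
        (φ x ^ 2 * (UU (u t) x * ww j l (WW (u t)) x ^ 2)) ≤
        -4 * ((l : ℝ) + 1) * (Rgs β M (u t)).indicator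
          (fun x => φ x ^ 2 * (UU (u t) x * ww j l (WW (u t)) x ^ 2)) x
        + 2 * (l + 1) * M ^ (2 * j + 2 * l + 3)
          * (Co c r h).indicator (W221.NS.gsq (u t)) x := by
    filter_upwards [Pool.Agent.Q111.AXI.ae_sg] with x hx0
    have hnn : 0 ≤ 2 * ((l : ℝ) + 1) * M ^ (2 * j + 2 * l + 3)
          * (Co c r h).indicator (W221.NS.gsq (u t)) x :=
      mul_nonneg (by positivity) (indicator_nonneg (fun y _ => gsq_nn _ y) x)
    by_cases hxs : x ∈ Co c r h
    · by_cases hxR : x ∈ Rgs β M (u t)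
      · rw [indicator_of_mem hxR]
        linarith
      · have hs : 0 < sg x := lt_of_le_of_ne (sg_nonneg x) (Ne.symm hx0)
        have hs1 : sg x ≤ 1 := by
          have h3 : sg x < r ^ 2 := hxs.1
          nlinarith
        rw [indicator_of_mem hxs, indicator_of_notMem hxR]
        have h4 : |sg x * WW (u t) x| ≤ M * sg x ^ (β / 2) := by
          rw [← hcirc]
          exact not_lt.1 fun hh => hxR (Or.inr hh)
        have h5 := ptB j l (s := sg x) (W := WW (u t) x) (U := UU (u t) x) (β := β)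
          (M := M) hs hs1 hn2 hM h4
        have h6 := UW_gsq hAlg hu hax hx0
        have h7 : 0 ≤ φ x ^ 2 := sq_nonneg _
        have h8 : φ x ^ 2 ≤ 1 := pow_le_one₀ (hcut.nn x) (hcut.le x)
        have h9 := mul_le_mul_of_nonneg_left h5 h7
        have h10 : φ x ^ 2 * (2 * (l + 1) * M ^ (2 * j + 2 * l + 3)
            * (UU (u t) x ^ 2 + WW (u t) x ^ 2)) ≤
            2 * (l + 1) * M ^ (2 * j + 2 * l + 3) * W221.NS.gsq (u t) x := by
          calc _ ≤ 1 * (2 * (l + 1) * M ^ (2 * j + 2 * l + 3)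
                * (UU (u t) x ^ 2 + WW (u t) x ^ 2)) :=
                mul_le_mul_of_nonneg_right h8 (by positivity)
            _ = 2 * (l + 1) * M ^ (2 * j + 2 * l + 3) * (UU (u t) x ^ 2 + WW (u t) x ^ 2) :=
                one_mul _
            _ ≤ _ := mul_le_mul_of_nonneg_left h6 (by positivity)
        have e1 : ww j l (WW (u t)) x = sg x ^ (j + 1) * WW (u t) x ^ (j + l + 2) := rfl
        rw [e1]
        linarith
    · have h3 : φ x = 0 := by
        by_contra hcon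
        exact hxs (hcut.supp (subset_tsupport φ hcon))
      have h4 : (Rgs β M (u t)).indicator
          (fun x => φ x ^ 2 * (UU (u t) x * ww j l (WW (u t)) x ^ 2)) x = 0 := by
        by_cases hxR : x ∈ Rgs β M (u t)
        · rw [indicator_of_mem hxR, h3]
          ring
        · rw [indicator_of_notMem hxR]
      rw [h4, h3]
      linarith
  have hm1 := integral_mono_ae (iU.const_mul (-4 * ((l : ℝ) + 1)))
    ((iR.const_mul (-4 * ((l : ℝ) + 1))).add
    (hgi'.const_mul (2 * (l + 1) * M ^ (2 * j + 2 * l + 3)))) hle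
  have s1 := integral_add (iR.const_mul (-4 * ((l : ℝ) + 1)))
    (hgi'.const_mul (2 * (l + 1) * M ^ (2 * j + 2 * l + 3)))
  simp only [Pi.add_apply] at s1 hm1
  rw [s1, integral_const_mul, integral_const_mul, integral_const_mul,
    integral_indicator hcm] at hm1
  have e5 : ∫ x, φ x ^ 2 * (-4 * (l + 1) * UU (u t) x * ww j l (WW (u t)) x ^ 2
        - 8 * (j + 1) * (l + 1) / (j + l + 2) * w0 j l (WW (u t)) x) =
      -4 * ((l : ℝ) + 1) * (∫ x, φ x ^ 2 * (UU (u t) x * ww j l (WW (u t)) x ^ 2))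
      - 8 * (j + 1) * (l + 1) / (j + l + 2) * ∫ x, φ x ^ 2 * w0 j l (WW (u t)) x := by
    rw [← integral_const_mul, ← integral_const_mul,
      ← integral_sub (iU.const_mul _) (i0.const_mul _)]
    refine integral_congr_ae (Eventually.of_forall fun x => ?_)
    beta_reduce
    ring
  rw [e5] at h0
  have hgG : (fun x => φ x * ww j l (WW (u t)) x) = g := hg.symm
  rw [hgG] at h0
  obtain ⟨G0, hG0⟩ : ∃ G0 : ℝ, G0 = GD g := ⟨_, rfl⟩
  obtain ⟨Z, hZ⟩ : ∃ Z : ℝ, Z = ∫ x, φ x ^ 2 * w0 j l (WW (u t)) x := ⟨_, rfl⟩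
  obtain ⟨Y, hY⟩ : ∃ Y : ℝ, Y = ∫ x, φ x ^ 2 * ww j l (WW (u t)) x ^ 2 := ⟨_, rfl⟩
  obtain ⟨X, hX⟩ : ∃ X : ℝ, X = ∫ x, (Rgs β M (u t)).indicator
        (fun x => φ x ^ 2 * (UU (u t) x * ww j l (WW (u t)) x ^ 2)) x := ⟨_, rfl⟩
  have hG00 : 0 ≤ G0 := by
    rw [hG0]
    exact integral_nonneg fun x => gr2_nonneg _ x
  have hZ0 : 0 ≤ Z := by
    rw [hZ]
    exact integral_nonneg fun x => mul_nonneg (sq_nonneg _) (w0_nonneg j l x)
  have hY0 : 0 ≤ Y := by
    rw [hY]
    exact integral_nonneg fun x => mul_nonneg (sq_nonneg _) (sq_nonneg _)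
  rw [← hG0, ← hZ, ← hY, ← hX] at hF
  rw [← hX] at hm1
  rw [← hG0, ← hZ] at h0
  rw [← hY]
  have hk3 : (0 : ℝ) < (j : ℝ) + l + 2 := by positivity
  -- the coefficients
  have c1 : 4 * (1 - δ) ≤ 2 + 2 * ((j : ℝ) + l + 1) / (j + l + 2) / (1 + δ) := by
    have e1 : 2 * ((j : ℝ) + l + 1) / (j + l + 2) / (1 + δ) =
        2 * (1 - 1 / ((j : ℝ) + l + 2)) / (1 + δ) := by
      field_simp
      ring
    have e2 : 1 / ((j : ℝ) + l + 2) ≤ δ := by
      rw [div_le_iff₀ hk3]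
      exact hn0
    have e3 : 2 - 4 * δ ≤ 2 * (1 - 1 / ((j : ℝ) + l + 2)) / (1 + δ) := by
      rw [le_div_iff₀ (by linarith)]
      nlinarith
    rw [e1]
    linarith
  have c2 : 8 * ((l : ℝ) + 1) * (1 - δ) ≤ 8 * (j + 1) * (l + 1) / (j + l + 2) := by
    rw [le_div_iff₀ hk3]
    have := mul_le_mul_of_nonneg_left hn1 (show 0 ≤ 8 * ((l : ℝ) + 1) by positivity)
    linarith
  have d1 := mul_le_mul_of_nonneg_right c1 hG00
  have d2 := mul_le_mul_of_nonneg_right c2 hZ0
  have d3 := mul_le_mul_of_nonneg_left hF (show 0 ≤ 4 * ((l : ℝ) + 1) by positivity)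
  have d4 : 4 * ((l : ℝ) + 1) * ((1 - δ) * (G0 / (l + 1) + 2 * Z) + b * Y) =
      4 * (1 - δ) * G0 + 8 * ((l : ℝ) + 1) * (1 - δ) * Z + 4 * ((l : ℝ) + 1) * (b * Y) := by
    field_simp
    ring
  have d5 : 4 * ((l : ℝ) + 1) * (b * Y) ≤ 4 * ((l : ℝ) + 1) * (|b| * Y) :=
    mul_le_mul_of_nonneg_left (mul_le_mul_of_nonneg_right (le_abs_self b) hY0) (by positivity)
  rw [d4] at d3
  linarith

end Pool.Agent.V8H53.AX
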