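import Pool.Agent.V8H53.AX.WBd

/-!
The bound of `∫ ρ ^ (-4 b) Γ ^ (2 k)` from the condition on the inflow: Gronwall's lemma.
-/

set_option autoImplicit false

open MeasureTheory Set Metric Filter Topology
open scoped ContDiff ENNReal
open H459R3.NS Pool.Agent.W268.NS Pool.Agent.Q67.VD

namespace Pool.Agent.V8H53.AX

open Pool.Agent.Q85.CC Pool.Agent.Q85.CL Pool.Agent.TH305.AX Pool.Agent.Q67.AXI
open Pool.Agent.W583.MD (sm_pd pd_mul')
open Pool.Agent.Q95.AXP (cy_compact)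
open Pool.Agent.Q285.AXI (slice co_mono gsq_nn dis_int)
open Pool.Agent.Q149.AXI (pd_off gr2_nonneg)

/-- Gronwall's lemma with an integrable coefficient and the coefficient `d / (T - t)`, in the
logarithmic form; the inequality is needed for almost all times only. -/
theorem gron_ae {T₁ T d : ℝ} {Y D a : ℝ → ℝ} (hY : ∀ t ∈ Ico T₁ T, 0 ≤ Y t)
    (hD : ∀ t ∈ Ico T₁ T, HasDerivAt Y (D t) t) (ha : IntegrableOn a (Ioo T₁ T))
    (ha0 : ∀ t, 0 ≤ a t)
    (h : ∀ᵐ t : ℝ, t ∈ Ioo T₁ T → D t ≤ (d / (T - t) + a t) * (1 + Y t)) :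
    ∃ C : ℝ, 0 ≤ C ∧ ∀ t ∈ Ico T₁ T, Y t ≤ C * (T - t) ^ (-d) := by
  by_cases hTT : T₁ < T
  swap
  · exact ⟨0, le_rfl, fun t ht => absurd (ht.1.trans_lt ht.2) hTT⟩
  have hT₁ : T₁ ∈ Ico T₁ T := ⟨le_rfl, hTT⟩
  have h6 : 0 < 1 + Y T₁ := by linarith [hY T₁ hT₁]
  refine ⟨(1 + Y T₁) * Real.exp (∫ s in Ioo T₁ T, a s) * (T - T₁) ^ d, ?_, ?_⟩
  · have : 0 < T - T₁ := by linarith
    positivity
  intro t' ht'
  obtain ⟨ψ, hψ⟩ : ∃ ψ : ℝ → ℝ, ψ = fun t => max (a t) (D t / (1 + Y t) - d / (T - t)) :=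
    ⟨_, rfl⟩
  have hψa : ψ =ᵐ[volume.restrict (Ioo T₁ T)] a := by
    rw [Filter.EventuallyEq, ae_restrict_iff' measurableSet_Ioo]
    filter_upwards [h] with t ht htI
    rw [hψ]
    have h1 : 0 < 1 + Y t := by linarith [hY t ⟨htI.1.le, htI.2⟩]
    refine max_eq_left ?_
    have := (div_le_iff₀ h1).2 (ht htI)
    linarith
  have hψi : IntegrableOn ψ (Ioo T₁ T) := ha.congr_fun_ae hψa.symm
  have hIoc : Ioc T₁ t' ⊆ Ioo T₁ T := fun s hs => ⟨hs.1, hs.2.trans_lt ht'.2⟩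
  have hψI : IntegrableOn ψ (Icc T₁ t') := by
    rw [integrableOn_Icc_iff_integrableOn_Ioc]
    exact hψi.mono_set hIoc
  have hIc : ∀ t ∈ Icc T₁ t', t ∈ Ico T₁ T := fun t ht => ⟨ht.1, ht.2.trans_lt ht'.2⟩
  have hL : ∀ t ∈ Ico T₁ T, HasDerivAt (fun t => Real.log (1 + Y t) + d * Real.log (T - t))
      (D t / (1 + Y t) - d / (T - t)) t := by
    intro t ht
    have h1 : 1 + Y t ≠ 0 := by linarith [hY t ht]
    have h2 : T - t ≠ 0 := by linarith [ht.2]
    have h3 := (((hD t ht).const_add 1).log h1).add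
      ((((hasDerivAt_id t).const_sub T).log h2).const_mul d)
    refine h3.congr_deriv ?_
    simp only [id_eq]
    ring
  have key := intervalIntegral.sub_le_integral_of_hasDeriv_right_of_le
    (g := fun t => Real.log (1 + Y t) + d * Real.log (T - t))
    (g' := fun t => D t / (1 + Y t) - d / (T - t))
    (φ := ψ) ht'.1
    (fun s hs => (hL s (hIc s hs)).continuousAt.continuousWithinAt)
    (fun s hs => (hL s (hIc s ⟨hs.1.le, hs.2.le⟩)).hasDerivWithinAt) hψI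
    (fun s _ => by rw [hψ]; exact le_max_right _ _)
  have h2 : ∫ s in T₁..t', ψ s ≤ ∫ s in Ioo T₁ T, a s := by
    rw [intervalIntegral.integral_of_le ht'.1]
    have h3 : ∫ s in Ioc T₁ t', ψ s = ∫ s in Ioc T₁ t', a s := by
      refine setIntegral_congr_ae measurableSet_Ioc ?_
      have h4 := (ae_restrict_iff' measurableSet_Ioo).1 hψa
      filter_upwards [h4] with s hs hsI
      exact hs (hIoc hsI)
    rw [h3]
    exact setIntegral_mono_set ha (ae_of_all _ fun s => ha0 s) hIoc.eventuallyLE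
  have h5 : 0 < 1 + Y t' := by linarith [hY t' ht']
  have t1 : 0 < T - t' := by linarith [ht'.2]
  have t2 : 0 < T - T₁ := by linarith
  have h7 : Real.log (1 + Y t') ≤ Real.log (1 + Y T₁) + (∫ s in Ioo T₁ T, a s)
      + d * Real.log (T - T₁) + (-d) * Real.log (T - t') := by
    have h8 := key.trans h2
    linarith
  have h9 : 1 + Y t' ≤ (1 + Y T₁) * Real.exp (∫ s in Ioo T₁ T, a s) * (T - T₁) ^ d
      * (T - t') ^ (-d) := by
    have := Real.exp_le_exp.2 h7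
    rw [Real.exp_log h5, Real.exp_add, Real.exp_add, Real.exp_add, Real.exp_log h6] at this
    rw [Real.rpow_def_of_pos t2, Real.rpow_def_of_pos t1, mul_comm (Real.log (T - T₁)),
      mul_comm (Real.log (T - t'))]
    exact this
  linarith

theorem w_bd (hAlg : StmAlg) (hEqW : StmEqW) (hJnt : StmJnt) (hDt : StmDt)
    (hEn : Pool.Agent.Q67.AXI.StmEn) (l : ℕ)
    {T E c R H K r h r1 h1 T₁ δ c₁ β M : ℝ} {u : ℝ → V → V} {p : ℝ → V → ℝ} {φ : V → ℝ}
    {A : ℝ → ℝ}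
    (hsol : AxL T E c R H u p) (hK : 1 ≤ K) (hr1 : 0 < r1) (hr1r : r1 < r) (hrR : r < R)
    (hr2 : r ≤ 1) (hhH : h < H) (hT₁ : 0 < T₁) (hcut : Cut c r h r1 h1 K φ)
    (hout : ∀ t ∈ Ico T₁ T, ∀ x ∈ Out c r h r1 h1, BdA K (u t) x)
    (hδ : 0 < δ) (hc₁ : 0 ≤ c₁) (hβ : 0 < β) (hM : 0 ≤ M)
    (hA : IntegrableOn A (Ioo T₁ T))
    (hcond : ∀ᵐ t : ℝ, t ∈ Ioo T₁ T →
      Form 1 l δ β M (c₁ / (T - t) + A t) (Co c R H) (u t)) :
    ∃ (j : ℕ) (K₂ : ℝ), 0 ≤ K₂ ∧ ∀ t ∈ Ico T₁ T,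
      ∫ x in Co c r h, ww j l (WW (u t)) x ^ 2 ≤ K₂ * (T - t) ^ (-(4 * (l + 1) * c₁)) := by
  have hr0 : 0 < r := hr1.trans hr1r
  have hsub : Co c r h ⊆ Co c R H := co_mono hr0 hrR hhH
  have hI : ∀ t ∈ Ico T₁ T, t ∈ Ioo 0 T := fun t ht => ⟨hT₁.trans_le ht.1, ht.2⟩
  -- the exponents
  obtain ⟨j, hj⟩ := exists_nat_gt (max (((l : ℝ) + 2) / δ) ((2 * (l : ℝ) + 1) / β))
  have hj1 : ((l : ℝ) + 2) < j * δ := by
    have h1 := (le_max_left _ _).trans_lt hj
    rwa [div_lt_iff₀ hδ] at h1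
  have hl0 : (0 : ℝ) ≤ l := Nat.cast_nonneg l
  have hn0 : 1 ≤ δ * ((j : ℝ) + l + 2) := by
    have h3 : 0 ≤ δ * ((l : ℝ) + 2) := by positivity
    linarith
  have hn1 : (1 - δ) * ((j : ℝ) + l + 2) ≤ j + 1 := by
    have h3 : 0 ≤ δ * ((l : ℝ) + 2) := by positivity
    linarith
  have hn2 : 4 * l + 2 ≤ β * (2 * j + 2 * l + 3) := by
    have h1 := (le_max_right _ _).trans_lt hj
    rw [div_lt_iff₀ hβ] at h1
    have h3 : 0 ≤ β * (2 * l + 3) := by positivity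
    linarith
  have hcc := cy_compact c (r := r) (h := h) hr0
  have hcy : Co c r h ⊆ Cy c r h := fun x hx => ⟨hx.1.le, hx.2.le⟩
  have hcm : MeasurableSet (Co c r h) := by
    have o1 : IsOpen {x : V | sg x < r ^ 2} :=
      isOpen_lt Pool.Agent.Q95.AXP.sg_cont continuous_const
    have o2 : IsOpen {x : V | |x 2 - c| < h} := isOpen_lt (by fun_prop) continuous_const
    exact (o1.inter o2).measurableSet
  -- the energy
  obtain ⟨-, jW, -, -⟩ := hJnt T u hsol.smooth_u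
  have jw : ContDiffOn ℝ ∞ (fun z : ℝ × V => ww j l (WW (u z.1)) z.2) (Ioo 0 T ×ˢ univ) := by
    have h1 : ContDiff ℝ ∞ (fun z : ℝ × V => sg z.2 ^ (j + 1)) :=
      (Pool.Agent.Q150.AXI.sm_sg.comp contDiff_snd).pow _
    exact h1.contDiffOn.mul (jW.pow _)
  obtain ⟨-, hDw⟩ := hDt T (fun t => ww j l (WW (u t))) φ jw hcut.sm hcut.cs
  obtain ⟨Y, hY⟩ : ∃ Y : ℝ → ℝ, Y = fun s => ∫ x, φ x ^ 2 * ww j l (WW (u s)) x ^ 2 := ⟨_, rfl⟩
  obtain ⟨D, hD⟩ : ∃ D : ℝ → ℝ, D = fun t => ∫ x, 2 * φ x ^ 2 * ww j l (WW (u t)) x *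
    deriv (fun s => ww j l (WW (u s)) x) t := ⟨_, rfl⟩
  have hYnn : ∀ t, 0 ≤ Y t := by
    intro t
    rw [hY]
    exact integral_nonneg fun x => mul_nonneg (sq_nonneg _) (sq_nonneg _)
  obtain ⟨G, hG⟩ : ∃ G : ℝ → ℝ, G = fun t => ∫ x in Co c r h, W221.NS.gsq (u t) x := ⟨_, rfl⟩
  have hGint : IntegrableOn G (Ioo 0 T) := by rw [hG]; exact dis_int hsub hsol.dis
  have hGnn : ∀ t, 0 ≤ G t := by
    intro t
    rw [hG]
    exact integral_nonneg fun x => gsq_nn _ x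
  obtain ⟨C3, hC3⟩ : ∃ C3 : ℝ, C3 = volume.real (Cy c r h) * (K ^ (j + l + 2)) ^ 2 *
        (12 * (K ^ (j + l + 2)) ^ 2 + 4 * K ^ (j + l + 2) + 8 * K + 6 * K ^ 2 / δ) := ⟨_, rfl⟩
  have hC30 : 0 ≤ C3 := by rw [hC3]; positivity
  obtain ⟨Mp, hMp⟩ : ∃ Mp : ℝ, Mp = 2 * (l + 1) * M ^ (2 * j + 2 * l + 3) := ⟨_, rfl⟩
  have hMp0 : 0 ≤ Mp := by rw [hMp]; positivity
  obtain ⟨a, ha⟩ : ∃ a : ℝ → ℝ, a = fun t => 4 * (l + 1) * |A t| + Mp * G t + C3 := ⟨_, rfl⟩
  have ha0 : ∀ t, 0 ≤ a t := by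
    intro t
    rw [ha]
    have := hGnn t
    positivity
  have hai : IntegrableOn a (Ioo T₁ T) := by
    rw [ha]
    have k1 : IntegrableOn (fun t => 4 * ((l : ℝ) + 1) * |A t|) (Ioo T₁ T) :=
      (hA.abs).const_mul _
    have k3 : IntegrableOn (fun t => Mp * G t) (Ioo T₁ T) :=
      (hGint.mono_set (Ioo_subset_Ioo_left hT₁.le)).const_mul _
    have k4 : IntegrableOn (fun _ : ℝ => C3) (Ioo T₁ T) :=
      integrableOn_const (by rw [Real.volume_Ioo]; exact ENNReal.ofReal_ne_top)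
    exact (k1.add k3).add k4
  have hineq : ∀ᵐ t : ℝ, t ∈ Ioo T₁ T →
      D t ≤ (4 * (l + 1) * c₁ / (T - t) + a t) * (1 + Y t) := by
    filter_upwards [hcond] with t h2 htI
    have htT : t ∈ Ico T₁ T := ⟨htI.1.le, htI.2⟩
    have htp : 0 < T - t := by linarith [htI.2]
    have h5 := goodA hAlg hEqW hEn j l hsol hK hr1 hr1r hrR hr2 hhH hcut (hI t htT)
      (hout t htT) hδ hn0 hn1 hn2 hβ hM (h2 htI)
    rw [← hC3, ← hMp] at h5
    have e1 : D t = ∫ x, 2 * φ x ^ 2 * ww j l (WW (u t)) x *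
      deriv (fun s => ww j l (WW (u s)) x) t := by rw [hD]
    have e2 : Y t = ∫ x, φ x ^ 2 * ww j l (WW (u t)) x ^ 2 := by rw [hY]
    have e3 : G t = ∫ x in Co c r h, W221.NS.gsq (u t) x := by rw [hG]
    rw [← e1, ← e2, ← e3] at h5
    have e4 : a t = 4 * (l + 1) * |A t| + Mp * G t + C3 := by
      rw [ha]
    have hY0 := hYnn t
    have hG0 := hGnn t
    have hb : 4 * ((l : ℝ) + 1) * |c₁ / (T - t) + A t| ≤
        4 * (l + 1) * c₁ / (T - t) + 4 * (l + 1) * |A t| := by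
      have h6 : |c₁ / (T - t) + A t| ≤ c₁ / (T - t) + |A t| := by
        refine (abs_add_le _ _).trans ?_
        rw [abs_of_nonneg (by positivity : 0 ≤ c₁ / (T - t))]
      have h7 := mul_le_mul_of_nonneg_left h6 (show 0 ≤ 4 * ((l : ℝ) + 1) by positivity)
      have e5 : 4 * ((l : ℝ) + 1) * (c₁ / (T - t) + |A t|) =
        4 * (l + 1) * c₁ / (T - t) + 4 * (l + 1) * |A t| := by ring
      linarith
    have h8 := mul_le_mul_of_nonneg_right hb hY0
    have g1 : 0 ≤ Mp * G t * Y t := by positivity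
    have g2 : 0 ≤ C3 * Y t := mul_nonneg hC30 hY0
    have g3 : 0 ≤ 4 * ((l : ℝ) + 1) * |A t| := by positivity
    have g4 : 0 ≤ 4 * ((l : ℝ) + 1) * c₁ / (T - t) := by positivity
    rw [e4]
    linarith
  obtain ⟨C, hC, key⟩ := gron_ae (T₁ := T₁) (T := T) (d := 4 * ((l : ℝ) + 1) * c₁) (Y := Y)
    (D := D) (a := a) (fun t _ => hYnn t)
    (fun t ht => by rw [hY, hD]; exact hDw t (hI t ht)) hai ha0 hineq
  obtain ⟨d, hd⟩ : ∃ d : ℝ, d = 4 * ((l : ℝ) + 1) * c₁ := ⟨_, rfl⟩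
  have hd0 : 0 ≤ d := by rw [hd]; positivity
  rw [← hd] at key
  refine ⟨j, C + volume.real (Cy c r h) * (K ^ (j + l + 2)) ^ 2 * |T| ^ d, by positivity,
    fun t ht => ?_⟩
  rw [← hd]
  have hk1 := key t ht
  rw [hY] at hk1
  beta_reduce at hk1
  have htI := hI t ht
  have hTp : 0 < T := htI.1.trans htI.2
  have htp : 0 < T - t := by linarith [ht.2]
  have hu := slice hsol.smooth_u htI
  obtain ⟨⟨sU, sW, sJ, sO⟩, -, -, halg⟩ := hAlg (u t) hu (hsol.axi t htI)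
  have sw := ww_sm sW j l
  have hfin : volume (Cy c r h) ≠ ⊤ := hcc.measure_lt_top.ne
  have hm : MeasurableSet (Cy c r h) := hcc.isClosed.measurableSet
  have i1 : Integrable (fun x => φ x ^ 2 * ww j l (WW (u t)) x ^ 2) := by
    refine ((hcut.sm.continuous.pow 2).mul
      (sw.continuous.pow 2)).integrable_of_hasCompactSupport ?_
    refine HasCompactSupport.intro hcut.cs.isCompact fun x hx => ?_
    show φ x ^ 2 * ww j l (WW (u t)) x ^ 2 = 0
    rw [image_eq_zero_of_notMem_tsupport hx]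
    norm_num
  have i2 : Integrable ((Cy c r h).indicator (fun _ : V => (K ^ (j + l + 2)) ^ 2)) :=
    (integrableOn_const hfin).integrable_indicator hm
  have i3 : IntegrableOn (fun x => ww j l (WW (u t)) x ^ 2) (Co c r h) :=
    ((sw.continuous.pow 2).continuousOn.integrableOn_compact hcc).mono_set hcy
  have i3' := (integrable_indicator_iff hcm).2 i3
  have hsg1 : ∀ x ∈ Cy c r h, sg x ≤ 1 := fun x hx => by
    have h3 : sg x ≤ r ^ 2 := hx.1
    nlinarith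
  have h4 : ∀ x, (Co c r h).indicator (fun x => ww j l (WW (u t)) x ^ 2) x ≤
      φ x ^ 2 * ww j l (WW (u t)) x ^ 2
        + (Cy c r h).indicator (fun _ => (K ^ (j + l + 2)) ^ 2) x := by
    intro x
    have g1 : 0 ≤ (Cy c r h).indicator (fun _ : V => (K ^ (j + l + 2)) ^ 2) x :=
      indicator_nonneg (fun _ _ => by positivity) x
    by_cases hx : x ∈ Co c r h
    · rw [indicator_of_mem hx]
      by_cases hx2 : x ∈ Out c r h r1 h1
      · rw [indicator_of_mem hx2.1]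
        have h5 := (hout t ht x hx2).2.2.1
        have h6 : |ww j l (WW (u t)) x| ≤ K ^ (j + l + 2) := by
          unfold ww
          rw [abs_mul, abs_pow, abs_pow, abs_of_nonneg (sg_nonneg x)]
          have h2 : sg x ^ (j + 1) ≤ 1 := pow_le_one₀ (sg_nonneg x) (hsg1 x hx2.1)
          have h3 : |WW (u t) x| ^ (j + l + 2) ≤ K ^ (j + l + 2) :=
            pow_le_pow_left₀ (abs_nonneg _) h5 _
          calc _ ≤ 1 * K ^ (j + l + 2) := mul_le_mul h2 h3 (by positivity) zero_le_one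
            _ = _ := one_mul _
        have h7 : ww j l (WW (u t)) x ^ 2 ≤ (K ^ (j + l + 2)) ^ 2 := by
          rw [← sq_abs]
          exact pow_le_pow_left₀ (abs_nonneg _) h6 2
        have : 0 ≤ φ x ^ 2 * ww j l (WW (u t)) x ^ 2 := by positivity
        linarith
      · have h5 : x ∈ Cy c r1 h1 := by
          by_contra hcon
          refine hx2 ⟨hcy hx, ?_⟩
          by_contra hcon2
          push Not at hcon2
          exact hcon ⟨hcon2.1.le, hcon2.2.le⟩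
        rw [hcut.one x h5]
        linarith
    · rw [indicator_of_notMem hx]
      positivity
  have h5 := integral_mono i3' (i1.add i2) h4
  have s1 := integral_add i1 i2
  simp only [Pi.add_apply] at s1 h5
  rw [integral_indicator hcm, s1, integral_indicator hm, setIntegral_const, smul_eq_mul] at h5
  have g1 : 1 ≤ |T| ^ d * (T - t) ^ (-d) := by
    have g2 : T ^ (-d) ≤ (T - t) ^ (-d) :=
      Real.rpow_le_rpow_of_nonpos htp (by linarith [htI.1]) (by linarith)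
    have g3 : T ^ d * T ^ (-d) = 1 := by
      rw [← Real.rpow_add hTp]
      simp
    rw [abs_of_pos hTp]
    have g4 := mul_le_mul_of_nonneg_left g2 (show 0 ≤ T ^ d by positivity)
    linarith
  have g5 : volume.real (Cy c r h) * (K ^ (j + l + 2)) ^ 2 ≤
      volume.real (Cy c r h) * (K ^ (j + l + 2)) ^ 2 * (|T| ^ d * (T - t) ^ (-d)) :=
    le_mul_of_one_le_right (by positivity) g1
  linarith

end Pool.Agent.V8H53.AX
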