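import Pool.Agent.V8H53.AX.Sob
import Pool.Agent.Q182.AXI.T1P
import Pool.Agent.Q111.AXI.Cac
import Pool.Agent.Q150.AXI.EqO

/-!
Potentials in weighted Lebesgue spaces, the weight being a power of the distance to the axis.
-/

set_option autoImplicit false

open MeasureTheory Set Metric Filter Topology
open scoped ContDiff ENNReal
open H459R3.NS Pool.Agent.W268.NS Pool.Agent.Q67.VD

namespace Pool.Agent.V8H53.AX

open Pool.Agent.Q85.CC Pool.Agent.Q85.CL Pool.Agent.TH305.AX Pool.Agent.Q67.AXI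
open Pool.Agent.W583.MD (sm_pd pd_mul')
open Pool.Agent.Q149.AXI (sm_RR RR_mul pd_off RR_sq sm_gr2 cs_pd cs_gr2 gr2_nonneg sg_cont)
open Pool.Agent.Q150.AXI (sm_sg pd_sg sd)

/-- powers of `ρ² + ε` -/
lemma psi_sm {ε : ℝ} (hε : 0 < ε) (e : ℝ) : ContDiff ℝ ∞ (fun x : V => (sg x + ε) ^ e) := by
  refine (sm_sg.add contDiff_const).rpow_const_of_ne fun x => ?_
  have := sg_nonneg x
  have : 0 < sg x + ε := by linarith
  exact this.ne'

lemma psi_RR {ε : ℝ} (hε : 0 < ε) (e : ℝ) (x : V) :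
    RR (fun x : V => (sg x + ε) ^ e) x = 2 * e * sg x * (sg x + ε) ^ (e - 1) := by
  have h0 : 0 < sg x + ε := by
    have := sg_nonneg x
    linarith
  have hp : ∀ i, pd i (fun x : V => (sg x + ε) ^ e) x = e * (sg x + ε) ^ (e - 1) * sd i x := by
    intro i
    have h1 : DifferentiableAt ℝ (fun x : V => sg x + ε) x :=
      ((sm_sg.add contDiff_const).differentiable (by norm_cast)) x
    have h2 := (h1.hasFDerivAt).rpow_const (p := e) (Or.inl h0.ne')
    have h3 : pd i sg x = sd i x := by rw [pd_sg]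
    unfold pd at h3 ⊢
    rw [h2.fderiv]
    have h4 : fderiv ℝ (fun x : V => sg x + ε) x = fderiv ℝ sg x := by
      rw [fderiv_add_const]
    rw [h4]
    simp only [_root_.smul_apply, smul_eq_mul]
    rw [h3]
  unfold RR
  rw [hp, hp]
  unfold sd sg
  simp
  ring

lemma young_pow {y κ θ : ℝ} (hy : 0 < y) (hκ : 0 < κ) (hθ0 : 0 ≤ θ) (hθ : θ < 1) :
    y ^ θ ≤ κ * y + κ ^ (-(θ / (1 - θ))) := by
  have h1 : 0 < 1 - θ := by linarith
  have p2 : 0 < κ ^ (-(θ / (1 - θ))) := by positivity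
  rcases le_total (κ ^ (-(1 / (1 - θ)))) y with h | h
  · have h2 : y ^ (θ - 1) ≤ κ := by
      have h3 := Real.rpow_le_rpow_of_nonpos (by positivity) h (show θ - 1 ≤ 0 by linarith)
      refine h3.trans (le_of_eq ?_)
      rw [← Real.rpow_mul hκ.le]
      have : -(1 / (1 - θ)) * (θ - 1) = 1 := by
        field_simp
        ring
      rw [this, Real.rpow_one]
    have h3 : y ^ θ = y ^ (θ - 1) * y := by
      rw [← Real.rpow_add_one hy.ne']
      congr 1
      ring
    rw [h3]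
    have := mul_le_mul_of_nonneg_right h2 hy.le
    linarith
  · have h2 : y ^ θ ≤ κ ^ (-(θ / (1 - θ))) := by
      refine (Real.rpow_le_rpow hy.le h hθ0).trans (le_of_eq ?_)
      rw [← Real.rpow_mul hκ.le]
      congr 1
      field_simp
    have : 0 ≤ κ * y := by positivity
    linarith

/-- Hardy's inequality for powers, regularized -/
lemma har_reg {s ε μ : ℝ} (hs1 : 1 ≤ s) (hs2 : s < 2) (hε : 0 < ε) (hμ : 0 < μ) {g : V → ℝ}
    (hg : ContDiff ℝ ∞ g) (hc : HasCompactSupport g) :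
    (2 - s) / 2 * (∫ x, (sg x + ε) ^ (-(s / 2)) * g x ^ 2) ≤ μ * GD g
      + ((2 - s) / 2) ^ (-(2 * (s - 1) / (2 - s))) * μ ^ (-(s / (2 - s))) * ∫ x, g x ^ 2 := by
  have h2s : 0 < 2 - s := by linarith
  obtain ⟨ψ, hψ⟩ : ∃ ψ : V → ℝ, ψ = fun x => (sg x + ε) ^ (-(s / 2)) := ⟨_, rfl⟩
  have sψ : ContDiff ℝ ∞ ψ := by rw [hψ]; exact psi_sm hε _
  have hpos : ∀ x : V, 0 < sg x + ε := fun x => by
    have := sg_nonneg x
    linarith
  have hψ0 : ∀ x, 0 < ψ x := fun x => by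
    rw [hψ]
    exact Real.rpow_pos_of_pos (hpos x) _
  have hcs : ∀ f : V → ℝ, HasCompactSupport (fun x => f x * g x ^ 2) := fun f => by
    refine HasCompactSupport.intro hc.isCompact fun x hx => ?_
    rw [image_eq_zero_of_notMem_tsupport hx]
    norm_num
  have hic : ∀ f : V → ℝ, Continuous f → Integrable (fun x => f x * g x ^ 2) := fun f hf =>
    (hf.mul (hg.continuous.pow 2)).integrable_of_hasCompactSupport (hcs f)
  have sG : ContDiff ℝ ∞ (fun x => ψ x * g x ^ 2) := sψ.mul (hg.pow 2)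
  have hib := Pool.Agent.Q182.AXI.T1P.int_RR sG (hcs ψ)
  have hRR : ∀ x, RR (fun x => ψ x * g x ^ 2) x = ψ x * (2 * g x * RR g x)
      + g x ^ 2 * RR ψ x := by
    intro x
    rw [RR_mul sψ (hg.pow 2), Pool.Agent.Q111.AXI.RR_sq hg]
  have i0 : Integrable (fun x => (2 * ψ x + RR ψ x) * g x ^ 2) :=
    hic _ ((continuous_const.mul sψ.continuous).add (sm_RR sψ).continuous)
  have i1 : Integrable (fun x => ψ x * (2 * g x * RR g x)) := by
    refine (sψ.continuous.mul ((continuous_const.mul hg.continuous).mul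
      (sm_RR hg).continuous)).integrable_of_hasCompactSupport ?_
    refine HasCompactSupport.intro hc.isCompact fun x hx => ?_
    show ψ x * (2 * g x * RR g x) = 0
    rw [image_eq_zero_of_notMem_tsupport hx]
    ring
  have e1 : (∫ x, (2 * ψ x + RR ψ x) * g x ^ 2) + ∫ x, ψ x * (2 * g x * RR g x) = 0 := by
    rw [← integral_add i0 i1, ← hib]
    refine integral_congr_ae (Eventually.of_forall fun x => ?_)
    beta_reduce
    rw [hRR]
    ring
  have iψ : Integrable (fun x => ψ x * g x ^ 2) := hic _ sψ.continuous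
  have iA : Integrable (fun x => g x ^ 2) := by
    have := hic (fun _ => 1) continuous_const
    simpa using this
  have iG : Integrable (gr2 g) := (sm_gr2 hg).integrable_of_hasCompactSupport (cs_gr2 hc)
  have a1 : (2 - s) * (∫ x, ψ x * g x ^ 2) ≤ ∫ x, (2 * ψ x + RR ψ x) * g x ^ 2 := by
    rw [← integral_const_mul]
    refine integral_mono (iψ.const_mul _) i0 fun x => ?_
    beta_reduce
    have h1 : (2 - s) * ψ x ≤ 2 * ψ x + RR ψ x := by
      have h2 : RR ψ x = -(s * sg x * (sg x + ε) ^ (-(s / 2) - 1)) := by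
        rw [hψ, psi_RR hε]
        ring
      have h3 : sg x * (sg x + ε) ^ (-(s / 2) - 1) ≤ ψ x := by
        have h4 : ψ x = (sg x + ε) * (sg x + ε) ^ (-(s / 2) - 1) := by
          rw [hψ]
          beta_reduce
          rw [mul_comm, ← Real.rpow_add_one (hpos x).ne']
          congr 1
          ring
        rw [h4]
        have : 0 < (sg x + ε) ^ (-(s / 2) - 1) := Real.rpow_pos_of_pos (hpos x) _
        exact mul_le_mul_of_nonneg_right (by linarith) this.le
      have h5 := mul_le_mul_of_nonneg_left h3 (show 0 ≤ s by linarith)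
      rw [h2]
      linarith
    have := mul_le_mul_of_nonneg_right h1 (sq_nonneg (g x))
    linarith
  obtain ⟨κ, hκ⟩ : ∃ κ : ℝ, κ = μ * ((2 - s) / 2) := ⟨_, rfl⟩
  have hκ0 : 0 < κ := by rw [hκ]; positivity
  obtain ⟨Cκ, hCκ⟩ : ∃ Cκ : ℝ, Cκ = κ ^ (-(2 * (s - 1) / (2 - s))) := ⟨_, rfl⟩
  have a2 : -(∫ x, ψ x * (2 * g x * RR g x)) ≤ μ * GD g + (2 - s) / 2 * (∫ x, ψ x * g x ^ 2)
      + μ⁻¹ * Cκ * ∫ x, g x ^ 2 := by
    unfold GD
    rw [← integral_neg, ← integral_const_mul, ← integral_const_mul, ← integral_const_mul]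
    have j1 := (iG.const_mul μ).add (iψ.const_mul ((2 - s) / 2))
    have j2 := j1.add (iA.const_mul (μ⁻¹ * Cκ))
    have s1 := integral_add j1 (iA.const_mul (μ⁻¹ * Cκ))
    have s2 := integral_add (iG.const_mul μ) (iψ.const_mul ((2 - s) / 2))
    simp only [Pi.add_apply] at s1 s2
    rw [← s2, ← s1]
    refine integral_mono i1.neg j2 fun x => ?_
    have h1 : RR g x ^ 2 ≤ sg x * gr2 g x := by
      refine (RR_sq g x).trans (mul_le_mul_of_nonneg_left ?_ (sg_nonneg x))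
      simp only [gr2, Fin.sum_univ_three]
      nlinarith [sq_nonneg (pd 2 g x)]
    -- the square
    have h2 : ψ x ^ 2 * sg x ≤ κ * ψ x + Cκ := by
      have h3 : ψ x ^ 2 * sg x ≤ ψ x ^ (2 * (s - 1) / s) := by
        have h4 : ψ x ^ (2 * (s - 1) / s) = ψ x ^ 2 * (sg x + ε) := by
          rw [hψ]
          beta_reduce
          rw [← Real.rpow_mul (hpos x).le, ← Real.rpow_natCast, ← Real.rpow_mul (hpos x).le,
            ← Real.rpow_add_one (hpos x).ne']
          congr 1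
          push_cast
          field_simp
          ring
        rw [h4]
        exact mul_le_mul_of_nonneg_left (by linarith) (sq_nonneg _)
      have h5 := young_pow (hψ0 x) hκ0 (show 0 ≤ 2 * (s - 1) / s by
        have : 0 ≤ s - 1 := by linarith
        positivity) (show 2 * (s - 1) / s < 1 by
        rw [div_lt_one (by linarith)]
        linarith)
      have h6 : 2 * (s - 1) / s / (1 - 2 * (s - 1) / s) = 2 * (s - 1) / (2 - s) := by
        have hs0 : s ≠ 0 := by linarith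
        have h7 : 1 - 2 * (s - 1) / s = (2 - s) / s := by
          field_simp
          ring
        rw [h7]
        field_simp
      rw [h6, ← hCκ] at h5
      linarith
    have h8 : -(ψ x * (2 * g x * RR g x)) ≤ μ * gr2 g x + μ⁻¹ * (ψ x ^ 2 * sg x) * g x ^ 2 := by
      have h9 : 0 ≤ (μ * RR g x + sg x * (ψ x * g x)) ^ 2 := sq_nonneg _
      rcases eq_or_lt_of_le (sg_nonneg x) with h0 | h0
      · have h10 : RR g x = 0 := by
          rw [← h0, zero_mul] at h1
          exact pow_eq_zero_iff (two_ne_zero) |>.1 (le_antisymm h1 (sq_nonneg _))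
        rw [h10, ← h0]
        have := gr2_nonneg g x
        have : 0 ≤ μ * gr2 g x := by positivity
        simp
        exact this
      · have h11 : 0 ≤ μ⁻¹ * (sg x)⁻¹ * (μ * RR g x + sg x * (ψ x * g x)) ^ 2 := by positivity
        have h12 : μ⁻¹ * (sg x)⁻¹ * (μ * RR g x + sg x * (ψ x * g x)) ^ 2 =
            μ * (RR g x ^ 2 / sg x) + ψ x * (2 * g x * RR g x)
              + μ⁻¹ * (ψ x ^ 2 * sg x) * g x ^ 2 := by
          field_simp
          ring
        have h13 : RR g x ^ 2 / sg x ≤ gr2 g x := by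
          rw [div_le_iff₀ h0]
          linarith
        have h14 := mul_le_mul_of_nonneg_left h13 hμ.le
        rw [h12] at h11
        linarith
    have h15 : μ⁻¹ * (ψ x ^ 2 * sg x) * g x ^ 2 ≤ μ⁻¹ * (κ * ψ x + Cκ) * g x ^ 2 :=
      mul_le_mul_of_nonneg_right (mul_le_mul_of_nonneg_left h2 (by positivity)) (sq_nonneg _)
    have h16 : μ⁻¹ * (κ * ψ x + Cκ) * g x ^ 2 = (2 - s) / 2 * (ψ x * g x ^ 2)
        + μ⁻¹ * Cκ * g x ^ 2 := by
      rw [hκ]
      field_simp
    linarith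
  have e3 : μ⁻¹ * Cκ = ((2 - s) / 2) ^ (-(2 * (s - 1) / (2 - s))) * μ ^ (-(s / (2 - s))) := by
    rw [hCκ, hκ, Real.mul_rpow hμ.le (by positivity)]
    have h17 : μ⁻¹ * μ ^ (-(2 * (s - 1) / (2 - s))) = μ ^ (-(s / (2 - s))) := by
      rw [← Real.rpow_neg_one, ← Real.rpow_add hμ]
      congr 1
      field_simp
      ring
    rw [← h17]
    ring
  rw [e3] at a2
  have e4 : ∫ x, (sg x + ε) ^ (-(s / 2)) * g x ^ 2 = ∫ x, ψ x * g x ^ 2 := by rw [hψ]
  rw [e4]
  linarith

/-- passage to the limit -/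
lemma har_lim {s Z : ℝ} {g : V → ℝ} (hg : Continuous g)
    (h : ∀ ε : ℝ, 0 < ε → ∫⁻ x, ENNReal.ofReal ((sg x + ε) ^ (-(s / 2)) * g x ^ 2) ≤
      ENNReal.ofReal Z) :
    ∫⁻ x, ENNReal.ofReal (sg x ^ (-(s / 2)) * g x ^ 2) ≤ ENNReal.ofReal Z := by
  have hm : ∀ n : ℕ, Measurable fun x : V =>
      ENNReal.ofReal ((sg x + 1 / ((n : ℝ) + 1)) ^ (-(s / 2)) * g x ^ 2) := fun n =>
    (((sg_cont.measurable.add_const _).pow_const _).mul (hg.measurable.pow_const 2)).ennreal_ofReal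
  have h1 := lintegral_liminf_le (μ := (volume : Measure V)) (u := (atTop : Filter ℕ)) hm
  have h2 : liminf (fun n : ℕ => ∫⁻ x : V,
      ENNReal.ofReal ((sg x + 1 / ((n : ℝ) + 1)) ^ (-(s / 2)) * g x ^ 2)) atTop ≤
      ENNReal.ofReal Z := by
    refine liminf_le_of_le (by isBoundedDefault) fun b hb => ?_
    obtain ⟨n, hn⟩ := hb.exists
    exact hn.trans (h _ (by positivity))
  refine le_trans (le_of_eq ?_) (h1.trans h2)
  refine lintegral_congr_ae ?_
  filter_upwards [Pool.Agent.Q111.AXI.ae_sg] with x hx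
  have h3 : Tendsto (fun n : ℕ => ENNReal.ofReal ((sg x + 1 / ((n : ℝ) + 1)) ^ (-(s / 2))
      * g x ^ 2)) atTop (𝓝 (ENNReal.ofReal (sg x ^ (-(s / 2)) * g x ^ 2))) := by
    refine ENNReal.tendsto_ofReal (Tendsto.mul_const _ ?_)
    have h4 : Tendsto (fun n : ℕ => sg x + 1 / ((n : ℝ) + 1)) atTop (𝓝 (sg x + 0)) :=
      tendsto_one_div_add_atTop_nhds_zero_nat.const_add _
    rw [add_zero] at h4
    exact h4.rpow_const (Or.inl hx)
  exact h3.liminf_eq.symm

/-- Hardy's inequality for powers -/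
theorem har_s {s : ℝ} (hs0 : 0 ≤ s) (hs2 : s < 2) : ∃ C : ℝ, 0 < C ∧ ∀ (μ : ℝ) (g : V → ℝ),
    0 < μ → ContDiff ℝ ∞ g → HasCompactSupport g →
    ∫⁻ x, ENNReal.ofReal (sg x ^ (-(s / 2)) * g x ^ 2) ≤
      ENNReal.ofReal (C * (μ * GD g + μ ^ (-(s / (2 - s))) * ∫ x, g x ^ 2)) := by
  have hD0 : ∀ g : V → ℝ, 0 ≤ GD g := fun g => integral_nonneg fun x => gr2_nonneg _ x
  have hA0 : ∀ g : V → ℝ, 0 ≤ ∫ x, g x ^ 2 := fun g => integral_nonneg fun x => sq_nonneg _
  -- the case `1 ≤ s`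
  have key : ∀ s : ℝ, 1 ≤ s → s < 2 → ∃ C : ℝ, 0 < C ∧ ∀ (μ ε : ℝ) (g : V → ℝ),
      0 < μ → 0 < ε → ContDiff ℝ ∞ g → HasCompactSupport g →
      ∫ x, (sg x + ε) ^ (-(s / 2)) * g x ^ 2 ≤
        C * (μ * GD g + μ ^ (-(s / (2 - s))) * ∫ x, g x ^ 2) := by
    intro s h1 h2
    have h2s : 0 < 2 - s := by linarith
    obtain ⟨c, hc⟩ : ∃ c : ℝ, c = ((2 - s) / 2) ^ (-(2 * (s - 1) / (2 - s))) := ⟨_, rfl⟩
    have hc0 : 0 < c := by rw [hc]; positivity
    refine ⟨2 / (2 - s) * (1 + c), by positivity, fun μ ε g hμ hε hg hcg => ?_⟩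
    have h3 := har_reg h1 h2 hε hμ hg hcg
    rw [← hc] at h3
    have h4 : 0 ≤ μ * GD g := mul_nonneg hμ.le (hD0 g)
    have h5 : 0 ≤ μ ^ (-(s / (2 - s))) * ∫ x, g x ^ 2 := mul_nonneg (by positivity) (hA0 g)
    obtain ⟨X, hX⟩ : ∃ X : ℝ, X = ∫ x, (sg x + ε) ^ (-(s / 2)) * g x ^ 2 := ⟨_, rfl⟩
    rw [← hX] at h3 ⊢
    have h6 : X = 2 / (2 - s) * ((2 - s) / 2 * X) := by
      field_simp
    rw [h6, mul_assoc]
    refine mul_le_mul_of_nonneg_left ?_ (by positivity)
    have h7 : 0 ≤ c * (μ * GD g) := by positivity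
    have h8 : c * μ ^ (-(s / (2 - s))) * (∫ x, g x ^ 2) =
      c * (μ ^ (-(s / (2 - s))) * ∫ x, g x ^ 2) := by ring
    rw [h8] at h3
    linarith
  have hint : ∀ (s ε : ℝ) (g : V → ℝ), 0 < ε → ContDiff ℝ ∞ g → HasCompactSupport g →
      Integrable (fun x : V => (sg x + ε) ^ (-(s / 2)) * g x ^ 2) := by
    intro s ε g hε hg hcg
    refine ((psi_sm hε _).continuous.mul
      (hg.continuous.pow 2)).integrable_of_hasCompactSupport ?_
    refine HasCompactSupport.intro hcg.isCompact fun x hx => ?_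
    show (sg x + ε) ^ (-(s / 2)) * g x ^ 2 = 0
    rw [image_eq_zero_of_notMem_tsupport hx]
    norm_num
  have hconv : ∀ (s ε Z : ℝ) (g : V → ℝ), 0 < ε → ContDiff ℝ ∞ g → HasCompactSupport g →
      ∫ x, (sg x + ε) ^ (-(s / 2)) * g x ^ 2 ≤ Z →
      ∫⁻ x, ENNReal.ofReal ((sg x + ε) ^ (-(s / 2)) * g x ^ 2) ≤ ENNReal.ofReal Z := by
    intro s ε Z g hε hg hcg hle
    rw [← ofReal_integral_eq_lintegral_ofReal (hint s ε g hε hg hcg)
      (Eventually.of_forall fun x => by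
        have := sg_nonneg x
        show 0 ≤ (sg x + ε) ^ (-(s / 2)) * g x ^ 2
        positivity)]
    exact ENNReal.ofReal_le_ofReal hle
  rcases le_or_gt 1 s with h1 | h1
  · obtain ⟨C, hC, hk⟩ := key s h1 hs2
    exact ⟨C, hC, fun μ g hμ hg hcg => har_lim hg.continuous fun ε hε =>
      hconv s ε _ g hε hg hcg (hk μ ε g hμ hε hg hcg)⟩
  · obtain ⟨C, hC, hk⟩ := key 1 le_rfl (by norm_num)
    refine ⟨C + 1, by positivity, fun μ g hμ hg hcg => har_lim hg.continuous fun ε hε =>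
      hconv s ε _ g hε hg hcg ?_⟩
    have h2s : 0 < 2 - s := by linarith
    have h1s : 0 < 1 - s := by linarith
    obtain ⟨κ, hκ⟩ : ∃ κ : ℝ, κ = μ ^ ((1 - s) / (2 - s)) := ⟨_, rfl⟩
    have hκ0 : 0 < κ := by rw [hκ]; positivity
    obtain ⟨μ', hμ'⟩ : ∃ μ' : ℝ, μ' = μ ^ (1 / (2 - s)) := ⟨_, rfl⟩
    have hμ'0 : 0 < μ' := by rw [hμ']; positivity
    have h3 := hk μ' ε g hμ'0 hε hg hcg
    have e1 : κ * μ' = μ := by
      rw [hκ, hμ', ← Real.rpow_add hμ]
      have : (1 - s) / (2 - s) + 1 / (2 - s) = 1 := by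
        field_simp
        ring
      rw [this, Real.rpow_one]
    have e2 : κ * μ' ^ (-((1 : ℝ) / (2 - 1))) = μ ^ (-(s / (2 - s))) := by
      rw [hκ, hμ', ← Real.rpow_mul hμ.le, ← Real.rpow_add hμ]
      congr 1
      field_simp
      ring
    have e3 : κ ^ (-(s / (1 - s))) = μ ^ (-(s / (2 - s))) := by
      rw [hκ, ← Real.rpow_mul hμ.le]
      congr 1
      field_simp
    have i1 := hint 1 ε g hε hg hcg
    have iA : Integrable (fun x => g x ^ 2) := by
      refine (hg.continuous.pow 2).integrable_of_hasCompactSupport ?_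
      refine HasCompactSupport.intro hcg.isCompact fun x hx => ?_
      show g x ^ 2 = 0
      rw [image_eq_zero_of_notMem_tsupport hx]
      norm_num
    have h4 : ∫ x, (sg x + ε) ^ (-(s / 2)) * g x ^ 2 ≤
        κ * (∫ x, (sg x + ε) ^ (-((1 : ℝ) / 2)) * g x ^ 2) + κ ^ (-(s / (1 - s)))
          * ∫ x, g x ^ 2 := by
      rw [← integral_const_mul, ← integral_const_mul,
        ← integral_add (i1.const_mul _) (iA.const_mul _)]
      refine integral_mono (hint s ε g hε hg hcg) ((i1.const_mul _).add (iA.const_mul _))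
        fun x => ?_
      beta_reduce
      have hpos : 0 < sg x + ε := by
        have := sg_nonneg x
        linarith
      have h5 := young_pow (y := (sg x + ε) ^ (-((1 : ℝ) / 2))) (Real.rpow_pos_of_pos hpos _) hκ0
        hs0 h1
      rw [← Real.rpow_mul hpos.le] at h5
      have e4 : -((1 : ℝ) / 2) * s = -(s / 2) := by ring
      rw [e4] at h5
      have := mul_le_mul_of_nonneg_right h5 (sq_nonneg (g x))
      linarith
    have h6 := mul_le_mul_of_nonneg_left h3 hκ0.le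
    have e5 : κ * (C * (μ' * GD g + μ' ^ (-((1 : ℝ) / (2 - 1))) * ∫ x, g x ^ 2)) =
        C * (μ * GD g + μ ^ (-(s / (2 - s))) * ∫ x, g x ^ 2) := by
      rw [← e2]
      conv_rhs => rw [← e1]
      ring
    rw [e5] at h6
    rw [e3] at h4
    have h7 : 0 ≤ μ * GD g := mul_nonneg hμ.le (hD0 g)
    linarith

end Pool.Agent.V8H53.AX
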